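import Pool.Agent.H24.NB.Defs

/-!
# Coefficient bounds forced by `L¹`-smallness
-/

namespace Pool.Agent.H24.NB

open Complex Set MeasureTheory Filter Topology

lemma int_abs_lin_ge (a S : ℝ) : |a - S / 2| ≤ ∫ t in (0:ℝ)..1, |a - S * t| := by
  have h : ∫ t in (0:ℝ)..1, (a - S * t) = a - S / 2 := by
    rw [intervalIntegral.integral_sub (by simp) (by
      exact (continuous_const.mul continuous_id).intervalIntegrable _ _),
      intervalIntegral.integral_const, intervalIntegral.integral_const_mul, integral_id]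
    norm_num
    ring
  rw [← h]
  exact intervalIntegral.abs_integral_le_integral_abs zero_le_one

lemma int_abs_lin_ge' (a S : ℝ) : |S| / 6 ≤ ∫ t in (0:ℝ)..1, |a - S * t| := by
  have h : ∫ t in (0:ℝ)..1, ((a - S * t) * (1 - 2 * t)) = S / 6 := by
    have e : ∀ t : ℝ, (a - S * t) * (1 - 2 * t) = a - (S + 2 * a) * t + 2 * S * t ^ 2 := by
      intro t; ring
    simp_rw [e]
    rw [intervalIntegral.integral_add, intervalIntegral.integral_sub,
      intervalIntegral.integral_const, intervalIntegral.integral_const_mul, integral_id,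
      intervalIntegral.integral_const_mul, integral_pow]
    · norm_num
      ring
    · exact continuous_const.intervalIntegrable _ _
    · exact (continuous_const.mul continuous_id).intervalIntegrable _ _
    · exact (Continuous.intervalIntegrable (by fun_prop) _ _)
    · exact (Continuous.intervalIntegrable (by fun_prop) _ _)
  have h2 : |S / 6| ≤ ∫ t in (0:ℝ)..1, |(a - S * t) * (1 - 2 * t)| := by
    rw [← h]
    exact intervalIntegral.abs_integral_le_integral_abs zero_le_one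
  rw [abs_div, abs_of_pos (show (0:ℝ) < 6 by norm_num)] at h2
  refine h2.trans ?_
  refine intervalIntegral.integral_mono_on zero_le_one
    (Continuous.intervalIntegrable (by fun_prop) _ _)
    (Continuous.intervalIntegrable (by fun_prop) _ _) fun t ht => ?_
  rw [abs_mul]
  have : |1 - 2 * t| ≤ 1 := by
    rw [abs_le]
    constructor <;> linarith [ht.1, ht.2]
  calc |a - S * t| * |1 - 2 * t| ≤ |a - S * t| * 1 := by gcongr
    _ = _ := mul_one _

/-- `g` is affine with slope `-S` on `[n, n+1)`. -/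
lemma gfun_affine (N : ℕ) (b : ℕ → ℝ) (n : ℕ) {x : ℝ} (h1 : (n:ℝ) ≤ x) (h2 : x < n + 1) :
    gfun N b x = gfun N b n - SS N b * (x - n) := by
  have hx : 0 ≤ x := (Nat.cast_nonneg n).trans h1
  have hfl : ⌊x⌋₊ = n := by
    rw [Nat.floor_eq_iff hx]
    exact ⟨h1, h2⟩
  rw [gfun_eq, gfun_eq]
  have : ∀ k : ℕ, (⌊x / k⌋ : ℝ) = (⌊(n:ℝ) / k⌋ : ℝ) := by
    intro k
    rw [floor_div_eq hx, floor_div_eq (Nat.cast_nonneg n), hfl, Nat.floor_natCast]
  simp_rw [this]
  ring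

lemma nrm_ge_interval (N : ℕ) (b : ℕ → ℝ) (n : ℕ) (hn : 1 ≤ n) :
    ∫ t in (0:ℝ)..1, |gfun N b n - SS N b * t| ≤ ((n:ℝ) + 1) ^ 2 * nrm N b := by
  have hn1 : (1:ℝ) ≤ n := by exact_mod_cast hn
  have hsub : Ioc (n:ℝ) (n + 1) ⊆ Ioi 1 := fun x hx => lt_of_le_of_lt hn1 hx.1
  have h1 : ∫ x in Ioc (n:ℝ) (n + 1), |gfun N b x| / x ^ 2 ≤ nrm N b := by
    refine setIntegral_mono_set (integrableOn_nrm N b) ?_ hsub.eventuallyLE
    exact ae_of_all _ fun x => by positivity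
  have h2 : ∫ x in Ioc (n:ℝ) (n + 1), |gfun N b x| / (n + 1) ^ 2
      ≤ ∫ x in Ioc (n:ℝ) (n + 1), |gfun N b x| / x ^ 2 := by
    refine setIntegral_mono_on ?_ ((integrableOn_nrm N b).mono_set hsub) measurableSet_Ioc ?_
    · have : IntegrableOn (fun x => |gfun N b x|) (Ioc (n:ℝ) (n + 1)) := by
        refine Measure.integrableOn_of_bounded (M := 1 + ∑ k ∈ Finset.Icc 1 N, |b k|) (by simp)
          (measurable_gfun N b).abs.aestronglyMeasurable (ae_of_all _ fun x => ?_)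
        rw [Real.norm_eq_abs, abs_abs]
        exact abs_gfun_le N b x
      exact this.div_const _
    · intro x hx
      have hx0 : 0 < x := by linarith [hx.1]
      have := hx.2
      gcongr
  have h3 : ∫ x in Ioc (n:ℝ) (n + 1), |gfun N b x| / (n + 1) ^ 2
      = (∫ t in (0:ℝ)..1, |gfun N b n - SS N b * t|) / (n + 1) ^ 2 := by
    rw [← intervalIntegral.integral_of_le (by linarith), intervalIntegral.integral_div]
    congr 1
    have e1 : ∫ x in (n:ℝ)..(n + 1), |gfun N b x|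
        = ∫ x in (n:ℝ)..(n + 1), |gfun N b n - SS N b * (x - n)| := by
      rw [intervalIntegral.integral_of_le (by linarith), intervalIntegral.integral_of_le
        (by linarith), integral_Ioc_eq_integral_Ioo, integral_Ioc_eq_integral_Ioo]
      refine setIntegral_congr_fun measurableSet_Ioo fun x hx => ?_
      rw [gfun_affine N b n hx.1.le hx.2]
    rw [e1, intervalIntegral.integral_comp_sub_right (fun y => |gfun N b n - SS N b * y|)]
    simp
  have h4 : (∫ t in (0:ℝ)..1, |gfun N b n - SS N b * t|) / ((n:ℝ) + 1) ^ 2 ≤ nrm N b := by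
    rw [← h3]; exact h2.trans h1
  have h5 : 0 < ((n:ℝ) + 1) ^ 2 := by positivity
  rw [div_le_iff₀ h5] at h4
  linarith

lemma abs_SS_le (N : ℕ) (b : ℕ → ℝ) : |SS N b| ≤ 24 * nrm N b := by
  have h := nrm_ge_interval N b 1 le_rfl
  have h2 := int_abs_lin_ge' (gfun N b (1:ℕ)) (SS N b)
  norm_num at h h2
  linarith

lemma abs_gfun_nat_le (N : ℕ) (b : ℕ → ℝ) (n : ℕ) (hn : 1 ≤ n) :
    |gfun N b n| ≤ (((n:ℝ) + 1) ^ 2 + 12) * nrm N b := by
  have h := nrm_ge_interval N b n hn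
  have h2 := int_abs_lin_ge (gfun N b n) (SS N b)
  have h3 := abs_SS_le N b
  have h4 : |gfun N b n| ≤ |gfun N b n - SS N b / 2| + |SS N b / 2| := by
    have := abs_add_le (gfun N b n - SS N b / 2) (SS N b / 2)
    simpa using this
  rw [abs_div, abs_two] at h4
  linarith

/-- `∑_{k ∣ n, k ≤ N} b k`. -/
noncomputable def cc (N : ℕ) (b : ℕ → ℝ) (n : ℕ) : ℝ :=
  ∑ k ∈ n.divisors, if k ≤ N then b k else 0

lemma sum_floor_succ (N : ℕ) (b : ℕ → ℝ) (n : ℕ) :
    ∑ k ∈ Finset.Icc 1 N, b k * (((n + 1) / k : ℕ) : ℝ) =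
      ∑ k ∈ Finset.Icc 1 N, b k * ((n / k : ℕ) : ℝ) + cc N b (n + 1) := by
  have h : ∀ k ∈ Finset.Icc 1 N, b k * (((n + 1) / k : ℕ) : ℝ) =
      b k * ((n / k : ℕ) : ℝ) + (if k ∣ n + 1 then b k else 0) := by
    intro k _
    rw [Nat.succ_div]
    split_ifs with hd
    · push_cast; ring
    · simp
  rw [Finset.sum_congr rfl h, Finset.sum_add_distrib]
  congr 1
  rw [cc, ← Finset.sum_filter, ← Finset.sum_filter]
  refine Finset.sum_congr ?_ fun _ _ => rfl
  ext k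
  simp only [Finset.mem_filter, Finset.mem_Icc, Nat.mem_divisors]
  constructor
  · rintro ⟨⟨_, h2⟩, h3⟩
    exact ⟨⟨h3, by omega⟩, h2⟩
  · rintro ⟨⟨h3, _⟩, h2⟩
    exact ⟨⟨Nat.pos_of_dvd_of_pos h3 (by omega), h2⟩, h3⟩

lemma cc_eq (N : ℕ) (b : ℕ → ℝ) (n : ℕ) :
    cc N b (n + 1) = gfun N b ((n + 1 : ℕ) : ℝ) - gfun N b (n : ℝ) + SS N b := by
  rw [gfun_eq, gfun_eq]
  have h1 : ∀ m k : ℕ, (⌊(m:ℝ) / k⌋ : ℝ) = ((m / k : ℕ) : ℝ) := by
    intro m k
    rw [floor_div_eq (Nat.cast_nonneg m), Nat.floor_natCast]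
  simp_rw [h1]
  rw [sum_floor_succ]
  push_cast
  ring

lemma abs_cc_le (N : ℕ) (b : ℕ → ℝ) (hb : nrm N b ≤ 1) (n : ℕ) (hn : 1 ≤ n) :
    |cc N b n| ≤ 53 * (n:ℝ) ^ 2 := by
  obtain ⟨m, rfl⟩ : ∃ m, n = m + 1 := ⟨n - 1, by omega⟩
  have h0 := nrm_nonneg N b
  rw [cc_eq]
  have h1 := abs_SS_le N b
  have h2 := abs_gfun_nat_le N b (m + 1) hn
  have h3 : |gfun N b (m:ℝ)| ≤ ((m:ℝ) + 1) ^ 2 + 12 := by
    rcases Nat.eq_zero_or_pos m with rfl | hm
    · simp [gfun]
    · refine (abs_gfun_nat_le N b m hm).trans ?_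
      have : 0 ≤ ((m:ℝ) + 1) ^ 2 + 12 := by positivity
      nlinarith
  have h4 : |gfun N b ((m + 1 : ℕ) : ℝ)| ≤ (((m + 1 : ℕ):ℝ) + 1) ^ 2 + 12 := by
    refine h2.trans ?_
    have : 0 ≤ (((m + 1 : ℕ):ℝ) + 1) ^ 2 + 12 := by positivity
    nlinarith
  have h5 : |gfun N b ((m + 1 : ℕ) : ℝ) - gfun N b (m : ℝ) + SS N b| ≤
      |gfun N b ((m + 1 : ℕ) : ℝ)| + |gfun N b (m : ℝ)| + |SS N b| := by
    refine (abs_add_le _ _).trans ?_
    gcongr
    exact abs_sub _ _
  push_cast at *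
  have hm : (0:ℝ) ≤ m := Nat.cast_nonneg m
  nlinarith

lemma abs_coeff_le (N : ℕ) (b : ℕ → ℝ) (hb : nrm N b ≤ 1) (n : ℕ) (hn : 1 ≤ n) (hN : n ≤ N) :
    |b n| ≤ 53 * (n:ℝ) ^ 3 := by
  have hinv := (ArithmeticFunction.sum_eq_iff_sum_mul_moebius_eq
    (f := fun k => if k ≤ N then b k else 0) (g := cc N b)).1 (fun n _ => rfl) n hn
  simp only [hN, if_true] at hinv
  rw [← hinv]
  refine (Finset.abs_sum_le_sum_abs _ _).trans ?_
  have h1 : ∀ x ∈ n.divisorsAntidiagonal, |((ArithmeticFunction.moebius x.1 : ℤ) : ℝ) * cc N b x.2|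
      ≤ 53 * (n:ℝ) ^ 2 := by
    intro x hx
    rw [Nat.mem_divisorsAntidiagonal] at hx
    have hx2 : 1 ≤ x.2 := by
      rcases Nat.eq_zero_or_pos x.2 with h | h
      · rw [h, mul_zero] at hx; omega
      · exact h
    have hx3 : x.2 ≤ n := Nat.le_of_dvd hn (Dvd.intro_left _ hx.1)
    rw [abs_mul]
    have hmu : |((ArithmeticFunction.moebius x.1 : ℤ) : ℝ)| ≤ 1 := by
      exact_mod_cast ArithmeticFunction.abs_moebius_le_one
    have hc := abs_cc_le N b hb x.2 hx2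
    have hx4 : (x.2:ℝ) ≤ n := by exact_mod_cast hx3
    calc |((ArithmeticFunction.moebius x.1 : ℤ) : ℝ)| * |cc N b x.2|
        ≤ 1 * (53 * (x.2:ℝ) ^ 2) := by gcongr
      _ ≤ 53 * (n:ℝ) ^ 2 := by
        rw [one_mul]
        gcongr
  refine (Finset.sum_le_card_nsmul _ _ _ h1).trans ?_
  rw [nsmul_eq_mul]
  have hcard : (n.divisorsAntidiagonal.card : ℝ) ≤ n := by
    have h2 : n.divisorsAntidiagonal.card = n.divisors.card := by
      rw [← Nat.map_div_right_divisors, Finset.card_map]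
    rw [h2]
    exact_mod_cast Nat.card_divisors_le_self n
  calc (n.divisorsAntidiagonal.card : ℝ) * (53 * (n:ℝ) ^ 2) ≤ n * (53 * (n:ℝ) ^ 2) := by gcongr
    _ = 53 * (n:ℝ) ^ 3 := by ring

end Pool.Agent.H24.NB
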