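import Mathlib

/-!
# The `L¹` Nyman–Beurling approximation problem: basic definitions

`gfun N b x = 1 - ∑_{k ≤ N} b k {x / k}` on `[1, ∞)`, and its norm
`nrm N b = ∫_1^∞ |gfun N b x| / x² dx`, which is the `L¹(0,1)` distance of `1` to
`∑_{k ≤ N} b k {1/(k x)}` after the substitution `x ↦ 1/x`.
-/

namespace Pool.Agent.H24.NB

open Complex Set MeasureTheory Filter Topology

/-- `1 - ∑_{k ≤ N} b k {x / k}`. -/
noncomputable def gfun (N : ℕ) (b : ℕ → ℝ) (x : ℝ) : ℝ :=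
  1 - ∑ k ∈ Finset.Icc 1 N, b k * Int.fract (x / k)

/-- `∫_1^∞ |1 - ∑_{k ≤ N} b k {x / k}| dx / x²`. -/
noncomputable def nrm (N : ℕ) (b : ℕ → ℝ) : ℝ :=
  ∫ x in Ioi (1:ℝ), |gfun N b x| / x ^ 2

/-- `∑_{k ≤ N} b k / k`. -/
noncomputable def SS (N : ℕ) (b : ℕ → ℝ) : ℝ := ∑ k ∈ Finset.Icc 1 N, b k / k

/-- The Dirichlet polynomial `∑_{k ≤ N} b k k^{-s}`. -/
noncomputable def Bs (N : ℕ) (b : ℕ → ℝ) (s : ℂ) : ℂ :=
  ∑ k ∈ Finset.Icc 1 N, (b k : ℂ) * (k : ℂ) ^ (-s)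

/-- The entire function equal to `s ∫_1^∞ gfun N b x x^{-s-1} dx` for `Re s > 1`. -/
noncomputable def HH (N : ℕ) (b : ℕ → ℝ) (s : ℂ) : ℂ :=
  1 - SS N b + riemannZeta₀ s * Bs N b s + dslope (Bs N b) 1 s

lemma measurable_gfun (N : ℕ) (b : ℕ → ℝ) : Measurable (gfun N b) := by
  unfold gfun
  refine measurable_const.sub (Finset.measurable_sum _ fun k _ => ?_)
  exact (measurable_fract.comp (measurable_id.div_const _)).const_mul _

lemma abs_gfun_le (N : ℕ) (b : ℕ → ℝ) (x : ℝ) :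
    |gfun N b x| ≤ 1 + ∑ k ∈ Finset.Icc 1 N, |b k| := by
  unfold gfun
  refine (abs_sub _ _).trans ?_
  rw [abs_one]
  gcongr
  refine (Finset.abs_sum_le_sum_abs _ _).trans (Finset.sum_le_sum fun k _ => ?_)
  rw [abs_mul]
  have h1 : |Int.fract (x / k)| ≤ 1 := by
    rw [abs_of_nonneg (Int.fract_nonneg _)]
    exact (Int.fract_lt_one _).le
  calc |b k| * |Int.fract (x / k)| ≤ |b k| * 1 := by gcongr
    _ = |b k| := mul_one _

lemma integrableOn_inv_sq : IntegrableOn (fun x : ℝ => 1 / x ^ 2) (Ioi 1) := by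
  have h := integrableOn_Ioi_rpow_of_lt (show (-2:ℝ) < -1 by norm_num) (zero_lt_one)
  refine h.congr_fun (fun x hx => ?_) measurableSet_Ioi
  have hx0 : (0:ℝ) < x := lt_trans zero_lt_one hx
  simp only
  rw [Real.rpow_neg hx0.le]
  norm_num

lemma integrableOn_nrm (N : ℕ) (b : ℕ → ℝ) :
    IntegrableOn (fun x : ℝ => |gfun N b x| / x ^ 2) (Ioi 1) := by
  have h := integrableOn_inv_sq.const_mul (1 + ∑ k ∈ Finset.Icc 1 N, |b k|)
  refine h.mono' ?_ ?_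
  · exact ((measurable_gfun N b).abs.div (measurable_id.pow_const 2)).aestronglyMeasurable
  · refine ae_of_all _ fun x => ?_
    rw [Real.norm_eq_abs, abs_div, abs_abs, abs_of_nonneg (sq_nonneg x), div_eq_mul_one_div]
    exact mul_le_mul_of_nonneg_right (abs_gfun_le N b x) (by positivity)

lemma nrm_nonneg (N : ℕ) (b : ℕ → ℝ) : 0 ≤ nrm N b :=
  setIntegral_nonneg measurableSet_Ioi fun x _ => by positivity

lemma gfun_eq (N : ℕ) (b : ℕ → ℝ) (x : ℝ) :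
    gfun N b x = 1 - SS N b * x + ∑ k ∈ Finset.Icc 1 N, b k * (⌊x / k⌋ : ℝ) := by
  unfold gfun SS
  rw [Finset.sum_mul]
  rw [show (1 - ∑ i ∈ Finset.Icc 1 N, b i / (i:ℝ) * x + ∑ k ∈ Finset.Icc 1 N, b k * (⌊x / k⌋ : ℝ))
    = 1 - (∑ i ∈ Finset.Icc 1 N, b i / (i:ℝ) * x - ∑ k ∈ Finset.Icc 1 N, b k * (⌊x / k⌋ : ℝ)) by ring,
    ← Finset.sum_sub_distrib]
  congr 1
  refine Finset.sum_congr rfl fun k _ => ?_
  rw [Int.fract]
  ring

/-- The value of `∑_{k≤N} b k ⌊x/k⌋` only depends on `⌊x⌋`. -/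
lemma floor_div_eq {x : ℝ} (hx : 0 ≤ x) (k : ℕ) : (⌊x / k⌋ : ℝ) = ((⌊x⌋₊ / k : ℕ) : ℝ) := by
  have h1 : (⌊x / k⌋₊ : ℤ) = ⌊x / k⌋ := Int.natCast_floor_eq_floor (by positivity)
  rw [← h1, Nat.floor_div_natCast, Int.cast_natCast]

end Pool.Agent.H24.NB
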