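import Pool.Agent.H6.LiouvilleSum
import Pool.Agent.H24.NB.Defs

/-!
# Möbius sums in a zero-free half-plane

Adapted from `Pool.Agent.H6.LiouvilleSum` (helper6): if `ζ` has no zeros in `Re s > θ` then
`∑_{n ≤ N} μ(n)/n = O(N^{θ-1+ε})` and `∑_{n ≤ N} μ(n) = O(N^{θ+ε})`.
-/

open Complex LSeries Filter Topology MeasureTheory Set Metric Pool.Agent.H6

namespace Pool.Agent.H24.NB

/-- `μ(n)/n`. -/
noncomputable def muCoeff (n : ℕ) : ℂ := ((ArithmeticFunction.moebius n : ℤ) : ℂ) / n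

lemma term_muCoeff (s : ℂ) :
    term muCoeff s = term (fun n ↦ ((ArithmeticFunction.moebius n : ℤ) : ℂ)) (s + 1) := by
  ext n
  rcases eq_or_ne n 0 with rfl | hn
  · simp
  · rw [term_of_ne_zero hn, term_of_ne_zero hn, muCoeff]
    have hn' : (n : ℂ) ≠ 0 := by exact_mod_cast hn
    rw [cpow_add _ _ hn', cpow_one]
    field_simp

/-- the integrand after the shift `w = s + 1` -/
noncomputable def muPhi (N : ℕ) (w : ℂ) : ℂ :=
  (((N + 1 : ℕ) : ℂ) ^ w - (N : ℂ) ^ w) / w * (zetaPole w)⁻¹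

lemma kern_mul_LSeries {N : ℕ} {s : ℂ} (hs : 0 < s.re) :
    kern N s * LSeries muCoeff s = muPhi N (s + 1) := by
  have hs0 : s ≠ 0 := by intro h; rw [h, zero_re] at hs; exact lt_irrefl _ hs
  have hs1 : s + 1 ≠ 1 := by simpa using hs0
  have hz : riemannZeta (s + 1) ≠ 0 := riemannZeta_ne_zero_of_one_lt_re (by simp; linarith)
  have hL : LSeries muCoeff s = (riemannZeta (s + 1))⁻¹ := by
    rw [LSeries, term_muCoeff, ← LSeries]
    have h1 := LSeries_one_mul_Lseries_moebius (s := s + 1) (by simp; linarith)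
    rw [LSeries_one_eq_riemannZeta (by simp; linarith)] at h1
    exact eq_inv_of_mul_eq_one_right h1
  have hs2 : s + 1 ≠ 0 := by
    intro h
    have := congrArg Complex.re h
    simp at this
    linarith
  rw [hL, kern, muPhi, zetaPole_of_ne hs1]
  have : s + 1 - 1 = s := by ring
  rw [this]
  field_simp

/-- **Möbius sums in a zero-free half-plane.** -/
theorem moebius_logSum_bound {θ : ℝ} (hθ : 1 / 2 ≤ θ) (hθ1 : θ < 1)
    (hZ : ∀ s : ℂ, θ < s.re → riemannZeta s ≠ 0) {ε : ℝ} (hε : 0 < ε) :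
    ∃ C : ℝ, ∀ N : ℕ, 1 ≤ N → ‖∑ n ∈ Finset.Icc 1 N, muCoeff n‖ ≤ C * (N : ℝ) ^ (θ - 1 + ε) := by
  set ε' : ℝ := min ε (1 - θ) with hε'
  have hε'0 : 0 < ε' := lt_min hε (by linarith)
  set σ : ℝ := θ + ε' / 2 with hσ
  have hσθ : θ < σ := by rw [hσ]; linarith
  have hσ1 : σ < 1 := by
    have := min_le_right ε (1 - θ)
    rw [hσ]; linarith
  set τ : ℝ := ε' / 2 with hτ
  have hτ0 : 0 < τ := by rw [hτ]; linarith
  have hτ1 : τ < 1 := by
    have := min_le_right ε (1 - θ)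
    rw [hτ]; linarith
  obtain ⟨C, hC, hCb⟩ := inv_zetaPole_bound hθ hθ1 hZ hσθ (η := τ / 2) (by linarith)
  have hzp : ∀ s : ℂ, θ < s.re → zetaPole s ≠ 0 := by
    intro s hs
    rcases eq_or_ne s 1 with rfl | h1
    · rw [zetaPole_one]; exact one_ne_zero
    · rw [zetaPole_of_ne h1]
      exact mul_ne_zero (sub_ne_zero.mpr h1) (hZ s hs)
  set J : ℝ := ∫ y : ℝ, (1 + |y|) ^ (-(1 + τ / 2)) with hJ
  have hJnn : 0 ≤ J := integral_nonneg fun y ↦ by positivity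
  refine ⟨(12 * C) * J, fun N hN ↦ ?_⟩
  have hN0 : (0 : ℝ) < N := by exact_mod_cast hN
  have hN1 : (1 : ℝ) ≤ N := by exact_mod_cast hN
  -- Perron
  have hsum1 : LSeriesSummable muCoeff ((1 : ℝ) : ℂ) := by
    unfold LSeriesSummable
    rw [term_muCoeff]
    exact ArithmeticFunction.LSeriesSummable_moebius_iff.2 (by simp)
  have hP := perron one_pos hsum1 hN
  have hPphi : ∀ y : ℝ, kern N (((1 : ℝ) : ℂ) + y * I) * LSeries muCoeff (((1 : ℝ) : ℂ) + y * I)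
      = muPhi N (((2 : ℝ) : ℂ) + y * I) := by
    intro y
    rw [kern_mul_LSeries (by simp)]
    congr 1
    push_cast
    ring
  rw [hP]
  simp_rw [hPphi]
  -- shift
  have hdiff : ∀ w : ℂ, σ ≤ w.re → w.re ≤ 2 → DifferentiableAt ℂ (muPhi N) w := by
    intro w hw _
    have hw0 : w ≠ 0 := by intro h; rw [h, zero_re] at hw; linarith
    have hzw := hzp w (by linarith)
    have hNc : ((N + 1 : ℕ) : ℂ) ≠ 0 := by exact_mod_cast (by omega : N + 1 ≠ 0)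
    have hNc' : (N : ℂ) ≠ 0 := by exact_mod_cast (by omega : N ≠ 0)
    have d1 : DifferentiableAt ℂ (fun w : ℂ ↦ ((N + 1 : ℕ) : ℂ) ^ w) w :=
      differentiableAt_id.const_cpow (Or.inl hNc)
    have d2 : DifferentiableAt ℂ (fun w : ℂ ↦ (N : ℂ) ^ w) w :=
      differentiableAt_id.const_cpow (Or.inl hNc')
    have d4 : DifferentiableAt ℂ (fun w : ℂ ↦ (zetaPole w)⁻¹) w :=
      (zetaPole_differentiable w).inv hzw
    exact ((d1.sub d2).div differentiableAt_id hw0).mul d4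
  have hstrip : ∀ w : ℂ, σ ≤ w.re → w.re ≤ 2 →
      ‖muPhi N w‖ ≤ (2 * ((N : ℝ) + 1) ^ (2 : ℝ) * 3 * C) * (1 + |w.im|) ^ (-(2 - τ / 2)) := by
    intro w hw hw2
    have hpos : 0 < 1 + |w.im| := by linarith [abs_nonneg w.im]
    have hw3 := one_add_abs_le_norm (w := w) (by linarith)
    have hwpos : 0 < ‖w‖ := by linarith
    have b1 : ‖((N + 1 : ℕ) : ℂ) ^ w - (N : ℂ) ^ w‖ ≤ 2 * ((N : ℝ) + 1) ^ (2 : ℝ) := by
      refine (norm_pow_sub_pow_le' hN (by linarith)).trans ?_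
      have : ((N : ℝ) + 1) ^ w.re ≤ ((N : ℝ) + 1) ^ (2 : ℝ) :=
        Real.rpow_le_rpow_of_exponent_le (by linarith) hw2
      linarith
    have b2 : 1 / ‖w‖ ≤ 3 * (1 + |w.im|) ^ (-1 : ℝ) := by
      rw [Real.rpow_neg_one, ← div_eq_mul_inv, div_le_div_iff₀ hwpos hpos]
      linarith
    have b4 := hCb w hw hw2
    rw [muPhi, norm_mul, norm_div, div_eq_mul_one_div]
    calc ‖((N + 1 : ℕ) : ℂ) ^ w - (N : ℂ) ^ w‖ * (1 / ‖w‖)  * ‖(zetaPole w)⁻¹‖
        ≤ (2 * ((N : ℝ) + 1) ^ (2 : ℝ)) * (3 * (1 + |w.im|) ^ (-1 : ℝ)) *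
          (C * (1 + |w.im|) ^ (τ / 2 - 1)) := by gcongr
      _ = (2 * ((N : ℝ) + 1) ^ (2 : ℝ) * 3 * C) *
          ((1 + |w.im|) ^ (-1 : ℝ) * (1 + |w.im|) ^ (τ / 2 - 1)) := by ring
      _ = _ := by
        rw [← Real.rpow_add hpos]
        congr 2
        ring
  have hshift := vertical_shift (Φ := muPhi N) (l := σ) (u := 2) (by linarith) hdiff
    (p := 2 - τ / 2) (by linarith) hstrip
  rw [← hshift, norm_mul]
  -- bound on the line `re = σ`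
  have hline : ∀ y : ℝ, ‖muPhi N ((σ : ℂ) + y * I)‖ ≤
      (12 * C) * (N : ℝ) ^ (θ - 1 + ε) * (1 + |y|) ^ (-(1 + τ / 2)) := by
    intro y
    set w : ℂ := (σ : ℂ) + y * I with hw
    have hwre : w.re = σ := by simp [hw]
    have hwim : w.im = y := by simp [hw]
    have hpos : 0 < 1 + |y| := by linarith [abs_nonneg y]
    have hw3 := one_add_abs_le_norm (w := w) (by rw [hwre]; linarith)
    rw [hwim] at hw3
    have hwpos : 0 < ‖w‖ := by linarith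
    have b1 : ‖((N + 1 : ℕ) : ℂ) ^ w - (N : ℂ) ^ w‖ ≤ 4 * (N : ℝ) ^ σ := by
      refine (norm_pow_sub_pow_le' hN (by rw [hwre]; linarith)).trans ?_
      rw [hwre]
      have : ((N : ℝ) + 1) ^ σ ≤ 2 * (N : ℝ) ^ σ := by
        calc ((N : ℝ) + 1) ^ σ ≤ (2 * N) ^ σ := by
              apply Real.rpow_le_rpow (by linarith) (by linarith) (by linarith)
          _ = 2 ^ σ * (N : ℝ) ^ σ := Real.mul_rpow (by norm_num) hN0.le
          _ ≤ 2 ^ (1 : ℝ) * (N : ℝ) ^ σ := by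
              gcongr
              · norm_num
          _ = 2 * (N : ℝ) ^ σ := by rw [Real.rpow_one]
      linarith
    have b1' : ‖((N + 1 : ℕ) : ℂ) ^ w - (N : ℂ) ^ w‖ ≤ ‖w‖ * (N : ℝ) ^ (σ - 1) := by
      have := norm_pow_sub_pow_le hN (w := w) (by rw [hwre]; linarith) (by rw [hwre]; linarith)
      rwa [hwre] at this
    set D : ℝ := ‖((N + 1 : ℕ) : ℂ) ^ w - (N : ℂ) ^ w‖ with hD
    have hD0 : 0 ≤ D := norm_nonneg _
    have b2 : D ≤ 4 * (N : ℝ) ^ (σ - 1 + τ) * ‖w‖ ^ (1 - τ) := by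
      have e1 : D ^ τ ≤ (4 * (N : ℝ) ^ σ) ^ τ := Real.rpow_le_rpow hD0 b1 hτ0.le
      have e2 : D ^ (1 - τ) ≤ (‖w‖ * (N : ℝ) ^ (σ - 1)) ^ (1 - τ) :=
        Real.rpow_le_rpow hD0 b1' (by linarith)
      have e3 : D = D ^ τ * D ^ (1 - τ) := by
        rw [← Real.rpow_add_of_nonneg hD0 hτ0.le (by linarith)]
        simp
      have e4 : (4 : ℝ) ^ τ ≤ 4 := by
        calc (4 : ℝ) ^ τ ≤ 4 ^ (1 : ℝ) := Real.rpow_le_rpow_of_exponent_le (by norm_num) hτ1.le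
          _ = 4 := Real.rpow_one 4
      have e5 : ((N : ℝ) ^ σ) ^ τ * ((N : ℝ) ^ (σ - 1)) ^ (1 - τ) = (N : ℝ) ^ (σ - 1 + τ) := by
        rw [← Real.rpow_mul hN0.le, ← Real.rpow_mul hN0.le, ← Real.rpow_add hN0]
        congr 1
        ring
      rw [e3]
      calc D ^ τ * D ^ (1 - τ) ≤ (4 * (N : ℝ) ^ σ) ^ τ * (‖w‖ * (N : ℝ) ^ (σ - 1)) ^ (1 - τ) := by
            gcongr
        _ = 4 ^ τ * (((N : ℝ) ^ σ) ^ τ * ((N : ℝ) ^ (σ - 1)) ^ (1 - τ)) * ‖w‖ ^ (1 - τ) := by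
            rw [Real.mul_rpow (by norm_num) (by positivity), Real.mul_rpow (by positivity)
              (by positivity)]
            ring
        _ = 4 ^ τ * (N : ℝ) ^ (σ - 1 + τ) * ‖w‖ ^ (1 - τ) := by rw [e5]
        _ ≤ _ := by gcongr
    have b4 := hCb w (by rw [hwre]) (by rw [hwre]; linarith)
    rw [hwim] at b4
    have b5 : ‖w‖ ^ (-τ) ≤ 3 * (1 + |y|) ^ (-τ) := by
      have f1 : (1 + |y|) / 3 ≤ ‖w‖ := by linarith
      have f2 : ‖w‖ ^ (-τ) ≤ ((1 + |y|) / 3) ^ (-τ) :=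
        Real.rpow_le_rpow_of_nonpos (by positivity) f1 (by linarith)
      refine f2.trans ?_
      rw [Real.div_rpow hpos.le (by norm_num), Real.rpow_neg (by norm_num : (0:ℝ) ≤ 3),
        div_inv_eq_mul, mul_comm]
      gcongr
      calc (3 : ℝ) ^ τ ≤ 3 ^ (1 : ℝ) := Real.rpow_le_rpow_of_exponent_le (by norm_num) hτ1.le
        _ = 3 := Real.rpow_one 3
    have b6 : (N : ℝ) ^ (σ - 1 + τ) ≤ (N : ℝ) ^ (θ - 1 + ε) := by
      apply Real.rpow_le_rpow_of_exponent_le hN1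
      have := min_le_left ε (1 - θ)
      rw [hσ, hτ]
      linarith
    rw [muPhi, norm_mul, norm_div, ← hD]
    have hwτ : ‖w‖ ^ (1 - τ) / ‖w‖ = ‖w‖ ^ (-τ) := by
      rw [div_eq_iff hwpos.ne', ← Real.rpow_add_one hwpos.ne']
      congr 1
      ring
    calc D / ‖w‖  * ‖(zetaPole w)⁻¹‖
        ≤ (4 * (N : ℝ) ^ (σ - 1 + τ) * ‖w‖ ^ (1 - τ)) / ‖w‖ *
          (C * (1 + |y|) ^ (τ / 2 - 1)) := by gcongr
      _ = 4 * C * (N : ℝ) ^ (σ - 1 + τ) * (‖w‖ ^ (1 - τ) / ‖w‖) * (1 + |y|) ^ (τ / 2 - 1) := by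
          ring
      _ = 4 * C * (N : ℝ) ^ (σ - 1 + τ) * ‖w‖ ^ (-τ) * (1 + |y|) ^ (τ / 2 - 1) := by
          rw [hwτ]
      _ ≤ 4 * C * (N : ℝ) ^ (θ - 1 + ε) * (3 * (1 + |y|) ^ (-τ)) *
          (1 + |y|) ^ (τ / 2 - 1) := by gcongr
      _ = (12 * C) * (N : ℝ) ^ (θ - 1 + ε) *
          ((1 + |y|) ^ (-τ) * (1 + |y|) ^ (τ / 2 - 1)) := by ring
      _ = _ := by
          rw [← Real.rpow_add hpos]
          congr 2
          ring
  have hint : ‖∫ y : ℝ, muPhi N ((σ : ℂ) + y * I)‖ ≤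
      (12 * C) * (N : ℝ) ^ (θ - 1 + ε) * J := by
    rw [hJ, ← integral_const_mul]
    refine norm_integral_le_of_norm_le ?_ (Eventually.of_forall hline)
    exact (integrable_one_add_abs_rpow (by linarith)).const_mul _
  have hpi : ‖(1 / (2 * Real.pi) : ℂ)‖ ≤ 1 := by
    have h1 : (1 / (2 * Real.pi) : ℂ) = ((1 / (2 * Real.pi) : ℝ) : ℂ) := by push_cast; rfl
    rw [h1, norm_real, Real.norm_of_nonneg (by positivity), div_le_one (by positivity)]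
    have := Real.pi_gt_three
    linarith
  calc ‖(1 / (2 * Real.pi) : ℂ)‖ * ‖∫ y : ℝ, muPhi N ((σ : ℂ) + y * I)‖
      ≤ 1 * ((12 * C) * (N : ℝ) ^ (θ - 1 + ε) * J) := by gcongr
    _ = _ := by ring



end Pool.Agent.H24.NB
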