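import Pool.Agent.H24.NB.Coeff
import Pool.Agent.H24.NB.MobiusSum

/-!
# The upper bound: `L¹` approximation with Möbius coefficients
-/

namespace Pool.Agent.H24.NB

open Complex Set MeasureTheory Filter Topology

/-- the real-valued Möbius function -/
noncomputable def muR (k : ℕ) : ℝ := ((ArithmeticFunction.moebius k : ℤ) : ℝ)

noncomputable def mm (n : ℕ) : ℝ := ∑ k ∈ Finset.Icc 1 n, muR k / k

noncomputable def MM (n : ℕ) : ℝ := ∑ k ∈ Finset.Icc 1 n, muR k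

lemma abs_muR_le (k : ℕ) : |muR k| ≤ 1 := by
  unfold muR
  exact_mod_cast ArithmeticFunction.abs_moebius_le_one

lemma norm_sum_muCoeff (n : ℕ) : ‖∑ k ∈ Finset.Icc 1 n, muCoeff k‖ = |mm n| := by
  have : ∑ k ∈ Finset.Icc 1 n, muCoeff k = ((mm n : ℝ) : ℂ) := by
    unfold mm muCoeff muR
    push_cast
    rfl
  rw [this, Complex.norm_real, Real.norm_eq_abs]

lemma MM_succ (n : ℕ) : MM (n + 1) = (n + 1) * mm (n + 1) - ∑ j ∈ Finset.Icc 1 n, mm j := by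
  induction n with
  | zero => simp [MM, mm]
  | succ n ih =>
    have h1 : MM (n + 1 + 1) = MM (n + 1) + muR (n + 1 + 1) := by
      unfold MM
      rw [Finset.sum_Icc_succ_top (by omega)]
    have h2 : mm (n + 1 + 1) = mm (n + 1) + muR (n + 1 + 1) / ((n + 1 + 1 : ℕ) : ℝ) := by
      unfold mm
      rw [Finset.sum_Icc_succ_top (by omega)]
    rw [h1, ih, h2, Finset.sum_Icc_succ_top (by omega)]
    push_cast
    have : (n:ℝ) + 1 + 1 ≠ 0 := by positivity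
    field_simp
    ring

lemma harmonic_real_le (n : ℕ) : ∑ j ∈ Finset.Icc 1 n, (1:ℝ) / j ≤ 1 + Real.log n := by
  have h := harmonic_le_one_add_log n
  rw [harmonic_eq_sum_Icc] at h
  push_cast at h
  simpa [one_div] using h

lemma log_nonneg_nat (n : ℕ) : 0 ≤ Real.log n := Real.log_natCast_nonneg n

lemma abs_MM_le {C α : ℝ} (hC : 0 ≤ C) (hα1 : α ≤ 1)
    (h : ∀ n : ℕ, 1 ≤ n → |mm n| ≤ C * (n:ℝ) ^ (-α)) (n : ℕ) (hn : 1 ≤ n) :
    |MM n| ≤ C * (n:ℝ) ^ (1 - α) * (2 + Real.log n) := by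
  obtain ⟨m, rfl⟩ : ∃ m, n = m + 1 := ⟨n - 1, by omega⟩
  have hn0 : (0:ℝ) < ((m + 1 : ℕ) : ℝ) := by positivity
  rw [MM_succ]
  have h1 : |((m:ℝ) + 1) * mm (m + 1)| ≤ C * ((m + 1 : ℕ) : ℝ) ^ (1 - α) := by
    rw [abs_mul, abs_of_pos (by positivity : (0:ℝ) < (m:ℝ) + 1)]
    have h2 := h (m + 1) hn
    have e : ((m + 1 : ℕ) : ℝ) ^ (1 - α) = ((m:ℝ) + 1) * ((m + 1 : ℕ) : ℝ) ^ (-α) := by
      rw [sub_eq_add_neg, Real.rpow_add hn0, Real.rpow_one]
      push_cast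
      ring
    rw [e]
    have : (0:ℝ) ≤ (m:ℝ) + 1 := by positivity
    calc ((m:ℝ) + 1) * |mm (m + 1)| ≤ ((m:ℝ) + 1) * (C * ((m + 1 : ℕ) : ℝ) ^ (-α)) := by gcongr
      _ = _ := by ring
  have h3 : |∑ j ∈ Finset.Icc 1 m, mm j| ≤ C * ((m + 1 : ℕ) : ℝ) ^ (1 - α) *
      (1 + Real.log ((m + 1 : ℕ) : ℝ)) := by
    refine (Finset.abs_sum_le_sum_abs _ _).trans ?_
    have h4 : ∀ j ∈ Finset.Icc 1 m, |mm j| ≤ C * ((m + 1 : ℕ) : ℝ) ^ (1 - α) * ((1:ℝ) / j) := by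
      intro j hj
      obtain ⟨hj1, hj2⟩ := Finset.mem_Icc.1 hj
      have hj0 : (0:ℝ) < j := by exact_mod_cast hj1
      refine (h j hj1).trans ?_
      have e : (j:ℝ) ^ (-α) = (j:ℝ) ^ (1 - α) * (1 / j) := by
        rw [sub_eq_add_neg, Real.rpow_add hj0, Real.rpow_one]
        field_simp
      rw [e, mul_assoc]
      have h5 : (j:ℝ) ^ (1 - α) ≤ ((m + 1 : ℕ) : ℝ) ^ (1 - α) := by
        apply Real.rpow_le_rpow hj0.le _ (by linarith)
        exact_mod_cast (by omega : j ≤ m + 1)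
      gcongr
    refine (Finset.sum_le_sum h4).trans ?_
    rw [← Finset.mul_sum]
    have h6 : ∑ j ∈ Finset.Icc 1 m, (1:ℝ) / j ≤ 1 + Real.log ((m + 1 : ℕ) : ℝ) := by
      refine (harmonic_real_le m).trans ?_
      rcases Nat.eq_zero_or_pos m with rfl | hm
      · simp
      · have : Real.log m ≤ Real.log ((m + 1 : ℕ) : ℝ) := by
          apply Real.log_le_log (by exact_mod_cast hm)
          exact_mod_cast Nat.le_succ m
        linarith
    gcongr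
  refine (abs_sub _ _).trans ?_
  calc _ ≤ C * ((m + 1 : ℕ) : ℝ) ^ (1 - α) + C * ((m + 1 : ℕ) : ℝ) ^ (1 - α) *
      (1 + Real.log ((m + 1 : ℕ) : ℝ)) := by linarith
    _ = _ := by ring

/-- `∑_{k ≤ n} μ(k) ⌊n/k⌋ = 1`. -/
lemma sum_mu_div_of_le (N : ℕ) (n : ℕ) (hn : 1 ≤ n) (hN : n ≤ N) :
    ∑ k ∈ Finset.Icc 1 N, muR k * ((n / k : ℕ) : ℝ) = 1 := by
  have hcc : ∀ m : ℕ, 1 ≤ m → m ≤ N → cc N muR m = if m = 1 then 1 else 0 := by
    intro m hm hmN
    have h1 : cc N muR m = ∑ k ∈ m.divisors, muR k := by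
      unfold cc
      refine Finset.sum_congr rfl fun k hk => ?_
      rw [if_pos]
      exact (Nat.divisor_le hk).trans hmN
    have h2 : ((ArithmeticFunction.moebius * (ArithmeticFunction.zeta : ArithmeticFunction ℤ)) :
        ArithmeticFunction ℤ) m = (1 : ArithmeticFunction ℤ) m := by
      rw [ArithmeticFunction.moebius_mul_coe_zeta]
    rw [ArithmeticFunction.coe_mul_zeta_apply, ArithmeticFunction.one_apply] at h2
    rw [h1]
    unfold muR
    have h3 : ((∑ k ∈ m.divisors, ArithmeticFunction.moebius k : ℤ) : ℝ) =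
        ((if m = 1 then 1 else 0 : ℤ) : ℝ) := by
      rw [h2]
    push_cast at h3
    rw [h3]
  induction n with
  | zero => omega
  | succ n ih =>
    rw [sum_floor_succ, hcc (n + 1) (by omega) hN]
    rcases Nat.eq_zero_or_pos n with rfl | hn0
    · simp
    · rw [ih hn0 (by omega), if_neg (by omega)]
      ring

lemma sum_mu_div_split (N n : ℕ) (hn : 1 ≤ n) (hN : N ≤ n) :
    ∑ k ∈ Finset.Icc 1 N, muR k * ((n / k : ℕ) : ℝ) =
      1 - ∑ k ∈ Finset.Ioc N n, muR k * ((n / k : ℕ) : ℝ) := by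
  have h := sum_mu_div_of_le n n hn le_rfl
  have hd : Finset.Icc 1 n = Finset.Icc 1 N ∪ Finset.Ioc N n := by
    ext k; simp only [Finset.mem_union, Finset.mem_Icc, Finset.mem_Ioc]; omega
  have hdis : Disjoint (Finset.Icc 1 N) (Finset.Ioc N n) := by
    rw [Finset.disjoint_left]
    intro k h1 h2
    simp only [Finset.mem_Icc, Finset.mem_Ioc] at h1 h2
    omega
  rw [hd, Finset.sum_union hdis] at h
  linarith

lemma sum_Ioc_muR (N q : ℕ) (h : N ≤ q) : ∑ k ∈ Finset.Ioc N q, muR k = MM q - MM N := by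
  have hd : Finset.Icc 1 q = Finset.Icc 1 N ∪ Finset.Ioc N q := by
    ext k; simp only [Finset.mem_union, Finset.mem_Icc, Finset.mem_Ioc]; omega
  have hdis : Disjoint (Finset.Icc 1 N) (Finset.Ioc N q) := by
    rw [Finset.disjoint_left]
    intro k h1 h2
    simp only [Finset.mem_Icc, Finset.mem_Ioc] at h1 h2
    omega
  unfold MM
  rw [hd, Finset.sum_union hdis]
  ring

lemma sum_mu_div_swap (N n : ℕ) :
    ∑ k ∈ Finset.Ioc N n, muR k * ((n / k : ℕ) : ℝ) =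
      ∑ j ∈ Finset.Icc 1 n, ∑ k ∈ Finset.Ioc N (n / j), muR k := by
  have h1 : ∀ k ∈ Finset.Ioc N n, muR k * ((n / k : ℕ) : ℝ) =
      ∑ j ∈ Finset.Icc 1 (n / k), muR k := by
    intro k _
    rw [Finset.sum_const, Nat.card_Icc, nsmul_eq_mul]
    simp [mul_comm]
  rw [Finset.sum_congr rfl h1]
  refine Finset.sum_comm' fun k j => ?_
  simp only [Finset.mem_Ioc, Finset.mem_Icc]
  constructor
  · rintro ⟨⟨h2, h3⟩, h4, h5⟩
    have hk : 0 < k := by omega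
    rw [Nat.le_div_iff_mul_le hk] at h5
    refine ⟨⟨h2, ?_⟩, h4, ?_⟩
    · rw [Nat.le_div_iff_mul_le (by omega)]
      linarith [mul_comm j k]
    · exact le_trans (Nat.le_mul_of_pos_right j hk) h5
  · rintro ⟨⟨h2, h3⟩, h4, h5⟩
    have hk : 0 < k := by omega
    rw [Nat.le_div_iff_mul_le (by omega)] at h3
    refine ⟨⟨h2, ?_⟩, h4, ?_⟩
    · exact le_trans (Nat.le_mul_of_pos_right k (by omega)) h3
    · rw [Nat.le_div_iff_mul_le hk]
      linarith [mul_comm j k]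

lemma abs_tail_le {C α : ℝ} (hC : 0 ≤ C) (hα0 : 0 ≤ α) (hα1 : α ≤ 1)
    (h : ∀ n : ℕ, 1 ≤ n → |mm n| ≤ C * (n:ℝ) ^ (-α)) (N n : ℕ) (hN : 1 ≤ N) (hn : 1 ≤ n) :
    |∑ k ∈ Finset.Ioc N n, muR k * ((n / k : ℕ) : ℝ)| ≤
      2 * C * n * (N:ℝ) ^ (-α) * (2 + Real.log n) ^ 2 := by
  rw [sum_mu_div_swap]
  refine (Finset.abs_sum_le_sum_abs _ _).trans ?_
  have hN0 : (0:ℝ) < N := by exact_mod_cast hN
  have hlog : 0 ≤ Real.log n := log_nonneg_nat n
  have h1 : ∀ j ∈ Finset.Icc 1 n, |∑ k ∈ Finset.Ioc N (n / j), muR k| ≤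
      (2 * C * n * (N:ℝ) ^ (-α) * (2 + Real.log n)) * ((1:ℝ) / j) := by
    intro j hj
    obtain ⟨hj1, hj2⟩ := Finset.mem_Icc.1 hj
    have hj0 : (0:ℝ) < j := by exact_mod_cast hj1
    rcases le_or_gt (n / j) N with hq | hq
    · rw [Finset.Ioc_eq_empty (by omega), Finset.sum_empty, abs_zero]
      positivity
    · set q := n / j with hqdef
      have hq1 : 1 ≤ q := by omega
      have hq0 : (0:ℝ) < q := by exact_mod_cast hq1
      have hqn : (q:ℝ) ≤ n * (1 / j) := by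
        rw [mul_one_div, le_div_iff₀ hj0]
        exact_mod_cast Nat.div_mul_le_self n j
      have hqn' : q ≤ n := Nat.div_le_self n j
      have hNq : (N:ℝ) ≤ q := by exact_mod_cast hq.le
      rw [sum_Ioc_muR N q hq.le]
      refine (abs_sub _ _).trans ?_
      have b1 := abs_MM_le hC hα1 h q hq1
      have b2 := abs_MM_le hC hα1 h N hN
      have l1 : Real.log q ≤ Real.log n := Real.log_le_log hq0 (by exact_mod_cast hqn')
      have l2 : Real.log N ≤ Real.log n := Real.log_le_log hN0 (by exact_mod_cast hq.le.trans hqn')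
      have e1 : (q:ℝ) ^ (1 - α) ≤ q * (N:ℝ) ^ (-α) := by
        rw [sub_eq_add_neg, Real.rpow_add hq0, Real.rpow_one]
        have := Real.rpow_le_rpow_of_nonpos hN0 hNq (by linarith : -α ≤ 0)
        gcongr
      have e2 : (N:ℝ) ^ (1 - α) ≤ q * (N:ℝ) ^ (-α) := by
        rw [sub_eq_add_neg, Real.rpow_add hN0, Real.rpow_one]
        gcongr
      have hlq : 0 ≤ 2 + Real.log q := by have := log_nonneg_nat q; linarith
      have hlN : 0 ≤ 2 + Real.log N := by have := log_nonneg_nat N; linarith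
      have c1 : |MM q| ≤ C * (q * (N:ℝ) ^ (-α)) * (2 + Real.log n) := by
        refine b1.trans ?_
        gcongr
      have c2 : |MM N| ≤ C * (q * (N:ℝ) ^ (-α)) * (2 + Real.log n) := by
        refine b2.trans ?_
        gcongr
      calc |MM q| + |MM N| ≤ 2 * C * q * (N:ℝ) ^ (-α) * (2 + Real.log n) := by linarith
        _ ≤ 2 * C * (n * (1 / j)) * (N:ℝ) ^ (-α) * (2 + Real.log n) := by gcongr
        _ = _ := by ring
  refine (Finset.sum_le_sum h1).trans ?_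
  rw [← Finset.mul_sum]
  have h2 := harmonic_real_le n
  have h3 : ∑ j ∈ Finset.Icc 1 n, (1:ℝ) / j ≤ 2 + Real.log n := by linarith
  calc _ ≤ (2 * C * n * (N:ℝ) ^ (-α) * (2 + Real.log n)) * (2 + Real.log n) := by gcongr
    _ = _ := by ring

/-- the coefficients `b k = -μ(k)` -/
noncomputable def bmu (k : ℕ) : ℝ := -muR k

lemma SS_bmu (N : ℕ) : SS N bmu = -mm N := by
  unfold SS mm bmu
  rw [← Finset.sum_neg_distrib]
  exact Finset.sum_congr rfl fun k _ => by ring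

lemma abs_gfun_bmu_le {C α : ℝ} (hC : 0 ≤ C) (hα0 : 0 ≤ α) (hα1 : α ≤ 1)
    (h : ∀ n : ℕ, 1 ≤ n → |mm n| ≤ C * (n:ℝ) ^ (-α)) (N : ℕ) (hN : 1 ≤ N) {x : ℝ} (hx : 1 ≤ x)
    (hxN : x ≤ (N:ℝ) ^ 2) :
    |gfun N bmu x| ≤ (3 * C * (N:ℝ) ^ (-α) * (2 + 2 * Real.log N) ^ 2) * x := by
  have hx0 : 0 ≤ x := by linarith
  have hN0 : (0:ℝ) < N := by exact_mod_cast hN
  have hlN := log_nonneg_nat N
  set n := ⌊x⌋₊ with hn
  have hn1 : 1 ≤ n := (Nat.one_le_floor_iff x).2 hx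
  have hnx : (n:ℝ) ≤ x := Nat.floor_le hx0
  have hn0 : (0:ℝ) < n := by exact_mod_cast hn1
  have hlogn : Real.log n ≤ 2 * Real.log N := by
    rw [show 2 * Real.log N = Real.log ((N:ℝ) ^ 2) by rw [Real.log_pow]; norm_num]
    exact Real.log_le_log hn0 (hnx.trans hxN)
  have hg : gfun N bmu x = 1 + mm N * x - ∑ k ∈ Finset.Icc 1 N, muR k * ((n / k : ℕ) : ℝ) := by
    rw [gfun_eq, SS_bmu]
    have : ∑ k ∈ Finset.Icc 1 N, bmu k * (⌊x / k⌋ : ℝ) =
        - ∑ k ∈ Finset.Icc 1 N, muR k * ((n / k : ℕ) : ℝ) := by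
      rw [← Finset.sum_neg_distrib]
      refine Finset.sum_congr rfl fun k _ => ?_
      rw [floor_div_eq hx0, bmu]
      ring
    rw [this]
    ring
  have hm := h N hN
  have hP : 0 ≤ (N:ℝ) ^ (-α) := Real.rpow_nonneg hN0.le _
  have hG1 : (1:ℝ) ≤ (2 + 2 * Real.log N) ^ 2 := by nlinarith
  have hmx : |mm N * x| ≤ C * (N:ℝ) ^ (-α) * (2 + 2 * Real.log N) ^ 2 * x := by
    rw [abs_mul, abs_of_nonneg hx0]
    have : |mm N| ≤ C * (N:ℝ) ^ (-α) * (2 + 2 * Real.log N) ^ 2 := by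
      refine hm.trans ?_
      have : 0 ≤ C * (N:ℝ) ^ (-α) := by positivity
      nlinarith
    gcongr
  rcases le_or_gt n N with hcase | hcase
  · rw [hg, sum_mu_div_of_le N n hn1 hcase]
    have : 1 + mm N * x - 1 = mm N * x := by ring
    rw [this]
    refine hmx.trans ?_
    have : 0 ≤ C * (N:ℝ) ^ (-α) * (2 + 2 * Real.log N) ^ 2 * x := by positivity
    linarith
  · rw [hg, sum_mu_div_split N n hn1 hcase.le]
    have ht := abs_tail_le hC hα0 hα1 h N n hN hn1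
    have e : 1 + mm N * x - (1 - ∑ k ∈ Finset.Ioc N n, muR k * ((n / k : ℕ) : ℝ)) =
        mm N * x + ∑ k ∈ Finset.Ioc N n, muR k * ((n / k : ℕ) : ℝ) := by ring
    rw [e]
    refine (abs_add_le _ _).trans ?_
    have ht2 : 2 * C * n * (N:ℝ) ^ (-α) * (2 + Real.log n) ^ 2 ≤
        2 * C * x * (N:ℝ) ^ (-α) * (2 + 2 * Real.log N) ^ 2 := by
      have hln : 0 ≤ Real.log n := log_nonneg_nat n
      gcongr
    calc _ ≤ C * (N:ℝ) ^ (-α) * (2 + 2 * Real.log N) ^ 2 * x +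
          2 * C * x * (N:ℝ) ^ (-α) * (2 + 2 * Real.log N) ^ 2 := by linarith
      _ = _ := by ring

lemma nrm_bmu_le {C α : ℝ} (hC : 0 ≤ C) (hα0 : 0 ≤ α) (hα1 : α ≤ 1)
    (h : ∀ n : ℕ, 1 ≤ n → |mm n| ≤ C * (n:ℝ) ^ (-α)) (N : ℕ) (hN : 1 ≤ N) :
    nrm N bmu ≤ (3 * C + 2) * (N:ℝ) ^ (-α) * (2 + 2 * Real.log N) ^ 3 := by
  have hN0 : (0:ℝ) < N := by exact_mod_cast hN
  have hN1 : (1:ℝ) ≤ N := by exact_mod_cast hN
  have hN2 : (1:ℝ) ≤ (N:ℝ) ^ 2 := by nlinarith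
  have hlN := log_nonneg_nat N
  set A := 3 * C * (N:ℝ) ^ (-α) * (2 + 2 * Real.log N) ^ 2 with hA
  have hP : 0 ≤ (N:ℝ) ^ (-α) := Real.rpow_nonneg hN0.le _
  have hA0 : 0 ≤ A := by positivity
  have hsplit : Ioi (1:ℝ) = Ioc 1 ((N:ℝ) ^ 2) ∪ Ioi ((N:ℝ) ^ 2) :=
    (Ioc_union_Ioi_eq_Ioi hN2).symm
  have hint := integrableOn_nrm N bmu
  have h1 : nrm N bmu = (∫ x in Ioc (1:ℝ) ((N:ℝ) ^ 2), |gfun N bmu x| / x ^ 2) +
      ∫ x in Ioi ((N:ℝ) ^ 2), |gfun N bmu x| / x ^ 2 := by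
    unfold nrm
    rw [hsplit, setIntegral_union (Ioc_disjoint_Ioi le_rfl) measurableSet_Ioi
      (hint.mono_set Ioc_subset_Ioi_self) (hint.mono_set (Ioi_subset_Ioi hN2))]
  have h2 : ∫ x in Ioc (1:ℝ) ((N:ℝ) ^ 2), |gfun N bmu x| / x ^ 2 ≤ A * (2 * Real.log N) := by
    have e : ∫ x in Ioc (1:ℝ) ((N:ℝ) ^ 2), A * (1 / x) = A * (2 * Real.log N) := by
      rw [← intervalIntegral.integral_of_le hN2, intervalIntegral.integral_const_mul,
        integral_one_div_of_pos zero_lt_one (by positivity), div_one, Real.log_pow]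
      norm_num
    rw [← e]
    refine setIntegral_mono_on (hint.mono_set Ioc_subset_Ioi_self) ?_ measurableSet_Ioc ?_
    · refine (ContinuousOn.integrableOn_Icc ?_).mono_set Ioc_subset_Icc_self
      intro x hx
      have : x ≠ 0 := by linarith [hx.1]
      exact (continuousAt_const.mul (continuousAt_const.div continuousAt_id this)).continuousWithinAt
    · intro x hx
      have hx0 : 0 < x := by linarith [hx.1]
      have h3 := abs_gfun_bmu_le hC hα0 hα1 h N hN hx.1.le hx.2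
      rw [← hA] at h3
      rw [div_le_iff₀ (by positivity)]
      refine h3.trans (le_of_eq ?_)
      field_simp
  have h3 : ∫ x in Ioi ((N:ℝ) ^ 2), |gfun N bmu x| / x ^ 2 ≤ 2 * (N:ℝ) ^ (-α) := by
    have hb : ∀ x : ℝ, |gfun N bmu x| ≤ 2 * N := by
      intro x
      refine (abs_gfun_le N bmu x).trans ?_
      have : ∑ k ∈ Finset.Icc 1 N, |bmu k| ≤ ∑ k ∈ Finset.Icc 1 N, (1:ℝ) := by
        refine Finset.sum_le_sum fun k _ => ?_
        rw [bmu, abs_neg]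
        exact abs_muR_le k
      rw [Finset.sum_const, Nat.card_Icc, nsmul_eq_mul] at this
      simp only [Nat.add_sub_cancel, mul_one] at this
      linarith
    have hN2' : (0:ℝ) < (N:ℝ) ^ 2 := by positivity
    have e : ∫ x in Ioi ((N:ℝ) ^ 2), (2 * N) * x ^ (-2:ℝ) = 2 / N := by
      rw [integral_const_mul, integral_Ioi_rpow_of_lt (by norm_num) hN2']
      have : ((N:ℝ) ^ 2) ^ (-2 + 1 : ℝ) = ((N:ℝ) ^ 2)⁻¹ := by
        rw [show (-2 + 1 : ℝ) = -1 by norm_num, Real.rpow_neg_one]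
      rw [this]
      field_simp
      norm_num
    have h4 : ∫ x in Ioi ((N:ℝ) ^ 2), |gfun N bmu x| / x ^ 2 ≤ 2 / N := by
      rw [← e]
      refine setIntegral_mono_on (hint.mono_set (Ioi_subset_Ioi hN2)) ?_ measurableSet_Ioi ?_
      · exact (integrableOn_Ioi_rpow_of_lt (by norm_num) hN2').const_mul _
      · intro x hx
        have hx0 : 0 < x := lt_trans hN2' hx
        have e2 : x ^ (-2:ℝ) = (x ^ 2)⁻¹ := by
          rw [Real.rpow_neg hx0.le]; norm_num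
        rw [e2, div_eq_mul_inv]
        gcongr
        exact hb x
    refine h4.trans ?_
    rw [div_eq_mul_inv, ← Real.rpow_neg_one]
    have := Real.rpow_le_rpow_of_exponent_le hN1 (by linarith : (-1:ℝ) ≤ -α)
    linarith
  rw [h1]
  have hG : 2 * Real.log N ≤ 2 + 2 * Real.log N := by linarith
  have hG3 : 1 ≤ (2 + 2 * Real.log N) ^ 3 := by
    have : 1 ≤ 2 + 2 * Real.log N := by linarith
    exact one_le_pow₀ this
  calc _ ≤ A * (2 * Real.log N) + 2 * (N:ℝ) ^ (-α) := add_le_add h2 h3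
    _ ≤ A * (2 + 2 * Real.log N) + 2 * (N:ℝ) ^ (-α) * (2 + 2 * Real.log N) ^ 3 := by
      have : 0 ≤ 2 * (N:ℝ) ^ (-α) := by positivity
      have h5 : A * (2 * Real.log N) ≤ A * (2 + 2 * Real.log N) := by gcongr
      nlinarith
    _ = _ := by rw [hA]; ring

/-- **Upper bound.** If zeta has no zeros with real part `> θ`, then the coefficients `-μ(k)`
give `nrm N = O(N^{-(1-θ)+η})`. -/
theorem upper {θ : ℝ} (hθ : 1 / 2 ≤ θ) (hθ1 : θ < 1)
    (hZ : ∀ s : ℂ, θ < s.re → riemannZeta s ≠ 0) {η : ℝ} (hη : 0 < η) :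
    ∃ C : ℝ, 0 < C ∧ ∀ N : ℕ, 1 ≤ N → nrm N bmu ≤ C * (N:ℝ) ^ (-(1 - θ) + η) := by
  set ε := min (η / 2) (1 - θ) with hε
  have hε0 : 0 < ε := lt_min (by linarith) (by linarith)
  obtain ⟨C, hC⟩ := moebius_logSum_bound hθ hθ1 hZ hε0
  set α := 1 - θ - ε with hα
  have hα0 : 0 ≤ α := by
    have := min_le_right (η / 2) (1 - θ)
    rw [hα]; linarith
  have hα1 : α ≤ 1 := by rw [hα]; linarith
  have hm : ∀ n : ℕ, 1 ≤ n → |mm n| ≤ |C| * (n:ℝ) ^ (-α) := by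
    intro n hn
    rw [← norm_sum_muCoeff]
    refine (hC n hn).trans ?_
    have e : θ - 1 + ε = -α := by rw [hα]; ring
    rw [e]
    gcongr
    exact le_abs_self C
  -- absorb the logarithms
  have hlog : ∃ D : ℝ, 0 < D ∧ ∀ N : ℕ, 1 ≤ N → (2 + 2 * Real.log N) ^ 3 ≤ D * (N:ℝ) ^ (η / 2) := by
    refine ⟨(2 + 12 / η) ^ 3, by positivity, fun N hN => ?_⟩
    have hN0 : (0:ℝ) < N := by exact_mod_cast hN
    have hN1 : (1:ℝ) ≤ N := by exact_mod_cast hN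
    have h1 := Real.log_le_rpow_div hN0.le (show 0 < η / 6 by linarith)
    have h2 : 1 ≤ (N:ℝ) ^ (η / 6) := Real.one_le_rpow hN1 (by linarith)
    have h3 : 2 + 2 * Real.log N ≤ (2 + 12 / η) * (N:ℝ) ^ (η / 6) := by
      have e : (N:ℝ) ^ (η / 6) / (η / 6) = (6 / η) * (N:ℝ) ^ (η / 6) := by field_simp
      rw [e] at h1
      calc 2 + 2 * Real.log N ≤ 2 * (N:ℝ) ^ (η / 6) + 2 * ((6 / η) * (N:ℝ) ^ (η / 6)) := by
            linarith
        _ = _ := by ring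
    have h4 : ((N:ℝ) ^ (η / 6)) ^ 3 = (N:ℝ) ^ (η / 2) := by
      rw [← Real.rpow_natCast, ← Real.rpow_mul hN0.le]
      congr 1
      push_cast
      ring
    have hlN := log_nonneg_nat N
    calc (2 + 2 * Real.log N) ^ 3 ≤ ((2 + 12 / η) * (N:ℝ) ^ (η / 6)) ^ 3 := by gcongr
      _ = _ := by rw [mul_pow, h4]
  obtain ⟨D, hD0, hD⟩ := hlog
  refine ⟨(3 * |C| + 2) * D, by positivity, fun N hN => ?_⟩
  have hN0 : (0:ℝ) < N := by exact_mod_cast hN
  have hN1 : (1:ℝ) ≤ N := by exact_mod_cast hN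
  refine (nrm_bmu_le (abs_nonneg C) hα0 hα1 hm N hN).trans ?_
  have h1 := hD N hN
  calc _ ≤ (3 * |C| + 2) * (N:ℝ) ^ (-α) * (D * (N:ℝ) ^ (η / 2)) := by gcongr
    _ = (3 * |C| + 2) * D * (N:ℝ) ^ (-α + η / 2) := by
      rw [Real.rpow_add hN0]; ring
    _ ≤ (3 * |C| + 2) * D * (N:ℝ) ^ (-(1 - θ) + η) := by
      have h2 : -α + η / 2 ≤ -(1 - θ) + η := by
        have := min_le_left (η / 2) (1 - θ)
        rw [hα]; linarith
      have := Real.rpow_le_rpow_of_exponent_le hN1 h2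
      gcongr

end Pool.Agent.H24.NB
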