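import Pool.Agent.H24.NB.ZetaCrude
import Pool.Agent.H6.LogBound

/-!
# The Riemann zeta function has a zero in the critical strip
-/

namespace Pool.Agent.H24.NB

open Complex Set MeasureTheory Filter Topology Metric Pool.Agent.H6

/-- `s (s - 1) Λ(s)`, an entire function. -/
noncomputable def xi (s : ℂ) : ℂ := s * (s - 1) * completedRiemannZeta₀ s + 1

lemma differentiable_xi : Differentiable ℂ xi := by
  unfold xi
  exact ((differentiable_id.mul (differentiable_id.sub_const 1)).mul
    differentiable_completedZeta₀).add_const 1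

lemma xi_one_sub (s : ℂ) : xi (1 - s) = xi s := by
  unfold xi
  rw [completedRiemannZeta₀_one_sub]
  ring

lemma xi_zero : xi 0 = 1 := by simp [xi]

lemma xi_one : xi 1 = 1 := by simp [xi]

lemma xi_eq {s : ℂ} (h0 : s ≠ 0) (h1 : s ≠ 1) : xi s = s * (s - 1) * completedRiemannZeta s := by
  rw [completedRiemannZeta_eq, xi]
  have h2 : (1 : ℂ) - s ≠ 0 := sub_ne_zero.2 h1.symm
  field_simp
  ring

lemma xi_eq' {s : ℂ} (hs : 1 / 2 ≤ s.re) (h1 : s ≠ 1) :
    xi s = s * zetaPole s * ((Real.pi : ℂ) ^ (-s / 2) * Complex.Gamma (s / 2)) := by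
  have h0 : s ≠ 0 := by rintro rfl; simp at hs; linarith
  have hG : Gammaℝ s ≠ 0 := Gammaℝ_ne_zero_of_re_pos (by linarith)
  rw [xi_eq h0 h1, zetaPole_of_ne h1, riemannZeta_def_of_ne_zero h0]
  rw [show (Real.pi : ℂ) ^ (-s / 2) * Complex.Gamma (s / 2) = Gammaℝ s from rfl]
  field_simp

lemma xi_ne_zero (hz : ∀ s : ℂ, 0 < s.re → s.re < 1 → riemannZeta s ≠ 0) (s : ℂ) : xi s ≠ 0 := by
  have key : ∀ s : ℂ, 1 / 2 ≤ s.re → xi s ≠ 0 := by
    intro s hs
    rcases eq_or_ne s 1 with rfl | h1
    · rw [xi_one]; exact one_ne_zero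
    · have h0 : s ≠ 0 := by rintro rfl; simp at hs; linarith
      rw [xi_eq' hs h1]
      have hG : Gammaℝ s ≠ 0 := Gammaℝ_ne_zero_of_re_pos (by linarith)
      refine mul_ne_zero (mul_ne_zero h0 ?_) hG
      rw [zetaPole_of_ne h1]
      refine mul_ne_zero (sub_ne_zero.2 h1) ?_
      rcases lt_or_ge s.re 1 with h | h
      · exact hz s (by linarith) h
      · exact riemannZeta_ne_zero_of_one_le_re h
  rcases le_total (1 / 2) s.re with h | h
  · exact key s h
  · rw [← xi_one_sub]
    exact key _ (by simp; linarith)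

lemma Gamma_growth : ∃ M : ℝ, 0 ≤ M ∧ ∀ y : ℝ, 1 / 4 ≤ y → Real.Gamma y ≤ M + (y + 1) ^ (y + 1) := by
  have hcont : ContinuousOn Real.Gamma (Icc (1/4) 2) := by
    intro x hx
    have hx0 : 0 < x := by have := hx.1; linarith
    refine (Real.differentiableAt_Gamma fun m hm => ?_).continuousAt.continuousWithinAt
    have : (0:ℝ) ≤ m := Nat.cast_nonneg m
    linarith
  obtain ⟨M, hM⟩ := isCompact_Icc.exists_bound_of_continuousOn hcont
  have hM0 : 0 ≤ M := (norm_nonneg _).trans (hM (1/4) ⟨le_rfl, by norm_num⟩)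
  refine ⟨M, hM0, fun y hy => ?_⟩
  rcases le_or_gt y 2 with h | h
  · have h1 := (le_abs_self _).trans (hM y ⟨hy, h⟩)
    have : 0 ≤ (y + 1) ^ (y + 1) := Real.rpow_nonneg (by linarith) _
    linarith
  · set n := ⌈y⌉₊ with hn
    have hyn : y ≤ n := Nat.le_ceil y
    have hny : (n:ℝ) < y + 1 := Nat.ceil_lt_add_one (by linarith)
    have h1 : Real.Gamma y ≤ Real.Gamma (n + 1) := by
      apply Real.Gamma_strictMonoOn_Ici.monotoneOn
      · exact h.le
      · simp only [mem_Ici]; linarith
      · linarith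
    rw [Real.Gamma_nat_eq_factorial] at h1
    have h2 : (n.factorial : ℝ) ≤ (n:ℝ) ^ n := by exact_mod_cast Nat.factorial_le_pow n
    have h3 : (n:ℝ) ^ n ≤ (y + 1) ^ (y + 1) := by
      rw [← Real.rpow_natCast]
      calc (n:ℝ) ^ (n:ℝ) ≤ (y + 1) ^ (n:ℝ) :=
            Real.rpow_le_rpow (Nat.cast_nonneg n) hny.le (Nat.cast_nonneg n)
        _ ≤ (y + 1) ^ (y + 1) := Real.rpow_le_rpow_of_exponent_le (by linarith) hny.le
    linarith

lemma xi_growth_half : ∃ K : ℝ, 0 < K ∧ ∀ s : ℂ, 1 / 2 ≤ s.re →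
    ‖xi s‖ ≤ Real.exp (K * ((2 + ‖s‖) * Real.sqrt (2 + ‖s‖))) := by
  obtain ⟨M, hM0, hM⟩ := Gamma_growth
  refine ⟨2 * (M + 1) + 5, by positivity, fun s hs => ?_⟩
  set u := 2 + ‖s‖ with hu
  have hu2 : 2 ≤ u := by rw [hu]; linarith [norm_nonneg s]
  have hu0 : 0 < u := by linarith
  have hsq1 : 1 ≤ Real.sqrt u := by
    rw [Real.one_le_sqrt]; linarith
  have huu : u ≤ u * Real.sqrt u := by nlinarith
  have h1u : 1 ≤ u * Real.sqrt u := by linarith
  rcases eq_or_ne s 1 with rfl | h1
  · rw [xi_one, norm_one]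
    apply Real.one_le_exp
    positivity
  rw [xi_eq' hs h1, norm_mul, norm_mul, norm_mul]
  have e1 : ‖s‖ ≤ u := by rw [hu]; linarith
  have e2 : ‖zetaPole s‖ ≤ 2 * u ^ 2 := by
    refine (norm_zetaPole_le hs).trans ?_
    have : 1 + ‖s‖ ≤ u := by rw [hu]; linarith
    have := norm_nonneg s
    gcongr
  have e3 : ‖(Real.pi : ℂ) ^ (-s / 2)‖ ≤ 1 := by
    rw [Complex.norm_cpow_eq_rpow_re_of_pos Real.pi_pos]
    apply Real.rpow_le_one_of_one_le_of_nonpos
    · linarith [Real.pi_gt_three]
    · simp; linarith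
  have e4 : ‖Complex.Gamma (s / 2)‖ ≤ (M + 1) * Real.exp (2 * (u * Real.sqrt u)) := by
    have hre : (s / 2).re = s.re / 2 := by simp
    have hsre : s.re ≤ ‖s‖ := (le_abs_self _).trans (Complex.abs_re_le_norm s)
    refine (norm_Gamma_le (by rw [hre]; linarith)).trans ?_
    refine (hM _ (by rw [hre]; linarith)).trans ?_
    have h5 : (s / 2).re + 1 ≤ u := by rw [hre, hu]; linarith [norm_nonneg s]
    have h6 : 0 ≤ (s / 2).re + 1 := by rw [hre]; linarith
    have h7 : ((s / 2).re + 1) ^ ((s / 2).re + 1) ≤ Real.exp (2 * (u * Real.sqrt u)) := by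
      calc ((s / 2).re + 1) ^ ((s / 2).re + 1) ≤ u ^ ((s / 2).re + 1) :=
            Real.rpow_le_rpow h6 h5 h6
        _ ≤ u ^ u := Real.rpow_le_rpow_of_exponent_le (by linarith) h5
        _ = Real.exp (Real.log u * u) := Real.rpow_def_of_pos hu0 u
        _ ≤ Real.exp (2 * (u * Real.sqrt u)) := by
          apply Real.exp_le_exp.2
          have h8 : Real.log u ≤ 2 * Real.sqrt u := by
            have h9 : Real.log (Real.sqrt u) ≤ Real.sqrt u - 1 :=
              Real.log_le_sub_one_of_pos (by linarith)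
            rw [Real.log_sqrt hu0.le] at h9
            linarith
          nlinarith
    have h8 : 1 ≤ Real.exp (2 * (u * Real.sqrt u)) := Real.one_le_exp (by positivity)
    nlinarith
  have e5 : u ≤ Real.exp u := by
    have := Real.add_one_le_exp u
    linarith
  have e6 : 2 * (M + 1) ≤ Real.exp (2 * (M + 1) * (u * Real.sqrt u)) := by
    have h9 := Real.add_one_le_exp (2 * (M + 1) * (u * Real.sqrt u))
    have : 0 ≤ 2 * (M + 1) := by positivity
    nlinarith
  calc ‖s‖ * ‖zetaPole s‖ * (‖(Real.pi : ℂ) ^ (-s / 2)‖ * ‖Complex.Gamma (s / 2)‖)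
      ≤ u * (2 * u ^ 2) * (1 * ((M + 1) * Real.exp (2 * (u * Real.sqrt u)))) := by gcongr
    _ = 2 * (M + 1) * (u * u * u) * Real.exp (2 * (u * Real.sqrt u)) := by ring
    _ ≤ Real.exp (2 * (M + 1) * (u * Real.sqrt u)) *
        (Real.exp u * Real.exp u * Real.exp u) * Real.exp (2 * (u * Real.sqrt u)) := by gcongr
    _ = Real.exp (2 * (M + 1) * (u * Real.sqrt u) + (u + u + u) + 2 * (u * Real.sqrt u)) := by
      simp only [Real.exp_add]
    _ ≤ Real.exp ((2 * (M + 1) + 5) * (u * Real.sqrt u)) := by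
      apply Real.exp_le_exp.2
      nlinarith

lemma xi_growth : ∃ K : ℝ, 0 < K ∧ ∀ s : ℂ,
    ‖xi s‖ ≤ Real.exp (K * ((3 + ‖s‖) * Real.sqrt (3 + ‖s‖))) := by
  obtain ⟨K, hK, h⟩ := xi_growth_half
  refine ⟨K, hK, fun s => ?_⟩
  have mono : ∀ a b : ℝ, 0 ≤ a → a ≤ b →
      Real.exp (K * (a * Real.sqrt a)) ≤ Real.exp (K * (b * Real.sqrt b)) := by
    intro a b ha hab
    apply Real.exp_le_exp.2
    have := Real.sqrt_le_sqrt hab
    have hb : 0 ≤ b := ha.trans hab
    gcongr
  rcases le_total (1 / 2) s.re with h1 | h1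
  · exact (h s h1).trans (mono _ _ (by positivity) (by linarith))
  · rw [← xi_one_sub]
    refine (h (1 - s) (by simp; linarith)).trans (mono _ _ (by positivity) ?_)
    have := norm_sub_le (1:ℂ) s
    rw [norm_one] at this
    linarith

/-- **The Riemann zeta function has a zero in the critical strip.** -/
theorem exists_zero : ∃ s : ℂ, 0 < s.re ∧ s.re < 1 ∧ riemannZeta s = 0 := by
  by_contra hcon
  push Not at hcon
  have hne := xi_ne_zero hcon
  obtain ⟨K, hK, hgrow⟩ := xi_growth
  set q : ℂ → ℂ := fun z => deriv xi z / xi z with hq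
  have hqd : Differentiable ℂ q := by
    have h1 : Differentiable ℂ (deriv xi) := differentiable_xi.deriv
    exact h1.div differentiable_xi hne
  set MR : ℝ → ℝ := fun R => K * ((3 + R) * Real.sqrt (3 + R)) with hMR
  have hMRpos : ∀ R : ℝ, 0 < R → 0 < MR R := by
    intro R hR
    rw [hMR]
    positivity
  -- bound for q
  have hqb : ∀ R : ℝ, 0 < R → ∀ z : ℂ, ‖z‖ ≤ R / 4 → ‖q z‖ ≤ 8 * MR R / R := by
    intro R hR z hz
    obtain ⟨L, hL0, hLd, hLe⟩ := exists_log_on_ball (c := 0) hR
      differentiable_xi.differentiableOn (fun z _ => hne z)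
    rw [xi_zero, Complex.log_one] at hL0
    have hLdiff : DifferentiableOn ℂ L (ball 0 R) :=
      fun w hw => (hLd w hw).differentiableAt.differentiableWithinAt
    have hmaps : MapsTo L (ball 0 R) {w | w.re ≤ MR R} := by
      intro w hw
      show (L w).re ≤ MR R
      have h1 : Real.exp (L w).re = ‖xi w‖ := by
        rw [← hLe w hw, Complex.norm_exp]
      have hw' : ‖w‖ < R := by simpa using hw
      have h2 : ‖xi w‖ ≤ Real.exp (MR R) := by
        refine (hgrow w).trans ?_
        apply Real.exp_le_exp.2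
        have h4 : 3 + ‖w‖ ≤ 3 + R := by linarith
        have := Real.sqrt_le_sqrt h4
        have := norm_nonneg w
        show K * ((3 + ‖w‖) * √(3 + ‖w‖)) ≤ K * ((3 + R) * Real.sqrt (3 + R))
        gcongr
      rw [← h1] at h2
      exact Real.exp_le_exp.1 h2
    have hLb : ∀ w : ℂ, ‖w‖ ≤ R / 2 → ‖L w‖ ≤ 2 * MR R := by
      intro w hw
      have h1 := Complex.borelCaratheodory_zero (hMRpos R hR) hLdiff hmaps hR
        (z := w) (by simp; linarith) hL0
      refine h1.trans ?_
      have h2 : 0 < R - ‖w‖ := by linarith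
      rw [div_le_iff₀ h2]
      have := hMRpos R hR
      have := norm_nonneg w
      nlinarith
    have hsub : closedBall z (R / 4) ⊆ ball 0 R := by
      intro w hw
      rw [mem_closedBall, dist_eq_norm] at hw
      have := norm_le_norm_add_norm_sub' w z
      simp only [mem_ball_zero_iff]
      linarith
    have hdc : DiffContOnCl ℂ L (ball z (R / 4)) := by
      have : DifferentiableOn ℂ L (closedBall z (R / 4)) := hLdiff.mono hsub
      exact (this.diffContOnCl_ball (subset_refl _))
    have h3 : ∀ w ∈ sphere z (R / 4), ‖L w‖ ≤ 2 * MR R := by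
      intro w hw
      apply hLb
      rw [mem_sphere, dist_eq_norm] at hw
      have := norm_le_norm_add_norm_sub' w z
      linarith
    have h4 := Complex.norm_deriv_le_of_forall_mem_sphere_norm_le (by positivity) hdc h3
    have h5 : deriv L z = q z := (hLd z (by simp; linarith)).deriv
    rw [h5] at h4
    refine h4.trans (le_of_eq ?_)
    field_simp
    ring
  -- derivative of q vanishes
  have hq' : ∀ z, deriv q z = 0 := by
    intro z
    have hb : ∀ᶠ R : ℝ in atTop, ‖deriv q z‖ ≤ 64 * MR R / R ^ 2 := by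
      filter_upwards [eventually_ge_atTop (max 1 (8 * ‖z‖))] with R hR
      have hR1 : 1 ≤ R := (le_max_left _ _).trans hR
      have hR8 : 8 * ‖z‖ ≤ R := (le_max_right _ _).trans hR
      have hR0 : 0 < R := by linarith
      have h3 : ∀ w ∈ sphere z (R / 8), ‖q w‖ ≤ 8 * MR R / R := by
        intro w hw
        apply hqb R hR0
        rw [mem_sphere, dist_eq_norm] at hw
        have := norm_le_norm_add_norm_sub' w z
        linarith
      have h4 := Complex.norm_deriv_le_of_forall_mem_sphere_norm_le (by positivity : 0 < R / 8)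
        (hqd.diffContOnCl) h3
      refine h4.trans (le_of_eq ?_)
      field_simp
      ring
    have hlim : Tendsto (fun R : ℝ => 64 * MR R / R ^ 2) atTop (𝓝 0) := by
      have h1 : Tendsto (fun R : ℝ => 64 * K * 8 * (R ^ (-(1/2) : ℝ))) atTop (𝓝 0) := by
        have := (tendsto_rpow_neg_atTop (show (0:ℝ) < 1/2 by norm_num)).const_mul (64 * K * 8)
        simpa using this
      refine squeeze_zero' ?_ ?_ h1
      · filter_upwards [eventually_ge_atTop 1] with R hR
        have := hMRpos R (by linarith)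
        positivity
      · filter_upwards [eventually_ge_atTop 3] with R hR
        have hR0 : 0 < R := by linarith
        have h5 : 3 + R ≤ 2 * R := by linarith
        have h6 : Real.sqrt (3 + R) ≤ 2 * Real.sqrt R := by
          rw [show (2:ℝ) * Real.sqrt R = Real.sqrt (4 * R) by
            rw [Real.sqrt_mul (by norm_num), show (4:ℝ) = 2 ^ 2 by norm_num,
              Real.sqrt_sq (by norm_num)]]
          apply Real.sqrt_le_sqrt
          linarith
        have h7 : MR R ≤ K * ((2 * R) * (2 * Real.sqrt R)) := by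
          show K * ((3 + R) * Real.sqrt (3 + R)) ≤ K * ((2 * R) * (2 * Real.sqrt R))
          gcongr
        have h8 : Real.sqrt R = R ^ ((1:ℝ) / 2) := Real.sqrt_eq_rpow R
        have h9 : R ^ (-(1/2) : ℝ) * R = R ^ ((1:ℝ)/2) := by
          nth_rewrite 2 [← Real.rpow_one R]
          rw [← Real.rpow_add hR0]
          norm_num
        rw [div_le_iff₀ (by positivity)]
        calc 64 * MR R ≤ 64 * (K * ((2 * R) * (2 * Real.sqrt R))) := by gcongr
          _ = 64 * K * 4 * (R ^ (-(1/2) : ℝ) * R) * R := by rw [h8, ← h9]; ring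
          _ ≤ 64 * K * 8 * R ^ (-(1/2) : ℝ) * R ^ 2 := by
            have : 0 ≤ K * R ^ (-(1/2) : ℝ) * R ^ 2 := by positivity
            nlinarith
    have h10 : ‖deriv q z‖ ≤ 0 := ge_of_tendsto hlim hb
    simpa using h10
  have hqc : ∀ z, q z = q 0 := fun z => is_const_of_deriv_eq_zero hqd hq' z 0
  set b := q 0 with hb
  -- xi z = exp (b z)
  have hxi : ∀ z, xi z = cexp (b * z) := by
    have hg : Differentiable ℂ fun z => xi z * cexp (-(b * z)) :=
      differentiable_xi.mul ((differentiable_id.const_mul b).neg.cexp)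
    have hg' : ∀ z, deriv (fun z => xi z * cexp (-(b * z))) z = 0 := by
      intro z
      have h1 : HasDerivAt xi (deriv xi z) z := (differentiable_xi z).hasDerivAt
      have h2 : HasDerivAt (fun z : ℂ => cexp (-(b * z))) (cexp (-(b * z)) * (-(b * 1))) z :=
        (((hasDerivAt_id z).const_mul b).neg).cexp
      have h3 : deriv xi z = b * xi z := by
        have h4 : deriv xi z / xi z = b := hqc z
        rwa [div_eq_iff (hne z)] at h4
      have h5 := (h1.mul h2).deriv
      have h6 : deriv (fun z => xi z * cexp (-(b * z))) z =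
          deriv xi z * cexp (-(b * z)) + xi z * (cexp (-(b * z)) * (-(b * 1))) := h5
      rw [h6, h3]
      ring
    intro z
    have h7 := is_const_of_deriv_eq_zero hg hg' z 0
    simp only [xi_zero, mul_zero, neg_zero, Complex.exp_zero, mul_one] at h7
    rw [Complex.exp_neg] at h7
    field_simp at h7
    exact h7
  have hb0 : b = 0 := by
    by_contra hb0
    have h1 : cexp b = 1 := by
      have := hxi 1
      rw [xi_one, mul_one] at this
      exact this.symm
    have h2 : ∀ z, cexp (2 * (b * z)) = 1 := by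
      intro z
      have h3 := xi_one_sub z
      rw [hxi, hxi] at h3
      have h4 : cexp (b * (1 - z)) = cexp b * cexp (-(b * z)) := by
        rw [← Complex.exp_add]; ring_nf
      rw [h4, h1, one_mul, Complex.exp_neg] at h3
      rw [two_mul, Complex.exp_add]
      have h5 := Complex.exp_ne_zero (b * z)
      nth_rewrite 1 [← h3]
      field_simp
    have h3 := h2 (1 / (2 * b))
    have h4 : 2 * (b * (1 / (2 * b))) = 1 := by field_simp
    rw [h4] at h3
    have h5 : (Real.exp 1 : ℂ) = 1 := by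
      push_cast
      exact h3
    have h6 : Real.exp 1 = 1 := by exact_mod_cast h5
    have h7 := Real.exp_one_gt_d9
    rw [h6] at h7
    norm_num at h7
  have h2 := hxi 2
  rw [hb0, zero_mul, Complex.exp_zero, xi_eq' (by simp; norm_num) (by norm_num),
    zetaPole_of_ne (by norm_num), riemannZeta_two] at h2
  have h3 : (-2 / 2 : ℂ) = -1 := by norm_num
  have h4 : (2 / 2 : ℂ) = 1 := by norm_num
  rw [h3, h4, Complex.Gamma_one, Complex.cpow_neg_one] at h2
  have hpi : (Real.pi : ℂ) ≠ 0 := by exact_mod_cast Real.pi_ne_zero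
  have h5 : (Real.pi : ℂ) / 3 = 1 := by
    rw [← h2]
    field_simp
    ring
  have h6 : Real.pi / 3 = 1 := by exact_mod_cast h5
  linarith [Real.pi_gt_three]

end Pool.Agent.H24.NB
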