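import Pool.Agent.H24.NB.Lower
import Pool.Agent.H24.NB.Upper
import Pool.Agent.H24.NB.ZeroExists

/-!
# Assembly: the exact exponent
-/

namespace Pool.Agent.H24.NB

open Complex Set MeasureTheory Filter Topology

/-- Change of variables `x ↦ 1/x`. -/
lemma integral_eq_nrm (N : ℕ) (b : ℕ → ℝ) :
    ∫ x in (0:ℝ)..1, |1 - ∑ k ∈ Finset.Icc 1 N, b k * Int.fract (1 / (k * x))| = nrm N b := by
  rw [intervalIntegral.integral_of_le zero_le_one, integral_Ioc_eq_integral_Ioo]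
  have himg : (fun x : ℝ => x⁻¹) '' Ioi 1 = Ioo 0 1 := by
    ext y
    simp only [mem_image, mem_Ioi, mem_Ioo]
    constructor
    · rintro ⟨x, hx, rfl⟩
      exact ⟨by positivity, inv_lt_one_of_one_lt₀ hx⟩
    · rintro ⟨h0, h1⟩
      exact ⟨y⁻¹, (one_lt_inv₀ h0).2 h1, inv_inv y⟩
  rw [← himg, integral_image_eq_integral_abs_deriv_smul (f' := fun x => -(x ^ 2)⁻¹)
    measurableSet_Ioi]
  · unfold nrm
    refine setIntegral_congr_fun measurableSet_Ioi fun x hx => ?_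
    have hx0 : (0:ℝ) < x := lt_trans zero_lt_one hx
    simp only [smul_eq_mul]
    rw [abs_neg, abs_of_pos (by positivity), div_eq_mul_inv, mul_comm]
    congr 2
    unfold gfun
    congr 1
    refine Finset.sum_congr rfl fun k _ => ?_
    congr 2
    rw [one_div, mul_inv, inv_inv, div_eq_mul_inv, mul_comm]
  · intro x hx
    have hx0 : (0:ℝ) < x := lt_trans zero_lt_one hx
    exact (hasDerivAt_inv hx0.ne').hasDerivWithinAt
  · intro x _ y _ h
    exact inv_injective h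

/-- For every `b`, `∫_n^{n+1} |g| / x²`, when `∑ b k / k = 0`. -/
lemma nrm_eq_tsum (N : ℕ) (b : ℕ → ℝ) (hS : SS N b = 0) :
    nrm N b = ∑' n : ℕ, |1 + ∑ k ∈ Finset.Icc 1 N, b k * (((n + 1) / k : ℕ) : ℝ)| /
      ((n + 1) * (n + 2)) := by
  have hU : Ioi (1:ℝ) = ⋃ n : ℕ, Ico ((n:ℝ) + 1) (n + 2) \ {1} := by
    ext x
    simp only [mem_Ioi, mem_iUnion, Set.mem_sdiff, mem_Ico, mem_singleton_iff]
    constructor
    · intro hx
      refine ⟨⌊x⌋₊ - 1, ⟨?_, ?_⟩, hx.ne'⟩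
      · have h1 : 1 ≤ ⌊x⌋₊ := (Nat.one_le_floor_iff x).2 hx.le
        have h2 := Nat.floor_le (show 0 ≤ x by linarith)
        push_cast [h1]
        linarith
      · have h1 : 1 ≤ ⌊x⌋₊ := (Nat.one_le_floor_iff x).2 hx.le
        have h2 := Nat.lt_floor_add_one x
        push_cast [h1]
        linarith
    · rintro ⟨n, ⟨h1, _⟩, h3⟩
      have : (0:ℝ) ≤ n := Nat.cast_nonneg n
      rcases lt_or_eq_of_le (show 1 ≤ x by linarith) with h | h
      · exact h
      · exact absurd h.symm h3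
  have hm : ∀ n : ℕ, MeasurableSet (Ico ((n:ℝ) + 1) (n + 2) \ {1}) := fun n =>
    measurableSet_Ico.diff (measurableSet_singleton _)
  have hd : Pairwise (Function.onFun Disjoint fun n : ℕ => Ico ((n:ℝ) + 1) (n + 2) \ {(1:ℝ)}) := by
    intro m n hmn
    rw [Function.onFun, Set.disjoint_left]
    rintro x ⟨⟨h1, h2⟩, _⟩ ⟨⟨h3, h4⟩, _⟩
    apply hmn
    have h5 : (m:ℝ) < n + 1 := by linarith
    have h6 : (n:ℝ) < m + 1 := by linarith
    have h7 : m < n + 1 := by exact_mod_cast h5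
    have h8 : n < m + 1 := by exact_mod_cast h6
    omega
  have hint : IntegrableOn (fun x : ℝ => |gfun N b x| / x ^ 2)
      (⋃ n : ℕ, Ico ((n:ℝ) + 1) (n + 2) \ {1}) := by
    rw [← hU]; exact integrableOn_nrm N b
  unfold nrm
  rw [hU, integral_iUnion hm hd hint]
  refine tsum_congr fun n => ?_
  have hn0 : (0:ℝ) ≤ n := Nat.cast_nonneg n
  have e1 : ∫ x in Ico ((n:ℝ) + 1) (n + 2) \ {1}, |gfun N b x| / x ^ 2 =
      ∫ x in Ico ((n:ℝ) + 1) (n + 2), |gfun N b x| / x ^ 2 := by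
    refine setIntegral_congr_set ?_
    exact sdiff_null_ae_eq_self (by simp)
  have e2 : ∫ x in Ico ((n:ℝ) + 1) (n + 2), |gfun N b x| / x ^ 2 =
      ∫ x in Ico ((n:ℝ) + 1) (n + 2),
        |1 + ∑ k ∈ Finset.Icc 1 N, b k * (((n + 1) / k : ℕ) : ℝ)| * (x ^ 2)⁻¹ := by
    refine setIntegral_congr_fun measurableSet_Ico fun x hx => ?_
    have hx0 : 0 ≤ x := by linarith [hx.1]
    have hfl : ⌊x⌋₊ = n + 1 := by
      rw [Nat.floor_eq_iff hx0]
      push_cast
      exact ⟨hx.1, by linarith [hx.2]⟩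
    simp only [div_eq_mul_inv]
    congr 2
    rw [gfun_eq, hS, zero_mul, sub_zero]
    congr 1
    refine Finset.sum_congr rfl fun k _ => ?_
    rw [floor_div_eq hx0, hfl]
  rw [e1, e2, integral_const_mul, integral_Ico_eq_integral_Ioo, ← integral_Ioc_eq_integral_Ioo,
    ← intervalIntegral.integral_of_le (by linarith)]
  have e3 : ∫ x in ((n:ℝ) + 1)..(n + 2), (x ^ 2)⁻¹ = 1 / ((n + 1) * (n + 2)) := by
    have hderiv : ∀ x ∈ uIcc ((n:ℝ) + 1) (n + 2), HasDerivAt (fun x : ℝ => -x⁻¹) ((x ^ 2)⁻¹) x := by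
      intro x hx
      rw [uIcc_of_le (by linarith)] at hx
      have hx0 : x ≠ 0 := by linarith [hx.1]
      have h := (hasDerivAt_inv hx0).neg
      rw [neg_neg] at h
      exact h
    rw [intervalIntegral.integral_eq_sub_of_hasDerivAt hderiv]
    · field_simp
      ring
    · apply ContinuousOn.intervalIntegrable
      intro x hx
      rw [uIcc_of_le (by linarith)] at hx
      have hx0 : x ≠ 0 := by linarith [hx.1]
      exact ((continuousAt_id.pow 2).inv₀ (by simpa using hx0)).continuousWithinAt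
  rw [e3]
  ring

/-- Correction of `b 1` to make `∑ b k / k = 0`. -/
noncomputable def bfix (N : ℕ) (b : ℕ → ℝ) (k : ℕ) : ℝ := if k = 1 then b 1 - SS N b else b k

lemma sum_bfix (N : ℕ) (hN : 1 ≤ N) (b : ℕ → ℝ) (f : ℕ → ℝ) :
    ∑ k ∈ Finset.Icc 1 N, bfix N b k * f k = ∑ k ∈ Finset.Icc 1 N, b k * f k - SS N b * f 1 := by
  have h1 : ∀ k ∈ Finset.Icc 1 N, bfix N b k * f k =
      b k * f k - (if k = 1 then SS N b * f 1 else 0) := by
    intro k _
    unfold bfix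
    split_ifs with h
    · subst h; ring
    · ring
  rw [Finset.sum_congr rfl h1, Finset.sum_sub_distrib, Finset.sum_ite_eq']
  rw [if_pos (Finset.mem_Icc.2 ⟨le_rfl, hN⟩)]

lemma SS_bfix (N : ℕ) (hN : 1 ≤ N) (b : ℕ → ℝ) : SS N (bfix N b) = 0 := by
  have h := sum_bfix N hN b (fun k => (k:ℝ)⁻¹)
  unfold SS at *
  simp only [div_eq_mul_inv] at *
  rw [h]
  simp

lemma nrm_bfix_le (N : ℕ) (hN : 1 ≤ N) (b : ℕ → ℝ) : nrm N (bfix N b) ≤ 25 * nrm N b := by
  have h1 : ∀ x, gfun N (bfix N b) x = gfun N b x + SS N b * Int.fract x := by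
    intro x
    unfold gfun
    rw [sum_bfix N hN b (fun k => Int.fract (x / k))]
    simp
    ring
  have hf : IntegrableOn (fun x : ℝ => |SS N b| * (1 / x ^ 2)) (Ioi 1) :=
    integrableOn_inv_sq.const_mul _
  have h2 : nrm N (bfix N b) ≤ ∫ x in Ioi (1:ℝ), (|gfun N b x| / x ^ 2 + |SS N b| * (1 / x ^ 2)) := by
    unfold nrm
    refine setIntegral_mono_on (integrableOn_nrm N _) ((integrableOn_nrm N b).add hf)
      measurableSet_Ioi fun x hx => ?_
    rw [h1, ← mul_one_div (|gfun N b x|), ← add_mul, ← mul_one_div]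
    refine mul_le_mul_of_nonneg_right ?_ (by positivity)
    refine (abs_add_le _ _).trans ?_
    rw [abs_mul, abs_of_nonneg (Int.fract_nonneg x)]
    have := (Int.fract_lt_one x).le
    have h3 := abs_nonneg (SS N b)
    nlinarith
  rw [integral_add (integrableOn_nrm N b) hf, integral_const_mul] at h2
  have h3 : ∫ x in Ioi (1:ℝ), 1 / x ^ 2 = 1 := by
    have e : ∫ x in Ioi (1:ℝ), 1 / x ^ 2 = ∫ x in Ioi (1:ℝ), x ^ (-2:ℝ) := by
      refine setIntegral_congr_fun measurableSet_Ioi fun x hx => ?_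
      have hx0 : (0:ℝ) < x := lt_trans zero_lt_one hx
      rw [Real.rpow_neg hx0.le]
      norm_num
    rw [e, integral_Ioi_rpow_of_lt (by norm_num) zero_lt_one]
    norm_num
  rw [h3, mul_one] at h2
  have h4 := abs_SS_le N b
  unfold nrm at *
  linarith

/-- supremum of the real parts of the zeros of zeta with positive real part -/
noncomputable def zetaSup : ℝ :=
  sSup {σ : ℝ | ∃ s : ℂ, riemannZeta s = 0 ∧ 0 < s.re ∧ s.re = σ}

lemma re_lt_one_of_zero {s : ℂ} (hs : riemannZeta s = 0) : s.re < 1 := by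
  by_contra h
  exact riemannZeta_ne_zero_of_one_le_re (not_lt.1 h) hs

lemma zetaSup_bddAbove : BddAbove {σ : ℝ | ∃ s : ℂ, riemannZeta s = 0 ∧ 0 < s.re ∧ s.re = σ} := by
  refine ⟨1, ?_⟩
  rintro _ ⟨s, hs, _, rfl⟩
  exact (re_lt_one_of_zero hs).le

lemma exists_zero_half : ∃ s : ℂ, riemannZeta s = 0 ∧ 1 / 2 ≤ s.re ∧ s.re < 1 := by
  obtain ⟨s, h0, h1, hs⟩ := exists_zero
  rcases le_total (1 / 2) s.re with h | h
  · exact ⟨s, hs, h, h1⟩
  · refine ⟨1 - s, ?_, by simp; linarith, by simp; linarith⟩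
    have h2 : ∀ n : ℕ, s ≠ -n := by
      intro n hn
      rw [hn] at h0
      simp at h0
      have : (0:ℝ) ≤ n := Nat.cast_nonneg n
      linarith
    have h3 : s ≠ 1 := by rintro rfl; simp at h1
    rw [riemannZeta_one_sub h2 h3, hs, mul_zero]

lemma half_le_zetaSup : 1 / 2 ≤ zetaSup := by
  obtain ⟨s, hs, h1, _⟩ := exists_zero_half
  exact h1.trans (le_csSup zetaSup_bddAbove ⟨s, hs, by linarith, rfl⟩)

lemma zetaSup_le_one : zetaSup ≤ 1 := by
  obtain ⟨s, hs, h1, _⟩ := exists_zero_half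
  refine csSup_le ⟨s.re, s, hs, by linarith, rfl⟩ ?_
  rintro _ ⟨s, hs, _, rfl⟩
  exact (re_lt_one_of_zero hs).le

lemma zeta_ne_zero_of_gt {s : ℂ} (h : zetaSup < s.re) : riemannZeta s ≠ 0 := by
  intro hs
  have h1 := half_le_zetaSup
  have := le_csSup zetaSup_bddAbove ⟨s, hs, by linarith, rfl⟩
  unfold zetaSup at h
  linarith

lemma exists_zero_near {ε : ℝ} (hε : 0 < ε) :
    ∃ s : ℂ, riemannZeta s = 0 ∧ 0 < s.re ∧ s.re < 1 ∧ zetaSup - ε < s.re := by
  obtain ⟨s₀, hs₀, h1, _⟩ := exists_zero_half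
  have hne : {σ : ℝ | ∃ s : ℂ, riemannZeta s = 0 ∧ 0 < s.re ∧ s.re = σ}.Nonempty :=
    ⟨s₀.re, s₀, hs₀, by linarith, rfl⟩
  obtain ⟨_, ⟨s, hs, h0, rfl⟩, h3⟩ := exists_lt_of_lt_csSup hne
    (show zetaSup - ε < sSup _ by unfold zetaSup; linarith)
  exact ⟨s, hs, h0, re_lt_one_of_zero hs, h3⟩

/-- Abstract form: a sequence squeezed by the two bounds has exponent `1 - zetaSup`. -/
lemma tendsto_exponent (d : ℕ → ℝ)
    (hlow : ∀ ρ : ℂ, riemannZeta ρ = 0 → 0 < ρ.re → ρ.re < 1 → ∀ η > 0, ∃ c > 0, ∀ N : ℕ, 1 ≤ N →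
      c * (N:ℝ) ^ (-((1 - ρ.re) * (1 + η))) ≤ d N)
    (hup : ∀ θ : ℝ, 1 / 2 ≤ θ → θ < 1 → (∀ s : ℂ, θ < s.re → riemannZeta s ≠ 0) → ∀ η > 0,
      ∃ C > 0, ∀ N : ℕ, 1 ≤ N → d N ≤ C * (N:ℝ) ^ (-(1 - θ) + η))
    (htriv : ∀ N, 1 ≤ N → d N ≤ 1) :
    Tendsto (fun N : ℕ => Real.log (1 / d N) / Real.log N) atTop (𝓝 (1 - zetaSup)) := by
  have hlogtop : Tendsto (fun N : ℕ => Real.log N) atTop atTop :=
    Real.tendsto_log_atTop.comp tendsto_natCast_atTop_atTop
  have hsmall : ∀ A : ℝ, ∀ ε > 0, ∀ᶠ N : ℕ in atTop, |A| / Real.log N < ε := by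
    intro A ε hε
    have h1 : Tendsto (fun N : ℕ => |A| / Real.log N) atTop (𝓝 0) :=
      hlogtop.const_div_atTop _
    exact h1.eventually (gt_mem_nhds hε)
  have hdpos : ∀ N, 1 ≤ N → 0 < d N := by
    intro N hN
    obtain ⟨ρ, h1, h2, h3, _⟩ := exists_zero_near zero_lt_one
    obtain ⟨c, hc, h⟩ := hlow ρ h1 h2 h3 1 one_pos
    have hN0 : (0:ℝ) < N := by exact_mod_cast hN
    exact lt_of_lt_of_le (by positivity) (h N hN)
  rw [Metric.tendsto_atTop']
  intro ε hε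
  have hΘ1 := zetaSup_le_one
  have hΘ2 := half_le_zetaSup
  -- upper estimate for the exponent
  have hU : ∀ᶠ N : ℕ in atTop, Real.log (1 / d N) / Real.log N < 1 - zetaSup + ε := by
    obtain ⟨ρ, h1, h2, h3, h4⟩ := exists_zero_near (show 0 < ε / 4 by linarith)
    obtain ⟨c, hc, h⟩ := hlow ρ h1 h2 h3 (ε / 4) (by linarith)
    filter_upwards [hsmall (Real.log c) (ε / 4) (by linarith), eventually_ge_atTop 2] with N h5 h6
    have hN1 : (1:ℝ) < N := by exact_mod_cast (by omega : 1 < N)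
    have hN0 : (0:ℝ) < N := by linarith
    have hlN : 0 < Real.log N := Real.log_pos hN1
    have h7 := h N (by omega)
    have h8 : Real.log (c * (N:ℝ) ^ (-((1 - ρ.re) * (1 + ε / 4)))) ≤ Real.log (d N) :=
      Real.log_le_log (by positivity) h7
    rw [Real.log_mul hc.ne' (by positivity), Real.log_rpow hN0] at h8
    rw [one_div, Real.log_inv, div_lt_iff₀ hlN]
    rw [div_lt_iff₀ hlN] at h5
    have h9 := neg_abs_le (Real.log c)
    have h10 : (1 - ρ.re) * (1 + ε / 4) ≤ 1 - zetaSup + ε / 4 + ε / 4 := by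
      have : (1 - ρ.re) ≤ 1 := by linarith
      nlinarith
    nlinarith
  -- lower estimate for the exponent
  have hL : ∀ᶠ N : ℕ in atTop, 1 - zetaSup - ε < Real.log (1 / d N) / Real.log N := by
    rcases eq_or_lt_of_le hΘ1 with hΘ | hΘ
    · filter_upwards [eventually_ge_atTop 2] with N h6
      have hN1 : (1:ℝ) < N := by exact_mod_cast (by omega : 1 < N)
      have hlN : 0 < Real.log N := Real.log_pos hN1
      have h7 := htriv N (by omega)
      have h8 := hdpos N (by omega)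
      have h9 : 0 ≤ Real.log (1 / d N) := by
        rw [one_div, Real.log_inv]
        have := Real.log_nonpos h8.le h7
        linarith
      have h10 : 0 ≤ Real.log (1 / d N) / Real.log N := by positivity
      rw [hΘ]
      linarith
    · obtain ⟨C, hC, h⟩ := hup zetaSup hΘ2 hΘ (fun s hs => zeta_ne_zero_of_gt hs) (ε / 4)
        (by linarith)
      filter_upwards [hsmall (Real.log C) (ε / 4) (by linarith), eventually_ge_atTop 2] with N h5 h6
      have hN1 : (1:ℝ) < N := by exact_mod_cast (by omega : 1 < N)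
      have hN0 : (0:ℝ) < N := by linarith
      have hlN : 0 < Real.log N := Real.log_pos hN1
      have h7 := h N (by omega)
      have h8 : Real.log (d N) ≤ Real.log (C * (N:ℝ) ^ (-(1 - zetaSup) + ε / 4)) :=
        Real.log_le_log (hdpos N (by omega)) h7
      rw [Real.log_mul hC.ne' (by positivity), Real.log_rpow hN0] at h8
      rw [one_div, Real.log_inv, lt_div_iff₀ hlN]
      rw [div_lt_iff₀ hlN] at h5
      have h9 := le_abs_self (Real.log C)
      nlinarith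
  obtain ⟨N0, hN0⟩ := eventually_atTop.1 (hU.and hL)
  refine ⟨N0, fun N hN => ?_⟩
  obtain ⟨h1, h2⟩ := hN0 N hN.le
  rw [Real.dist_eq, abs_lt]
  constructor <;> linarith

/-- Abstract form of the criterion for a zero-free half-plane. -/
lemma qrh_iff (d : ℕ → ℝ)
    (hlow : ∀ ρ : ℂ, riemannZeta ρ = 0 → 0 < ρ.re → ρ.re < 1 → ∀ η > 0, ∃ c > 0, ∀ N : ℕ, 1 ≤ N →
      c * (N:ℝ) ^ (-((1 - ρ.re) * (1 + η))) ≤ d N)
    (hup : ∀ θ : ℝ, 1 / 2 ≤ θ → θ < 1 → (∀ s : ℂ, θ < s.re → riemannZeta s ≠ 0) → ∀ η > 0,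
      ∃ C > 0, ∀ N : ℕ, 1 ≤ N → d N ≤ C * (N:ℝ) ^ (-(1 - θ) + η)) :
    List.TFAE [
      ∃ σ₀ : ℝ, 1 / 2 < σ₀ ∧ σ₀ < 1 ∧ ∀ s : ℂ, σ₀ ≤ s.re → riemannZeta s ≠ 0,
      ∃ δ : ℝ, 0 < δ ∧ ∃ C : ℝ, ∀ N : ℕ, 1 ≤ N → d N ≤ C * (N:ℝ) ^ (-δ),
      ∃ δ : ℝ, 0 < δ ∧ ∃ᶠ N : ℕ in atTop, d N ≤ (N:ℝ) ^ (-δ)] := by
  tfae_have 1 → 2 := by
    rintro ⟨σ₀, h1, h2, h3⟩
    obtain ⟨C, hC, h⟩ := hup σ₀ h1.le h2 (fun s hs => h3 s hs.le) ((1 - σ₀) / 2) (by linarith)
    refine ⟨(1 - σ₀) / 2, by linarith, C, fun N hN => ?_⟩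
    have := h N hN
    have e : -(1 - σ₀) + (1 - σ₀) / 2 = -((1 - σ₀) / 2) := by ring
    rwa [e] at this
  tfae_have 2 → 3 := by
    rintro ⟨δ, hδ, C, h⟩
    refine ⟨δ / 2, by linarith, ?_⟩
    apply Eventually.frequently
    have h1 : Tendsto (fun N : ℕ => (N:ℝ) ^ (δ / 2)) atTop atTop :=
      (tendsto_rpow_atTop (by linarith)).comp tendsto_natCast_atTop_atTop
    filter_upwards [h1.eventually_ge_atTop C, eventually_ge_atTop 1] with N h2 h3
    have hN0 : (0:ℝ) < N := by exact_mod_cast h3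
    refine (h N h3).trans ?_
    calc C * (N:ℝ) ^ (-δ) ≤ (N:ℝ) ^ (δ / 2) * (N:ℝ) ^ (-δ) := by gcongr
      _ = (N:ℝ) ^ (-(δ / 2)) := by
        rw [← Real.rpow_add hN0]; congr 1; ring
  tfae_have 3 → 1 := by
    rintro ⟨δ, hδ, h⟩
    refine ⟨max (3 / 4) (1 - δ / 3), lt_of_lt_of_le (by norm_num) (le_max_left _ _),
      max_lt (by norm_num) (by linarith), fun s hs hzero => ?_⟩
    have hs1 := re_lt_one_of_zero hzero
    have h34 : 3 / 4 ≤ s.re := (le_max_left _ _).trans hs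
    have hδs : 1 - δ / 3 ≤ s.re := (le_max_right _ _).trans hs
    obtain ⟨c, hc, hl⟩ := hlow s hzero (by linarith) hs1 (1 / 2) (by norm_num)
    have h1 : Tendsto (fun N : ℕ => (N:ℝ) ^ (δ / 2)) atTop atTop :=
      (tendsto_rpow_atTop (by linarith)).comp tendsto_natCast_atTop_atTop
    have h2 : ∀ᶠ N : ℕ in atTop, ¬ d N ≤ (N:ℝ) ^ (-δ) := by
      filter_upwards [h1.eventually_gt_atTop (1 / c), eventually_ge_atTop 1] with N h3 h4
      have hN0 : (0:ℝ) < N := by exact_mod_cast h4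
      have hN1 : (1:ℝ) ≤ N := by exact_mod_cast h4
      rw [not_le]
      refine lt_of_lt_of_le ?_ (hl N h4)
      have h5 : (N:ℝ) ^ (-(δ / 2)) ≤ (N:ℝ) ^ (-((1 - s.re) * (1 + 1 / 2))) := by
        apply Real.rpow_le_rpow_of_exponent_le hN1
        linarith
      have h6 : (N:ℝ) ^ (-δ) < c * (N:ℝ) ^ (-(δ / 2)) := by
        have e : (N:ℝ) ^ (-δ) = (N:ℝ) ^ (-(δ / 2)) * ((N:ℝ) ^ (δ / 2))⁻¹ := by
          rw [← Real.rpow_neg hN0.le, ← Real.rpow_add hN0]; congr 1; ring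
        rw [e, mul_comm c]
        have hp : 0 < (N:ℝ) ^ (-(δ / 2)) := by positivity
        refine mul_lt_mul_of_pos_left ?_ hp
        rw [inv_lt_comm₀ (by positivity) hc, ← one_div]
        exact h3
      refine h6.trans_le ?_
      gcongr
    exact h (h2.mono fun N hN => hN)
  tfae_finish

end Pool.Agent.H24.NB
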