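import Pool.Agent.H24.NB.Final

/-!
# The lower bound for arbitrary dilations `θ ∈ [λ, 1]`

For a finite set `J ⊆ [λ, 1]` and real coefficients `b θ` we bound from below
`∫_1^∞ |1 - ∑ b θ {θ x}| dx / x²`, which is the `L¹(0,1)` distance of `1` to the Beurling function
`x ↦ ∑ b θ {θ / x}`.
-/

namespace Pool.Agent.H24.NB

open Complex Set MeasureTheory Filter Topology Pool.Agent.H6

/-- `1 - ∑_{θ ∈ J} b θ {θ x}`. -/
noncomputable def gG (J : Finset ℝ) (b : ℝ → ℝ) (x : ℝ) : ℝ :=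
  1 - ∑ θ ∈ J, b θ * Int.fract (θ * x)

noncomputable def nrmG (J : Finset ℝ) (b : ℝ → ℝ) : ℝ := ∫ x in Ioi (1:ℝ), |gG J b x| / x ^ 2

noncomputable def SG (J : Finset ℝ) (b : ℝ → ℝ) : ℝ := ∑ θ ∈ J, b θ * θ

noncomputable def BG (J : Finset ℝ) (b : ℝ → ℝ) (s : ℂ) : ℂ := ∑ θ ∈ J, (b θ : ℂ) * (θ : ℂ) ^ s

noncomputable def HG (J : Finset ℝ) (b : ℝ → ℝ) (s : ℂ) : ℂ :=
  1 - SG J b + riemannZeta₀ s * BG J b s + dslope (BG J b) 1 s

lemma measurable_gG (J : Finset ℝ) (b : ℝ → ℝ) : Measurable (gG J b) := by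
  unfold gG
  refine measurable_const.sub (Finset.measurable_sum _ fun θ _ => ?_)
  exact (measurable_fract.comp (measurable_id.const_mul _)).const_mul _

lemma abs_gG_le (J : Finset ℝ) (b : ℝ → ℝ) (x : ℝ) : |gG J b x| ≤ 1 + ∑ θ ∈ J, |b θ| := by
  unfold gG
  refine (abs_sub _ _).trans ?_
  rw [abs_one]
  gcongr
  refine (Finset.abs_sum_le_sum_abs _ _).trans (Finset.sum_le_sum fun θ _ => ?_)
  rw [abs_mul]
  have h1 : |Int.fract (θ * x)| ≤ 1 := by
    rw [abs_of_nonneg (Int.fract_nonneg _)]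
    exact (Int.fract_lt_one _).le
  calc |b θ| * |Int.fract (θ * x)| ≤ |b θ| * 1 := by gcongr
    _ = |b θ| := mul_one _

lemma integrableOn_nrmG (J : Finset ℝ) (b : ℝ → ℝ) :
    IntegrableOn (fun x : ℝ => |gG J b x| / x ^ 2) (Ioi 1) := by
  have h := integrableOn_inv_sq.const_mul (1 + ∑ θ ∈ J, |b θ|)
  refine h.mono' ?_ ?_
  · exact ((measurable_gG J b).abs.div (measurable_id.pow_const 2)).aestronglyMeasurable
  · refine ae_of_all _ fun x => ?_
    rw [Real.norm_eq_abs, abs_div, abs_abs, abs_of_nonneg (sq_nonneg x), div_eq_mul_one_div]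
    exact mul_le_mul_of_nonneg_right (abs_gG_le J b x) (by positivity)

lemma nrmG_nonneg (J : Finset ℝ) (b : ℝ → ℝ) : 0 ≤ nrmG J b :=
  setIntegral_nonneg measurableSet_Ioi fun x _ => by positivity

/-- Change of variables `x ↦ 1/x`. -/
lemma integral_eq_nrmG (J : Finset ℝ) (b : ℝ → ℝ) :
    ∫ x in (0:ℝ)..1, |1 - ∑ θ ∈ J, b θ * Int.fract (θ / x)| = nrmG J b := by
  rw [intervalIntegral.integral_of_le zero_le_one, integral_Ioc_eq_integral_Ioo]
  have himg : (fun x : ℝ => x⁻¹) '' Ioi 1 = Ioo 0 1 := by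
    ext y
    simp only [mem_image, mem_Ioi, mem_Ioo]
    constructor
    · rintro ⟨x, hx, rfl⟩
      exact ⟨by positivity, inv_lt_one_of_one_lt₀ hx⟩
    · rintro ⟨h0, h1⟩
      exact ⟨y⁻¹, (one_lt_inv₀ h0).2 h1, inv_inv y⟩
  rw [← himg, integral_image_eq_integral_abs_deriv_smul (f' := fun x => -(x ^ 2)⁻¹)
    measurableSet_Ioi]
  · unfold nrmG
    refine setIntegral_congr_fun measurableSet_Ioi fun x hx => ?_
    have hx0 : (0:ℝ) < x := lt_trans zero_lt_one hx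
    simp only [smul_eq_mul]
    rw [abs_neg, abs_of_pos (by positivity), div_eq_mul_inv, mul_comm]
    congr 2
    unfold gG
    congr 1
    refine Finset.sum_congr rfl fun θ _ => ?_
    congr 2
    rw [div_eq_mul_inv, inv_inv]
  · intro x hx
    have hx0 : (0:ℝ) < x := lt_trans zero_lt_one hx
    exact (hasDerivAt_inv hx0.ne').hasDerivWithinAt
  · intro x _ y _ h
    exact inv_injective h

lemma gG_eq (J : Finset ℝ) (b : ℝ → ℝ) (x : ℝ) :
    gG J b x = 1 - SG J b * x + ∑ θ ∈ J, b θ * (⌊θ * x⌋ : ℝ) := by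
  unfold gG SG
  rw [Finset.sum_mul]
  rw [show (1 - ∑ i ∈ J, b i * i * x + ∑ θ ∈ J, b θ * (⌊θ * x⌋ : ℝ))
    = 1 - (∑ i ∈ J, b i * i * x - ∑ θ ∈ J, b θ * (⌊θ * x⌋ : ℝ)) by ring,
    ← Finset.sum_sub_distrib]
  congr 1
  refine Finset.sum_congr rfl fun θ _ => ?_
  rw [Int.fract]
  ring

lemma mellin_floor_mul {s : ℂ} (hs : 1 < s.re) {θ : ℝ} (h0 : 0 < θ) (h1 : θ ≤ 1) :
    s * ∫ x in Ioi (1:ℝ), ((⌊θ * x⌋ : ℝ) : ℂ) * (x : ℂ) ^ (-(s + 1)) =
      (θ : ℂ) ^ s * riemannZeta s := by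
  have hθc : (θ : ℂ) ≠ 0 := by exact_mod_cast h0.ne'
  -- integral over `(1, ∞)` of the plain floor function
  have hbase := mellin_floor hs 1 le_rfl
  simp only [Nat.cast_one, div_one, one_cpow, one_mul] at hbase
  have e0 : ∫ y in Ioi θ, ((⌊y⌋ : ℝ) : ℂ) * (y : ℂ) ^ (-(s + 1)) =
      ∫ y in Ioi (1:ℝ), ((⌊y⌋ : ℝ) : ℂ) * (y : ℂ) ^ (-(s + 1)) := by
    rw [setIntegral_congr_set (Ioi_ae_eq_Ici (a := (1:ℝ)))]
    rcases eq_or_lt_of_le h1 with rfl | h1'
    · rw [setIntegral_congr_set (Ioi_ae_eq_Ici (a := (1:ℝ)))]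
    refine setIntegral_eq_of_subset_of_forall_sdiff_eq_zero measurableSet_Ioi ?_ ?_
    · intro y hy
      exact lt_of_lt_of_le h1' hy
    · rintro y ⟨hy1, hy2⟩
      have hy3 : y < 1 := by simpa using hy2
      have hy4 : 0 ≤ y := (h0.trans hy1).le
      have : ⌊y⌋ = 0 := Int.floor_eq_zero_iff.2 ⟨hy4, hy3⟩
      rw [this]
      simp
  have e1 := integral_comp_mul_left_Ioi (fun y : ℝ => ((⌊y⌋ : ℝ) : ℂ) * (y : ℂ) ^ (-(s + 1))) 1 h0
  rw [mul_one, e0] at e1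
  have e2 : ∫ x in Ioi (1:ℝ), ((⌊θ * x⌋ : ℝ) : ℂ) * ((θ * x : ℝ) : ℂ) ^ (-(s + 1)) =
      (θ : ℂ) ^ (-(s + 1)) * ∫ x in Ioi (1:ℝ), ((⌊θ * x⌋ : ℝ) : ℂ) * (x : ℂ) ^ (-(s + 1)) := by
    rw [← integral_const_mul]
    refine setIntegral_congr_fun measurableSet_Ioi fun x hx => ?_
    have hx0 : (0:ℝ) < x := lt_trans zero_lt_one hx
    rw [Complex.ofReal_mul, Complex.mul_cpow_ofReal_nonneg h0.le hx0.le]
    ring
  rw [e2] at e1
  have e3 : (θ : ℂ) ^ (-(s + 1)) * (θ : ℂ) ^ (s + 1) = 1 := by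
    rw [← Complex.cpow_add _ _ hθc]; simp
  have e4 : (θ : ℂ) ^ (s + 1) = (θ : ℂ) ^ s * θ := by
    rw [Complex.cpow_add _ _ hθc, Complex.cpow_one]
  set I1 := ∫ x in Ioi (1:ℝ), ((⌊θ * x⌋ : ℝ) : ℂ) * (x : ℂ) ^ (-(s + 1))
  set I0 := ∫ y in Ioi (1:ℝ), ((⌊y⌋ : ℝ) : ℂ) * (y : ℂ) ^ (-(s + 1))
  have e5 : I1 = (θ : ℂ) ^ s * I0 := by
    have h2 : (θ : ℂ) ^ (s + 1) * ((θ : ℂ) ^ (-(s + 1)) * I1) = (θ : ℂ) ^ (s + 1) * (θ⁻¹ • I0) := by
      rw [e1]
    rw [← mul_assoc, mul_comm ((θ : ℂ) ^ (s + 1)), e3, one_mul] at h2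
    rw [h2, e4, Complex.real_smul]
    push_cast
    field_simp
  rw [e5, ← hbase]
  ring

lemma BG_one (J : Finset ℝ) (b : ℝ → ℝ) : BG J b 1 = SG J b := by
  unfold BG SG
  push_cast
  refine Finset.sum_congr rfl fun θ _ => ?_
  rw [Complex.cpow_one]

lemma differentiable_BG {J : Finset ℝ} (hJ : ∀ θ ∈ J, 0 < θ) (b : ℝ → ℝ) :
    Differentiable ℂ (BG J b) := by
  unfold BG
  refine Differentiable.fun_sum fun θ hθ => ?_
  have h0 : (θ : ℂ) ≠ 0 := by exact_mod_cast (hJ θ hθ).ne'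
  refine (differentiable_const _).mul ?_
  exact fun s => differentiableAt_id.const_cpow (Or.inl h0)

lemma HG_eq (J : Finset ℝ) (b : ℝ → ℝ) {s : ℂ} (hs : s ≠ 1) :
    HG J b s = 1 - SG J b * (s / (s - 1)) + riemannZeta s * BG J b s := by
  have h1 : s - 1 ≠ 0 := sub_ne_zero.2 hs
  unfold HG
  rw [dslope_of_ne _ hs, slope_def_field, BG_one, riemannZeta_eq_inv_sub_add hs]
  field_simp
  ring

lemma differentiable_HG {J : Finset ℝ} (hJ : ∀ θ ∈ J, 0 < θ) (b : ℝ → ℝ) :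
    Differentiable ℂ (HG J b) := by
  have h1 : Differentiable ℂ (dslope (BG J b) 1) := by
    rw [← differentiableOn_univ]
    exact (Complex.differentiableOn_dslope univ_mem).2 (differentiable_BG hJ b).differentiableOn
  unfold HG
  exact ((differentiable_const _).add
    (differentiable_riemannZeta₀.mul (differentiable_BG hJ b))).add h1

lemma HG_eq_mellin {J : Finset ℝ} (hJ : ∀ θ ∈ J, 0 < θ ∧ θ ≤ 1) (b : ℝ → ℝ) {s : ℂ}
    (hs : 1 < s.re) :
    HG J b s = s * ∫ x in Ioi (1:ℝ), (gG J b x : ℂ) * (x : ℂ) ^ (-(s + 1)) := by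
  have hs1 : s ≠ 1 := by rintro rfl; simp at hs
  have hs0 : s ≠ 0 := by rintro rfl; simp at hs; linarith
  have h1 : s - 1 ≠ 0 := sub_ne_zero.2 hs1
  rw [HG_eq J b hs1]
  have i1 : IntegrableOn (fun x : ℝ => ((1:ℝ) : ℂ) * (x : ℂ) ^ (-(s + 1))) (Ioi 1) :=
    integrableOn_cpow_mul hs measurable_const (C := 1) fun x hx => by
      rw [abs_one]; linarith
  have i2 : IntegrableOn (fun x : ℝ => ((SG J b * x : ℝ) : ℂ) * (x : ℂ) ^ (-(s + 1))) (Ioi 1) :=
    integrableOn_cpow_mul hs (measurable_id.const_mul _) (C := |SG J b|) fun x hx => by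
      rw [abs_mul, abs_of_pos (lt_trans zero_lt_one hx)]
  have hfl : ∀ θ ∈ J, IntegrableOn
      (fun x : ℝ => (((⌊θ * x⌋ : ℝ)) : ℂ) * (x : ℂ) ^ (-(s + 1))) (Ioi 1) := by
    intro θ hθ
    obtain ⟨hθ0, hθ1⟩ := hJ θ hθ
    refine integrableOn_cpow_mul hs ?_ (C := 1) fun x hx => ?_
    · have : Measurable fun x : ℝ => ⌊θ * x⌋ := Int.measurable_floor.comp (measurable_id.const_mul _)
      exact (measurable_from_top (f := fun z : ℤ => (z : ℝ))).comp this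
    · have hx0 : (0:ℝ) < x := lt_trans zero_lt_one hx
      have h2 : 0 ≤ (⌊θ * x⌋ : ℝ) := by
        exact_mod_cast Int.floor_nonneg.2 (by positivity)
      rw [abs_of_nonneg h2]
      refine (Int.floor_le _).trans ?_
      gcongr
  have i3 : IntegrableOn (fun x : ℝ => ∑ θ ∈ J,
      (b θ : ℂ) * (((⌊θ * x⌋ : ℝ) : ℂ) * (x : ℂ) ^ (-(s + 1)))) (Ioi 1) :=
    integrable_finsetSum _ fun θ hθ => (hfl θ hθ).const_mul _
  have e1 : ∀ x : ℝ, (gG J b x : ℂ) * (x : ℂ) ^ (-(s + 1)) =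
      ((1:ℝ) : ℂ) * (x : ℂ) ^ (-(s + 1)) - ((SG J b * x : ℝ) : ℂ) * (x : ℂ) ^ (-(s + 1)) +
      ∑ θ ∈ J, (b θ : ℂ) * (((⌊θ * x⌋ : ℝ) : ℂ) * (x : ℂ) ^ (-(s + 1))) := by
    intro x
    rw [gG_eq]
    push_cast
    rw [add_mul, sub_mul, Finset.sum_mul]
    congr 1
    refine Finset.sum_congr rfl fun θ _ => by ring
  simp_rw [e1]
  have i12 : IntegrableOn (fun x : ℝ => ((1:ℝ) : ℂ) * (x : ℂ) ^ (-(s + 1)) -
      ((SG J b * x : ℝ) : ℂ) * (x : ℂ) ^ (-(s + 1))) (Ioi 1) := i1.sub i2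
  rw [integral_add i12 i3, integral_sub i1 i2, integral_finsetSum _
    (fun θ hθ => (hfl θ hθ).const_mul _)]
  have v1 : ∫ x in Ioi (1:ℝ), ((1:ℝ) : ℂ) * (x : ℂ) ^ (-(s + 1)) = 1 / s := by
    simp only [ofReal_one, one_mul]
    rw [integral_Ioi_cpow_of_lt (by simp; linarith) zero_lt_one]
    simp
  have v2 : ∫ x in Ioi (1:ℝ), ((SG J b * x : ℝ) : ℂ) * (x : ℂ) ^ (-(s + 1)) = SG J b / (s - 1) := by
    have : ∀ x ∈ Ioi (1:ℝ), ((SG J b * x : ℝ) : ℂ) * (x : ℂ) ^ (-(s + 1)) =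
        (SG J b : ℂ) * (x : ℂ) ^ (-s) := by
      intro x hx
      have hx0 : (x : ℂ) ≠ 0 := by
        have : (0:ℝ) < x := lt_trans zero_lt_one hx
        exact_mod_cast this.ne'
      push_cast
      rw [show -s = -(s + 1) + 1 by ring, Complex.cpow_add _ _ hx0, Complex.cpow_one]
      ring
    rw [setIntegral_congr_fun measurableSet_Ioi this, integral_const_mul,
      integral_Ioi_cpow_of_lt (by simpa using hs) zero_lt_one]
    simp only [ofReal_one, one_cpow]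
    have h2 : -s + 1 ≠ 0 := by
      intro h; apply h1; linear_combination -h
    field_simp
    ring
  rw [v1, v2]
  simp_rw [integral_const_mul]
  have v3 : s * ∑ θ ∈ J, (b θ : ℂ) *
      ∫ x in Ioi (1:ℝ), ((⌊θ * x⌋ : ℝ) : ℂ) * (x : ℂ) ^ (-(s + 1)) = riemannZeta s * BG J b s := by
    unfold BG
    rw [Finset.mul_sum, Finset.mul_sum]
    refine Finset.sum_congr rfl fun θ hθ => ?_
    have := mellin_floor_mul hs (hJ θ hθ).1 (hJ θ hθ).2
    linear_combination (b θ : ℂ) * this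
  rw [mul_add, v3]
  field_simp

lemma norm_HG_le {J : Finset ℝ} (hJ : ∀ θ ∈ J, 0 < θ ∧ θ ≤ 1) (b : ℝ → ℝ) {s : ℂ}
    (hs : 1 ≤ s.re) : ‖HG J b s‖ ≤ ‖s‖ * nrmG J b := by
  have hgt : ∀ s : ℂ, 1 < s.re → ‖HG J b s‖ ≤ ‖s‖ * nrmG J b := by
    intro s hs
    rw [HG_eq_mellin hJ b hs, norm_mul]
    refine mul_le_mul_of_nonneg_left ?_ (norm_nonneg _)
    refine norm_integral_le_of_norm_le (integrableOn_nrmG J b) ?_
    refine (ae_restrict_iff' measurableSet_Ioi).2 (ae_of_all _ fun x hx => ?_)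
    have hx1 : (1:ℝ) < x := hx
    have hx0 : (0:ℝ) < x := lt_trans zero_lt_one hx1
    rw [norm_mul, Complex.norm_cpow_eq_rpow_re_of_pos hx0, Complex.norm_real, Real.norm_eq_abs,
      div_eq_mul_inv]
    refine mul_le_mul_of_nonneg_left ?_ (abs_nonneg _)
    have e : (x ^ 2)⁻¹ = x ^ (-2:ℝ) := by
      rw [Real.rpow_neg hx0.le]; norm_num
    rw [e]
    refine Real.rpow_le_rpow_of_exponent_le hx1.le ?_
    simp
    linarith
  have hd := (differentiable_HG (fun θ hθ => (hJ θ hθ).1) b).continuous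
  have hc1 : Continuous fun e : ℝ => ‖HG J b (s + e)‖ :=
    (hd.comp (continuous_const.add Complex.continuous_ofReal)).norm
  have hc2 : Continuous fun e : ℝ => ‖s + e‖ * nrmG J b :=
    ((continuous_const.add Complex.continuous_ofReal).norm).mul_const _
  have h1 : Tendsto (fun e : ℝ => ‖HG J b (s + e)‖) (𝓝[>] 0) (𝓝 ‖HG J b (s + (0:ℝ))‖) :=
    (hc1.tendsto 0).mono_left nhdsWithin_le_nhds
  have h2 : Tendsto (fun e : ℝ => ‖s + e‖ * nrmG J b) (𝓝[>] 0) (𝓝 (‖s + (0:ℝ)‖ * nrmG J b)) :=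
    (hc2.tendsto 0).mono_left nhdsWithin_le_nhds
  have h3 := le_of_tendsto_of_tendsto h1 h2 (by
    filter_upwards [self_mem_nhdsWithin] with e he
    have he0 : (0:ℝ) < e := he
    apply hgt
    simp
    linarith)
  simpa using h3

/-- `∑ 1/n²`. -/
noncomputable def Z2 : ℝ := ∑' n : ℕ, 1 / (n : ℝ) ^ (2:ℝ)

lemma Z2_nonneg : 0 ≤ Z2 := tsum_nonneg fun n => by positivity

/-- Phragmén–Lindelöf in the half-plane `Re s ≤ 2`. -/
lemma BG_bound {lam : ℝ} (hl0 : 0 < lam) {J : Finset ℝ}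
    (hJ : ∀ θ ∈ J, lam ≤ θ ∧ θ ≤ 1) (b : ℝ → ℝ) {s : ℂ} (hs : s.re ≤ 2) :
    ‖BG J b s‖ ≤ Z2 * (2 * nrmG J b + 1 + 2 * |SG J b|) * ‖s - 3‖ * lam ^ (-(2 - s.re)) := by
  have hJ0 : ∀ θ ∈ J, 0 < θ ∧ θ ≤ 1 := fun θ hθ => ⟨hl0.trans_le (hJ θ hθ).1, (hJ θ hθ).2⟩
  set C1 := Z2 * (2 * nrmG J b + 1 + 2 * |SG J b|) with hC1
  have hε0 := nrmG_nonneg J b
  have hlc : (lam : ℂ) ≠ 0 := by exact_mod_cast hl0.ne'
  set v : ℂ → ℂ := fun z => BG J b (2 - z) * (lam : ℂ) ^ z / (z + 1) with hv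
  have hden : ∀ z : ℂ, 0 ≤ z.re → z + 1 ≠ 0 := by
    intro z hz h
    have := congrArg Complex.re h
    simp at this
    linarith
  have hvd : DiffContOnCl ℂ v {z : ℂ | 0 < z.re} := by
    apply DifferentiableOn.diffContOnCl
    rw [Complex.closure_setOfPred_lt_re]
    intro z hz
    have hz' : 0 ≤ z.re := hz
    have d1 : DifferentiableAt ℂ (fun z : ℂ => BG J b (2 - z)) z :=
      ((differentiable_BG (fun θ hθ => (hJ0 θ hθ).1) b) (2 - z)).comp z
        ((differentiableAt_const _).sub differentiableAt_id)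
    have d2 : DifferentiableAt ℂ (fun z : ℂ => (lam : ℂ) ^ z) z :=
      differentiableAt_id.const_cpow (Or.inl hlc)
    exact ((d1.mul d2).div (differentiableAt_id.add_const 1) (hden z hz')).differentiableWithinAt
  -- boundedness in the half-plane
  set K := ∑ θ ∈ J, |b θ| with hK
  have hK0 : 0 ≤ K := Finset.sum_nonneg fun θ _ => abs_nonneg _
  have hvb : ∀ z : ℂ, 0 ≤ z.re → ‖v z‖ ≤ K := by
    intro z hz
    have h1 : ‖BG J b (2 - z)‖ * ‖(lam : ℂ) ^ z‖ ≤ K := by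
      rw [Complex.norm_cpow_eq_rpow_re_of_pos hl0]
      unfold BG
      calc ‖∑ θ ∈ J, (b θ : ℂ) * (θ : ℂ) ^ (2 - z)‖ * lam ^ z.re
          ≤ (∑ θ ∈ J, |b θ| * θ ^ (2 - z.re)) * lam ^ z.re := by
            refine mul_le_mul_of_nonneg_right ?_ (by positivity)
            refine norm_sum_le_of_le _ fun θ hθ => ?_
            rw [norm_mul, Complex.norm_real, Real.norm_eq_abs,
              Complex.norm_cpow_eq_rpow_re_of_pos (hJ0 θ hθ).1]
            simp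
        _ = ∑ θ ∈ J, |b θ| * (θ ^ (2 - z.re) * lam ^ z.re) := by
            rw [Finset.sum_mul]
            exact Finset.sum_congr rfl fun θ _ => by ring
        _ ≤ ∑ θ ∈ J, |b θ| := by
            refine Finset.sum_le_sum fun θ hθ => ?_
            have hθ0 := (hJ0 θ hθ).1
            have h2 : lam ^ z.re ≤ θ ^ z.re := Real.rpow_le_rpow hl0.le (hJ θ hθ).1 hz
            have h3 : θ ^ (2 - z.re) * θ ^ z.re ≤ 1 := by
              rw [← Real.rpow_add hθ0]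
              apply Real.rpow_le_one hθ0.le (hJ θ hθ).2
              linarith
            have h4 : θ ^ (2 - z.re) * lam ^ z.re ≤ 1 := by
              refine le_trans ?_ h3
              gcongr
            calc |b θ| * (θ ^ (2 - z.re) * lam ^ z.re) ≤ |b θ| * 1 := by gcongr
              _ = |b θ| := mul_one _
    have h5 : 1 ≤ ‖z + 1‖ := by
      have := Complex.abs_re_le_norm (z + 1)
      rw [add_re, one_re, abs_of_nonneg (by linarith)] at this
      linarith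
    show ‖BG J b (2 - z) * (lam : ℂ) ^ z / (z + 1)‖ ≤ K
    rw [norm_div, norm_mul]
    exact (div_le_self (by positivity) h5).trans h1
  -- bound on the imaginary axis
  have hvI : ∀ x : ℝ, ‖v (x * I)‖ ≤ C1 := by
    intro x
    set w : ℂ := 2 - x * I with hw
    have hwre : w.re = 2 := by simp [hw]
    have hw1 : w ≠ 1 := by
      intro h
      have := congrArg Complex.re h
      rw [hwre] at this
      simp at this
    have hz0 : riemannZeta w ≠ 0 := riemannZeta_ne_zero_of_one_le_re (by rw [hwre]; norm_num)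
    have hB : BG J b w = (HG J b w - 1 + SG J b * (w / (w - 1))) * (riemannZeta w)⁻¹ := by
      rw [HG_eq J b hw1]
      field_simp
      ring
    have hw1n : 1 ≤ ‖w - 1‖ := by
      have := Complex.abs_re_le_norm (w - 1)
      rw [sub_re, one_re, hwre] at this
      norm_num at this
      linarith
    have hratio : ‖w / (w - 1)‖ ≤ 2 := by
      rw [norm_div, div_le_iff₀ (by linarith)]
      have h3 : ‖w‖ ≤ ‖w - 1‖ + 1 := by
        have := norm_add_le (w - 1) 1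
        rw [sub_add_cancel, norm_one] at this
        exact this
      linarith
    have h1x : ‖(x:ℂ) * I + 1‖ = ‖w - 1‖ := by
      rw [hw]
      have e : (2 - (x:ℂ) * I - 1) = (starRingEnd ℂ) ((x:ℂ) * I + 1) := by
        simp
        ring
      rw [e, Complex.norm_conj]
    have hBn : ‖BG J b w‖ ≤ (‖w‖ * nrmG J b + 1 + |SG J b| * 2) * Z2 := by
      rw [hB, norm_mul]
      have h4 := norm_inv_riemannZeta_le (x := 2) (s := w) (by norm_num) (by rw [hwre])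
      have h5 : ‖HG J b w - 1 + SG J b * (w / (w - 1))‖ ≤ ‖w‖ * nrmG J b + 1 + |SG J b| * 2 := by
        refine (norm_add_le _ _).trans ?_
        have h6 := norm_sub_le (HG J b w) 1
        rw [norm_one] at h6
        have h7 := norm_HG_le hJ0 b (s := w) (by rw [hwre]; norm_num)
        have h8 : ‖(SG J b : ℂ) * (w / (w - 1))‖ ≤ |SG J b| * 2 := by
          rw [norm_mul, Complex.norm_real, Real.norm_eq_abs]
          gcongr
        linarith
      exact mul_le_mul h5 h4 (norm_nonneg _) (by positivity)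
    show ‖BG J b (2 - x * I) * (lam : ℂ) ^ (x * I) / (x * I + 1)‖ ≤ C1
    rw [norm_div, norm_mul, h1x, ← hw, Complex.norm_cpow_eq_rpow_re_of_pos hl0]
    have h9 : ((x:ℂ) * I).re = 0 := by simp
    rw [h9, Real.rpow_zero, mul_one, div_le_iff₀ (by linarith)]
    refine hBn.trans ?_
    have h3 : ‖w‖ ≤ 2 * ‖w - 1‖ := by
      have := norm_add_le (w - 1) 1
      rw [sub_add_cancel, norm_one] at this
      linarith
    rw [hC1]
    have hS := abs_nonneg (SG J b)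
    have hZ := Z2_nonneg
    have h10 : ‖w‖ * nrmG J b + 1 + |SG J b| * 2 ≤
        (2 * nrmG J b + 1 + 2 * |SG J b|) * ‖w - 1‖ := by
      nlinarith
    calc (‖w‖ * nrmG J b + 1 + |SG J b| * 2) * Z2
        ≤ ((2 * nrmG J b + 1 + 2 * |SG J b|) * ‖w - 1‖) * Z2 := by gcongr
      _ = _ := by ring
  have hPL : ∀ z : ℂ, 0 ≤ z.re → ‖v z‖ ≤ C1 := by
    intro z hz
    refine PhragmenLindelof.right_half_plane_of_bounded_on_real hvd ?_ ?_ hvI hz
    · refine ⟨1, by norm_num, 0, ?_⟩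
      refine Asymptotics.IsBigO.of_bound K ?_
      rw [Filter.eventually_inf_principal]
      refine Eventually.of_forall fun z hz => ?_
      simpa using hvb z (le_of_lt hz)
    · refine ⟨K, ?_⟩
      rw [Filter.eventually_map]
      filter_upwards [eventually_ge_atTop 0] with x hx
      exact hvb x (by simpa using hx)
  have h1 := hPL (2 - s) (by simp; linarith)
  have e1 : v (2 - s) = BG J b s * (lam : ℂ) ^ (2 - s) / (3 - s) := by
    show BG J b (2 - (2 - s)) * (lam : ℂ) ^ (2 - s) / (2 - s + 1) = _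
    ring_nf
  have h3s : 3 - s ≠ 0 := by
    intro h
    have := congrArg Complex.re h
    simp at this
    linarith
  have h3n : 0 < ‖3 - s‖ := norm_pos_iff.2 h3s
  rw [e1, norm_div, norm_mul, Complex.norm_cpow_eq_rpow_re_of_pos hl0, div_le_iff₀ h3n] at h1
  have h4 : (2 - s).re = 2 - s.re := by simp
  rw [h4] at h1
  have h5 : 0 < lam ^ (2 - s.re) := Real.rpow_pos_of_pos hl0 _
  rw [Real.rpow_neg hl0.le, norm_sub_rev s 3, ← div_eq_mul_inv, le_div_iff₀ h5]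
  exact h1

lemma norm_HG_left {lam : ℝ} (hl0 : 0 < lam) (hl1 : lam ≤ 1) {J : Finset ℝ}
    (hJ : ∀ θ ∈ J, lam ≤ θ ∧ θ ≤ 1) (b : ℝ → ℝ) (hb : nrmG J b ≤ 1) {L C : ℝ} (hL : 0 ≤ L)
    (hC0 : 0 ≤ C)
    (hC : ∀ s : ℂ, -L ≤ s.re → s.re ≤ 1 → ‖riemannZeta₀ s‖ ≤ C * Real.exp (2 * |s.im|))
    {s : ℂ} (hs : s.re = -L) :
    ‖HG J b s‖ ≤ ((2 + (C + 1) * (3 * Z2 * (L + 3))) * (1 + |SG J b|) * lam ^ (-(L + 2))) *
      Real.exp (3 * |s.im|) := by
  have hB := BG_bound hl0 hJ b (s := s) (by rw [hs]; linarith)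
  have hZ := hC s hs.ge (by linarith)
  have hε0 := nrmG_nonneg J b
  have hZ2 := Z2_nonneg
  set S := |SG J b| with hS
  have hS0 : 0 ≤ S := abs_nonneg _
  set P := lam ^ (-(L + 2)) with hP
  have hP1 : 1 ≤ P := by
    rw [hP, Real.rpow_neg hl0.le]
    exact (one_le_inv₀ (by positivity)).2 (Real.rpow_le_one hl0.le hl1 (by linarith))
  have hs1 : s ≠ 1 := by
    rintro rfl
    simp at hs
    linarith
  have hn1 : 1 ≤ ‖s - 1‖ := by
    have h := Complex.abs_re_le_norm (s - 1)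
    have h2 : |(s - 1).re| = L + 1 := by
      rw [sub_re, one_re, hs, abs_of_neg (by linarith)]; ring
    linarith
  set t := |s.im| with ht
  have ht0 : 0 ≤ t := abs_nonneg _
  have h3 : ‖s - 3‖ ≤ (L + 3) * Real.exp t := by
    have h4 := Complex.norm_le_abs_re_add_abs_im (s - 3)
    have h5 : |(s - 3).re| = L + 3 := by
      rw [sub_re, hs]
      simp only [Complex.re_ofNat]
      rw [abs_of_neg (by linarith)]; ring
    have h6 : |(s - 3).im| = t := by simp [ht]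
    rw [h5, h6] at h4
    have h7 := Real.add_one_le_exp t
    nlinarith
  have hB2 : ‖BG J b s‖ ≤ (3 * Z2 * (L + 3)) * (1 + S) * P * Real.exp t := by
    refine hB.trans ?_
    have e : -(2 - s.re) = -(L + 2) := by rw [hs]; ring
    rw [e, ← hP]
    have h8 : 2 * nrmG J b + 1 + 2 * S ≤ 3 * (1 + S) := by linarith
    calc Z2 * (2 * nrmG J b + 1 + 2 * S) * ‖s - 3‖ * P
        ≤ Z2 * (3 * (1 + S)) * ((L + 3) * Real.exp t) * P := by gcongr
      _ = _ := by ring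
  set BB := ‖BG J b s‖ with hBB
  have hd : ‖dslope (BG J b) 1 s‖ ≤ BB + S := by
    rw [dslope_of_ne _ hs1, slope_def_field, BG_one, norm_div]
    refine (div_le_self (norm_nonneg _) hn1).trans ?_
    refine (norm_sub_le _ _).trans ?_
    rw [Complex.norm_real, Real.norm_eq_abs]
  have h1 : ‖(1:ℂ) - SG J b‖ ≤ 1 + S := by
    refine (norm_sub_le _ _).trans ?_
    rw [norm_one, Complex.norm_real, Real.norm_eq_abs]
  have h2 : ‖riemannZeta₀ s * BG J b s‖ ≤ (C * Real.exp (2 * t)) * BB := by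
    rw [norm_mul]
    gcongr
  have hE2 : 1 ≤ Real.exp (2 * t) := Real.one_le_exp (by positivity)
  have hE3 : Real.exp (3 * t) = Real.exp (2 * t) * Real.exp t := by
    rw [← Real.exp_add]; ring_nf
  have hE31 : 1 ≤ Real.exp (3 * t) := Real.one_le_exp (by positivity)
  have hBB0 : 0 ≤ BB := norm_nonneg _
  calc ‖HG J b s‖ ≤ ‖(1:ℂ) - SG J b‖ + ‖riemannZeta₀ s * BG J b s‖ + ‖dslope (BG J b) 1 s‖ := by
        unfold HG
        exact (norm_add_le _ _).trans (by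
          have := norm_add_le ((1:ℂ) - SG J b) (riemannZeta₀ s * BG J b s)
          linarith)
    _ ≤ (1 + S) + (C * Real.exp (2 * t)) * BB + (BB + S) := by linarith
    _ ≤ 2 * (1 + S) + (C + 1) * Real.exp (2 * t) * BB := by nlinarith
    _ ≤ 2 * (1 + S) * (P * Real.exp (3 * t)) + (C + 1) * Real.exp (2 * t) *
        ((3 * Z2 * (L + 3)) * (1 + S) * P * Real.exp t) := by
      have hPE : 1 ≤ P * Real.exp (3 * t) := by nlinarith
      have h9 : 2 * (1 + S) ≤ 2 * (1 + S) * (P * Real.exp (3 * t)) := by nlinarith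
      have h10 : (C + 1) * Real.exp (2 * t) * BB ≤ (C + 1) * Real.exp (2 * t) *
        ((3 * Z2 * (L + 3)) * (1 + S) * P * Real.exp t) := by gcongr
      linarith
    _ = _ := by rw [hE3]; ring

lemma norm_HG_strip {J : Finset ℝ} (hJ : ∀ θ ∈ J, 0 < θ ∧ θ ≤ 1) (b : ℝ → ℝ) {L C : ℝ}
    (hL : 0 ≤ L) (hC0 : 0 ≤ C)
    (hC : ∀ s : ℂ, -L ≤ s.re → s.re ≤ 1 → ‖riemannZeta₀ s‖ ≤ C * Real.exp (2 * |s.im|)) :
    ∃ K : ℝ, ∀ s : ℂ, -L ≤ s.re → s.re ≤ 1 → ‖HG J b s‖ ≤ K * Real.exp (3 * |s.im|) := by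
  set B := ∑ θ ∈ J, |b θ| * θ ^ (-L) with hBdef
  have hB0 : 0 ≤ B := Finset.sum_nonneg fun θ hθ => by
    have := (hJ θ hθ).1
    positivity
  have hB : ∀ s : ℂ, -L ≤ s.re → ‖BG J b s‖ ≤ B := by
    intro s hs
    unfold BG
    refine norm_sum_le_of_le _ fun θ hθ => ?_
    obtain ⟨h0, h1⟩ := hJ θ hθ
    rw [norm_mul, Complex.norm_real, Real.norm_eq_abs, Complex.norm_cpow_eq_rpow_re_of_pos h0]
    have h3 : θ ^ s.re ≤ θ ^ (-L) := Real.rpow_le_rpow_of_exponent_ge h0 h1 hs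
    gcongr
  have hcd : Continuous (dslope (BG J b) 1) := by
    have h1 : Differentiable ℂ (dslope (BG J b) 1) := by
      rw [← differentiableOn_univ]
      exact (Complex.differentiableOn_dslope univ_mem).2
        (differentiable_BG (fun θ hθ => (hJ θ hθ).1) b).differentiableOn
    exact h1.continuous
  obtain ⟨D, hD⟩ := (isCompact_closedBall (1:ℂ) 1).exists_bound_of_continuousOn hcd.continuousOn
  have hd : ∀ s : ℂ, -L ≤ s.re → ‖dslope (BG J b) 1 s‖ ≤ |D| + (B + |SG J b|) := by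
    intro s hs
    rcases le_or_gt ‖s - 1‖ 1 with h | h
    · have := hD s (by rw [Metric.mem_closedBall, dist_eq_norm]; exact h)
      have h2 := le_abs_self D
      have h3 := abs_nonneg (SG J b)
      linarith
    · have hs1 : s ≠ 1 := by
        rintro rfl
        simp at h
        linarith
      rw [dslope_of_ne _ hs1, slope_def_field, BG_one, norm_div]
      refine (div_le_self (norm_nonneg _) h.le).trans ?_
      refine (norm_sub_le _ _).trans ?_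
      rw [Complex.norm_real, Real.norm_eq_abs]
      have h1 := hB s hs
      have h2 := abs_nonneg D
      linarith
  refine ⟨1 + |SG J b| + C * B + (|D| + (B + |SG J b|)), fun s h1 h2 => ?_⟩
  have hE : 1 ≤ Real.exp (2 * |s.im|) := Real.one_le_exp (by positivity)
  have hE23 : Real.exp (2 * |s.im|) ≤ Real.exp (3 * |s.im|) :=
    Real.exp_le_exp.2 (by linarith [abs_nonneg s.im])
  unfold HG
  have h3 : ‖(1:ℂ) - SG J b‖ ≤ 1 + |SG J b| := by
    refine (norm_sub_le _ _).trans ?_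
    rw [norm_one, Complex.norm_real, Real.norm_eq_abs]
  have h4 : ‖riemannZeta₀ s * BG J b s‖ ≤ (C * Real.exp (2 * |s.im|)) * B := by
    rw [norm_mul]
    exact mul_le_mul (hC s h1 h2) (hB s h1) (norm_nonneg _) (by positivity)
  have h5 := hd s h1
  refine (norm_add_le _ _).trans ?_
  have h6 := norm_add_le ((1:ℂ) - SG J b) (riemannZeta₀ s * BG J b s)
  set E := Real.exp (2 * |s.im|)
  set E3 := Real.exp (3 * |s.im|)
  have h7 : 0 ≤ 1 + |SG J b| := by positivity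
  have h8 : 0 ≤ |D| + (B + |SG J b|) := by positivity
  have h9 : 0 ≤ C * B := by positivity
  nlinarith

lemma norm_exp_sq_le3 {ρ s : ℂ} {L : ℝ} (hL : 0 ≤ L) (h0 : 0 < ρ.re) (h1 : ρ.re < 1)
    (hs1 : -L ≤ s.re) (hs2 : s.re ≤ 1) :
    Real.exp (3 * |s.im|) * ‖cexp ((s - ρ) ^ 2)‖ ≤ Real.exp ((L + 1) ^ 2 + 3 * |ρ.im| + 3) := by
  rw [Complex.norm_exp, ← Real.exp_add]
  apply Real.exp_le_exp.2
  have e : ((s - ρ) ^ 2).re = (s.re - ρ.re) ^ 2 - (s.im - ρ.im) ^ 2 := by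
    rw [sq, mul_re, sub_re, sub_im]; ring
  rw [e]
  have h2 : (s.re - ρ.re) ^ 2 ≤ (L + 1) ^ 2 := by
    exact sq_le_sq' (by linarith) (by linarith)
  have h3 : |s.im| ≤ |ρ.im| + |s.im - ρ.im| := by
    have := abs_add_le ρ.im (s.im - ρ.im)
    simpa using this
  have h4 : 3 * |s.im - ρ.im| ≤ 3 + (s.im - ρ.im) ^ 2 := by
    have := sq_nonneg (|s.im - ρ.im| - 3 / 2)
    have h5 := sq_abs (s.im - ρ.im)
    nlinarith
  linarith

/-- The three-lines estimate. -/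
lemma three_linesG {lam : ℝ} (hl0 : 0 < lam) (hl1 : lam ≤ 1) {J : Finset ℝ}
    (hJ : ∀ θ ∈ J, lam ≤ θ ∧ θ ≤ 1) (b : ℝ → ℝ) (hb : nrmG J b ≤ 1) {L C : ℝ} (hL : 0 ≤ L)
    (hC0 : 0 ≤ C)
    (hC : ∀ s : ℂ, -L ≤ s.re → s.re ≤ 1 → ‖riemannZeta₀ s‖ ≤ C * Real.exp (2 * |s.im|))
    {ρ : ℂ} (h0 : 0 < ρ.re) (h1 : ρ.re < 1) :
    ‖HG J b ρ‖ ≤ (((2 + (C + 1) * (3 * Z2 * (L + 3))) * (1 + |SG J b|) * lam ^ (-(L + 2))) *
        Real.exp ((L + 1) ^ 2 + 3 * |ρ.im| + 3)) ^ (1 - (ρ.re + L) / (1 + L)) *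
      (Real.exp ((L + 1) ^ 2 + 3 * |ρ.im| + 3) * nrmG J b) ^ ((ρ.re + L) / (1 + L)) := by
  have hJ0 : ∀ θ ∈ J, 0 < θ ∧ θ ≤ 1 := fun θ hθ => ⟨hl0.trans_le (hJ θ hθ).1, (hJ θ hθ).2⟩
  set E := Real.exp ((L + 1) ^ 2 + 3 * |ρ.im| + 3) with hE
  have hE0 : 0 < E := Real.exp_pos _
  have hZ2 := Z2_nonneg
  set F : ℂ → ℂ := fun s => HG J b s * cexp ((s - ρ) ^ 2) with hF
  have hFd : Differentiable ℂ F := by
    refine (differentiable_HG (fun θ hθ => (hJ0 θ hθ).1) b).mul ?_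
    exact ((differentiable_id.sub_const ρ).pow 2).cexp
  have hnF : ∀ s : ℂ, -L ≤ s.re → s.re ≤ 1 → ∀ K : ℝ, 0 ≤ K →
      ‖HG J b s‖ ≤ K * Real.exp (3 * |s.im|) → ‖F s‖ ≤ K * E := by
    intro s hs1 hs2 K hK h
    rw [hF]
    simp only [norm_mul]
    have h3 := norm_exp_sq_le3 hL h0 h1 hs1 hs2
    calc ‖HG J b s‖ * ‖cexp ((s - ρ) ^ 2)‖
        ≤ (K * Real.exp (3 * |s.im|)) * ‖cexp ((s - ρ) ^ 2)‖ := by gcongr
      _ = K * (Real.exp (3 * |s.im|) * ‖cexp ((s - ρ) ^ 2)‖) := by ring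
      _ ≤ K * E := by gcongr
  have hmem : ρ ∈ Complex.HadamardThreeLines.verticalClosedStrip (-L) 1 := by
    simp only [Complex.HadamardThreeLines.verticalClosedStrip, mem_preimage, mem_Icc]
    constructor <;> linarith
  have hbdd : BddAbove ((norm ∘ F) '' Complex.HadamardThreeLines.verticalClosedStrip (-L) 1) := by
    obtain ⟨K, hK⟩ := norm_HG_strip hJ0 b hL hC0 hC
    refine ⟨|K| * E, ?_⟩
    rintro _ ⟨s, hs, rfl⟩
    simp only [Complex.HadamardThreeLines.verticalClosedStrip, mem_preimage, mem_Icc] at hs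
    refine hnF s hs.1 hs.2 |K| (abs_nonneg K) ?_
    refine (hK s hs.1 hs.2).trans ?_
    gcongr
    exact le_abs_self K
  have hleft : ∀ s ∈ re ⁻¹' {-L}, ‖F s‖ ≤
      ((2 + (C + 1) * (3 * Z2 * (L + 3))) * (1 + |SG J b|) * lam ^ (-(L + 2))) * E := by
    intro s hs
    have hs' : s.re = -L := hs
    exact hnF s hs'.ge (by linarith) _ (by positivity)
      (norm_HG_left hl0 hl1 hJ b hb hL hC0 hC hs')
  have hright : ∀ s ∈ re ⁻¹' {(1:ℝ)}, ‖F s‖ ≤ E * nrmG J b := by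
    intro s hs
    have hs' : s.re = 1 := hs
    rw [mul_comm E]
    refine hnF s (by linarith) hs'.le _ (nrmG_nonneg J b) ?_
    have h2 := norm_HG_le hJ0 b hs'.ge
    have h3 : ‖s‖ ≤ Real.exp (3 * |s.im|) := by
      have h4 := Complex.norm_le_abs_re_add_abs_im s
      rw [hs', abs_one] at h4
      have h5 := Real.add_one_le_exp (3 * |s.im|)
      have h6 := abs_nonneg s.im
      linarith
    calc ‖HG J b s‖ ≤ ‖s‖ * nrmG J b := h2
      _ ≤ Real.exp (3 * |s.im|) * nrmG J b := by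
        have := nrmG_nonneg J b
        gcongr
      _ = _ := mul_comm _ _
  have hlt : -L < 1 := by linarith
  have key := Complex.HadamardThreeLines.norm_le_interp_of_mem_verticalClosedStrip' hlt hmem
    hFd.diffContOnCl hbdd hleft hright
  have e1 : F ρ = HG J b ρ := by
    rw [hF]; simp
  rw [e1] at key
  have e2 : (ρ.re - -L) / (1 - -L) = (ρ.re + L) / (1 + L) := by ring_nf
  rw [e2] at key
  exact key

/-- The zeta function has no zeros in the real interval `(0, 1)`. -/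
lemma im_ne_zero_of_zero {ρ : ℂ} (hρ : riemannZeta ρ = 0) (h0 : 0 < ρ.re) (h1 : ρ.re < 1) :
    ρ.im ≠ 0 := by
  intro him
  set σ := ρ.re with hσ
  have hρσ : ρ = (σ : ℂ) := by
    apply Complex.ext
    · simp [hσ]
    · simp [him]
  have hne : ρ ≠ 1 := by rintro rfl; simp [hσ] at h1
  have h2 := zetaPole_eq (s := ρ) h0
  rw [zetaPole_of_ne hne, hρ, mul_zero] at h2
  have h3 : frMellin ρ = ((∫ t in Ioi (1:ℝ), t ^ (-σ - 1) * Int.fract t : ℝ) : ℂ) := by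
    rw [frMellin_eq, hρσ]
    rw [← integral_complex_ofReal]
    refine setIntegral_congr_fun measurableSet_Ioi fun t ht => ?_
    have ht1 : (1:ℝ) < t := ht
    have ht0 : (0:ℝ) < t := by linarith
    have e : fr t = ((Int.fract t : ℝ) : ℂ) := by
      unfold fr
      rw [if_neg (by linarith)]
    rw [e, smul_eq_mul]
    push_cast
    rw [Complex.ofReal_cpow ht0.le]
    push_cast
    rfl
  have h4 : 0 ≤ ∫ t in Ioi (1:ℝ), t ^ (-σ - 1) * Int.fract t := by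
    refine setIntegral_nonneg measurableSet_Ioi fun t ht => ?_
    have ht0 : (0:ℝ) < t := lt_trans zero_lt_one ht
    exact mul_nonneg (Real.rpow_nonneg ht0.le _) (Int.fract_nonneg t)
  rw [h3, hρσ] at h2
  have h5 : (0:ℝ) = σ - σ * (σ - 1) * ∫ t in Ioi (1:ℝ), t ^ (-σ - 1) * Int.fract t := by
    exact_mod_cast h2
  have h6 : 0 ≤ σ * (1 - σ) * ∫ t in Ioi (1:ℝ), t ^ (-σ - 1) * Int.fract t := by
    have : 0 ≤ 1 - σ := by linarith
    positivity
  nlinarith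

/-- `|1 - S w| ≥ c (1 + |S|)` for real `S` and fixed nonreal `w`. -/
lemma one_sub_mul_ge {w : ℂ} (hw : w.im ≠ 0) :
    ∃ c : ℝ, 0 < c ∧ ∀ S : ℝ, c * (1 + |S|) ≤ ‖1 - (S : ℂ) * w‖ := by
  have hw0 : w ≠ 0 := by rintro rfl; simp at hw
  have hn : 0 < ‖w‖ := norm_pos_iff.2 hw0
  have hi : 0 < |w.im| := abs_pos.2 hw
  refine ⟨min (|w.im| / 2) (|w.im| / ‖w‖ / 2), by positivity, fun S => ?_⟩
  have h1 : |S| * |w.im| ≤ ‖1 - (S : ℂ) * w‖ := by
    have := Complex.abs_im_le_norm (1 - (S : ℂ) * w)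
    simp only [sub_im, one_im, mul_im, ofReal_re, ofReal_im, zero_mul, add_zero, zero_sub,
      abs_neg, abs_mul] at this
    exact this
  have h2 : |w.im| / ‖w‖ ≤ ‖1 - (S : ℂ) * w‖ := by
    rw [div_le_iff₀ hn]
    have e : ‖1 - (S : ℂ) * w‖ * ‖w‖ = ‖(1 - (S : ℂ) * w) * (starRingEnd ℂ) w‖ := by
      rw [norm_mul, Complex.norm_conj]
    rw [e]
    have e2 : ((1 - (S : ℂ) * w) * (starRingEnd ℂ) w).im = -w.im := by
      simp only [mul_im, sub_re, one_re, mul_re, ofReal_re, ofReal_im, zero_mul, sub_zero,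
        conj_im, sub_im, one_im, add_zero, conj_re, zero_sub]
      ring
    have := Complex.abs_im_le_norm ((1 - (S : ℂ) * w) * (starRingEnd ℂ) w)
    rw [e2, abs_neg] at this
    exact this
  have h3 : min (|w.im| / 2) (|w.im| / ‖w‖ / 2) ≤ |w.im| / 2 := min_le_left _ _
  have h4 : min (|w.im| / 2) (|w.im| / ‖w‖ / 2) ≤ |w.im| / ‖w‖ / 2 := min_le_right _ _
  have hS := abs_nonneg S
  nlinarith

/-- **Lower bound, arbitrary dilations.** Every zero `ρ` of zeta with `0 < Re ρ < 1` forces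
`nrmG J b ≥ c λ^{(1 - Re ρ)(1 + η)}` for all finite `J ⊆ [λ, 1]` and all real coefficients. -/
theorem lowerG {ρ : ℂ} (hρ : riemannZeta ρ = 0) (h0 : 0 < ρ.re) (h1 : ρ.re < 1) {η : ℝ}
    (hη : 0 < η) :
    ∃ c : ℝ, 0 < c ∧ ∀ lam : ℝ, 0 < lam → lam ≤ 1 → ∀ J : Finset ℝ,
      (∀ θ ∈ J, lam ≤ θ ∧ θ ≤ 1) → ∀ b : ℝ → ℝ,
      c * lam ^ ((1 - ρ.re) * (1 + η)) ≤ nrmG J b := by
  set L : ℝ := 2 / η with hLdef
  have hL : 0 < L := by positivity
  obtain ⟨C, hC0, hC⟩ := zeta0_crude L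
  set E := Real.exp ((L + 1) ^ 2 + 3 * |ρ.im| + 3) with hE
  have hE0 : 0 < E := Real.exp_pos _
  set θ : ℝ := (ρ.re + L) / (1 + L) with hθ
  have hθ0 : 0 < θ := by positivity
  have hθ1 : 1 - θ = (1 - ρ.re) / (1 + L) := by
    rw [hθ]; field_simp; ring
  have hθ10 : 0 < 1 - θ := by
    rw [hθ1]
    have : 0 < 1 - ρ.re := by linarith
    positivity
  have hρ1 : ρ ≠ 1 := by rintro rfl; simp at h1
  have hZ2 := Z2_nonneg
  have hw : (ρ / (ρ - 1)).im ≠ 0 := by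
    have hρim := im_ne_zero_of_zero hρ h0 h1
    have hn : ρ - 1 ≠ 0 := sub_ne_zero.2 hρ1
    have e : ρ / (ρ - 1) = 1 + (ρ - 1)⁻¹ := by field_simp; ring
    rw [e, add_im, one_im, zero_add, inv_im, sub_im, one_im, sub_zero]
    exact div_ne_zero (neg_ne_zero.2 hρim) (by simpa using hn)
  obtain ⟨c0, hc0, hc0'⟩ := one_sub_mul_ge hw
  set A : ℝ := (2 + (C + 1) * (3 * Z2 * (L + 3))) * E with hA
  have hA0 : 0 < A := by positivity
  set c1 : ℝ := c0 ^ (1 / θ) / (A ^ ((1 - θ) / θ) * E) with hc1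
  have hc10 : 0 < c1 := by positivity
  refine ⟨min 1 c1, by positivity, fun lam hl0 hl1 J hJ b => ?_⟩
  set κ := (1 - ρ.re) * (1 + η) with hκ
  have hκ0 : 0 ≤ κ := by
    have : 0 ≤ 1 - ρ.re := by linarith
    positivity
  have hP1 : lam ^ κ ≤ 1 := Real.rpow_le_one hl0.le hl1 hκ0
  have hP0 : 0 < lam ^ κ := Real.rpow_pos_of_pos hl0 _
  have hε0 := nrmG_nonneg J b
  rcases le_or_gt 1 (nrmG J b) with hbig | hsmall
  · have : min 1 c1 ≤ 1 := min_le_left _ _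
    have h2 : 0 ≤ min 1 c1 := by positivity
    nlinarith
  have h2 : min 1 c1 * lam ^ κ ≤ c1 * lam ^ κ := by
    have : min 1 c1 ≤ c1 := min_le_right _ _
    gcongr
  refine h2.trans ?_
  set S := |SG J b| with hS
  have hS0 : 0 ≤ S := abs_nonneg _
  have hH : c0 * (1 + S) ≤ ‖HG J b ρ‖ := by
    rw [HG_eq J b hρ1, hρ, zero_mul, add_zero]
    exact hc0' (SG J b)
  have h3 := three_linesG hl0 hl1 hJ b hsmall.le hL.le hC0 hC h0 h1
  rw [← hE, ← hθ, ← hS] at h3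
  have h4 : c0 * (1 + S) ≤ (1 + S) ^ (1 - θ) * ((A * lam ^ (-(L + 2))) ^ (1 - θ) *
      (E * nrmG J b) ^ θ) := by
    refine hH.trans (h3.trans (le_of_eq ?_))
    rw [hA]
    rw [show (2 + (C + 1) * (3 * Z2 * (L + 3))) * (1 + S) * lam ^ (-(L + 2)) * E =
      (1 + S) * ((2 + (C + 1) * (3 * Z2 * (L + 3))) * E * lam ^ (-(L + 2))) by ring,
      Real.mul_rpow (by positivity) (by positivity)]
    ring
  have h5 : c0 ≤ (A * lam ^ (-(L + 2))) ^ (1 - θ) * (E * nrmG J b) ^ θ := by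
    have h6 : (1 + S) ^ (1 - θ) ≤ 1 + S := by
      calc (1 + S) ^ (1 - θ) ≤ (1 + S) ^ (1:ℝ) :=
            Real.rpow_le_rpow_of_exponent_le (by linarith) (by linarith)
        _ = 1 + S := Real.rpow_one _
    have h7 : 0 ≤ (A * lam ^ (-(L + 2))) ^ (1 - θ) * (E * nrmG J b) ^ θ := by positivity
    have h8 : c0 * (1 + S) ≤ (1 + S) * ((A * lam ^ (-(L + 2))) ^ (1 - θ) *
      (E * nrmG J b) ^ θ) := h4.trans (by gcongr)
    have h9 : 0 < 1 + S := by linarith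
    rw [mul_comm c0] at h8
    exact le_of_mul_le_mul_left h8 h9
  -- raise to the power 1/θ
  have h6 : c0 ^ (1 / θ) ≤ (A * lam ^ (-(L + 2))) ^ ((1 - θ) / θ) * (E * nrmG J b) := by
    have h6 := Real.rpow_le_rpow hc0.le h5 (by positivity : 0 ≤ 1 / θ)
    rw [Real.mul_rpow (by positivity) (by positivity), ← Real.rpow_mul (by positivity),
      ← Real.rpow_mul (by positivity)] at h6
    have e1 : (1 - θ) * (1 / θ) = (1 - θ) / θ := by ring
    have e2 : θ * (1 / θ) = 1 := by field_simp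
    rwa [e1, e2, Real.rpow_one] at h6
  have h7 : (A * lam ^ (-(L + 2))) ^ ((1 - θ) / θ) ≤ A ^ ((1 - θ) / θ) * lam ^ (-κ) := by
    rw [Real.mul_rpow hA0.le (by positivity), ← Real.rpow_mul hl0.le]
    refine mul_le_mul_of_nonneg_left ?_ (by positivity)
    refine Real.rpow_le_rpow_of_exponent_ge hl0 hl1 ?_
    rw [hθ1, hθ, hκ]
    have e3 : (1 - ρ.re) / (1 + L) / ((ρ.re + L) / (1 + L)) = (1 - ρ.re) / (ρ.re + L) := by
      field_simp
    rw [e3]
    have e4 : -(L + 2) * ((1 - ρ.re) / (ρ.re + L)) = -((1 - ρ.re) * ((L + 2) / (ρ.re + L))) := by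
      ring
    rw [e4, neg_le_neg_iff]
    refine mul_le_mul_of_nonneg_left ?_ (by linarith)
    rw [div_le_iff₀ (by positivity)]
    have e5 : η * L = 2 := by rw [hLdef]; field_simp
    nlinarith [mul_pos hη h0]
  have h8 : c0 ^ (1 / θ) ≤ A ^ ((1 - θ) / θ) * lam ^ (-κ) * (E * nrmG J b) :=
    h6.trans (mul_le_mul_of_nonneg_right h7 (by positivity))
  rw [hc1]
  have hpos : 0 < A ^ ((1 - θ) / θ) * E := by positivity
  rw [div_mul_eq_mul_div, div_le_iff₀ hpos]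
  calc c0 ^ (1 / θ) * lam ^ κ ≤ (A ^ ((1 - θ) / θ) * lam ^ (-κ) * (E * nrmG J b)) * lam ^ κ := by
        gcongr
    _ = nrmG J b * (A ^ ((1 - θ) / θ) * E) * (lam ^ (-κ) * lam ^ κ) := by ring
    _ = nrmG J b * (A ^ ((1 - θ) / θ) * E) := by
      rw [← Real.rpow_add hl0, neg_add_cancel, Real.rpow_zero, mul_one]

end Pool.Agent.H24.NB
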