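import Pool.Agent.H24.NB.Defs

/-!
# The Mellin transform of `gfun`
-/

namespace Pool.Agent.H24.NB

open Complex Set MeasureTheory Filter Topology

lemma integrableOn_cpow_mul {s : ℂ} (hs : 1 < s.re) {f : ℝ → ℝ} (hf : Measurable f) {C : ℝ}
    (hC : ∀ x : ℝ, 1 < x → |f x| ≤ C * x) :
    IntegrableOn (fun x : ℝ => (f x : ℂ) * (x : ℂ) ^ (-(s + 1))) (Ioi 1) := by
  have h := (integrableOn_Ioi_rpow_of_lt (show (-s.re) < -1 by linarith) (zero_lt_one)).const_mul C
  refine Integrable.mono' h ?_ ?_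
  · refine AEStronglyMeasurable.mul ?_ ?_
    · exact (Complex.measurable_ofReal.comp hf).aestronglyMeasurable
    · refine ContinuousOn.aestronglyMeasurable ?_ measurableSet_Ioi
      intro x hx
      have hx0 : (0:ℝ) < x := lt_trans zero_lt_one hx
      exact (continuousAt_ofReal_cpow_const _ _ (Or.inr hx0.ne')).continuousWithinAt
  · refine (ae_restrict_iff' measurableSet_Ioi).2 (ae_of_all _ fun x hx => ?_)
    have hx1 : (1:ℝ) < x := hx
    have hx0 : (0:ℝ) < x := lt_trans zero_lt_one hx1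
    rw [norm_mul, Complex.norm_cpow_eq_rpow_re_of_pos hx0, Complex.norm_real, Real.norm_eq_abs]
    have e : (-(s + 1)).re = -s.re - 1 := by simp; ring
    rw [e]
    have e2 : x ^ (-s.re) = x * x ^ (-s.re - 1) := by
      rw [Real.rpow_sub hx0, Real.rpow_one]; field_simp
    rw [e2, ← mul_assoc]
    exact mul_le_mul_of_nonneg_right (hC x hx1) (Real.rpow_nonneg hx0.le _)

lemma sum_dvd_eq (k : ℕ) (M : ℕ) :
    ∑ n ∈ Finset.Icc 1 M, (if k ∣ n then (1:ℝ) else 0) = ((M / k : ℕ) : ℝ) := by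
  induction M with
  | zero => simp
  | succ M ih =>
    rw [Finset.sum_Icc_succ_top (by omega), ih, Nat.succ_div]
    split_ifs <;> push_cast <;> ring

lemma LSeries_dvd {s : ℂ} (hs : 1 < s.re) (k : ℕ) (hk : 1 ≤ k) :
    LSeries (fun n => ((if k ∣ n then (1:ℝ) else 0 : ℝ) : ℂ)) s = (k : ℂ) ^ (-s) * riemannZeta s := by
  rw [zeta_eq_tsum_one_div_nat_cpow hs, ← tsum_mul_left, LSeries]
  have hinj : Function.Injective (fun m : ℕ => k * m) := fun a b h =>
    Nat.eq_of_mul_eq_mul_left (by omega) h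
  have hs0 : s ≠ 0 := by rintro rfl; simp at hs; linarith
  rw [← hinj.tsum_eq]
  · refine tsum_congr fun m => ?_
    rcases Nat.eq_zero_or_pos m with rfl | hm
    · simp [hs0]
    · rw [LSeries.term_of_ne_zero (by positivity)]
      simp only [dvd_mul_right, if_true]
      rw [Nat.cast_mul, Complex.natCast_mul_natCast_cpow, Complex.cpow_neg]
      push_cast
      field_simp
  · intro n hn
    by_contra hcon
    apply hn
    rcases Nat.eq_zero_or_pos n with rfl | hn0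
    · simp
    · rw [LSeries.term_of_ne_zero (by omega)]
      have : ¬ k ∣ n := by
        intro ⟨m, hm⟩
        exact hcon ⟨m, hm.symm⟩
      simp [this]

lemma mellin_floor {s : ℂ} (hs : 1 < s.re) (k : ℕ) (hk : 1 ≤ k) :
    s * ∫ x in Ioi (1:ℝ), ((⌊x / k⌋ : ℝ) : ℂ) * (x : ℂ) ^ (-(s + 1)) =
      (k : ℂ) ^ (-s) * riemannZeta s := by
  have hO : (fun n : ℕ => ∑ j ∈ Finset.Icc 1 n, (if k ∣ j then (1:ℝ) else 0)) =O[atTop]
      fun n => (n : ℝ) ^ (1:ℝ) := by
    refine Asymptotics.IsBigO.of_bound 1 (Eventually.of_forall fun n => ?_)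
    rw [sum_dvd_eq k, Real.rpow_one, one_mul, Real.norm_eq_abs, Real.norm_eq_abs,
      abs_of_nonneg (Nat.cast_nonneg _), abs_of_nonneg (Nat.cast_nonneg _)]
    exact_mod_cast Nat.div_le_self n k
  have h := LSeries_eq_mul_integral_of_nonneg (fun n => if k ∣ n then (1:ℝ) else 0)
    zero_le_one (s := s) (by simpa using hs) hO (fun n => by split_ifs <;> norm_num)
  rw [← LSeries_dvd hs k hk, h]
  congr 1
  refine setIntegral_congr_fun measurableSet_Ioi fun x hx => ?_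
  have hx0 : (0:ℝ) ≤ x := (lt_trans zero_lt_one hx).le
  rw [floor_div_eq hx0, ← sum_dvd_eq k]
  push_cast
  rfl

lemma Bs_one (N : ℕ) (b : ℕ → ℝ) : Bs N b 1 = SS N b := by
  unfold Bs SS
  push_cast
  refine Finset.sum_congr rfl fun k _ => ?_
  rw [Complex.cpow_neg_one, div_eq_mul_inv]

lemma differentiable_Bs (N : ℕ) (b : ℕ → ℝ) : Differentiable ℂ (Bs N b) := by
  unfold Bs
  refine Differentiable.fun_sum fun k hk => ?_
  have hk0 : (k : ℂ) ≠ 0 := by
    have := (Finset.mem_Icc.1 hk).1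
    exact_mod_cast (by omega : k ≠ 0)
  refine (differentiable_const _).mul ?_
  exact fun s => (differentiableAt_id.neg).const_cpow (Or.inl hk0)

lemma HH_eq (N : ℕ) (b : ℕ → ℝ) {s : ℂ} (hs : s ≠ 1) :
    HH N b s = 1 - SS N b * (s / (s - 1)) + riemannZeta s * Bs N b s := by
  have h1 : s - 1 ≠ 0 := sub_ne_zero.2 hs
  unfold HH
  rw [dslope_of_ne _ hs, slope_def_field, Bs_one, riemannZeta_eq_inv_sub_add hs]
  field_simp
  ring

lemma HH_eq_mellin (N : ℕ) (b : ℕ → ℝ) {s : ℂ} (hs : 1 < s.re) :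
    HH N b s = s * ∫ x in Ioi (1:ℝ), (gfun N b x : ℂ) * (x : ℂ) ^ (-(s + 1)) := by
  have hs1 : s ≠ 1 := by rintro rfl; simp at hs
  have hs0 : s ≠ 0 := by rintro rfl; simp at hs; linarith
  have h1 : s - 1 ≠ 0 := sub_ne_zero.2 hs1
  rw [HH_eq N b hs1]
  have i1 : IntegrableOn (fun x : ℝ => ((1:ℝ) : ℂ) * (x : ℂ) ^ (-(s + 1))) (Ioi 1) :=
    integrableOn_cpow_mul hs measurable_const (C := 1) fun x hx => by
      rw [abs_one]; linarith
  have i2 : IntegrableOn (fun x : ℝ => ((SS N b * x : ℝ) : ℂ) * (x : ℂ) ^ (-(s + 1))) (Ioi 1) :=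
    integrableOn_cpow_mul hs (measurable_id.const_mul _) (C := |SS N b|) fun x hx => by
      rw [abs_mul, abs_of_pos (lt_trans zero_lt_one hx)]
  have hfl : ∀ k : ℕ, IntegrableOn
      (fun x : ℝ => (((⌊x / k⌋ : ℝ)) : ℂ) * (x : ℂ) ^ (-(s + 1))) (Ioi 1) := by
    intro k
    refine integrableOn_cpow_mul hs ?_ (C := 1) fun x hx => ?_
    · have : Measurable fun x : ℝ => ⌊x / (k:ℝ)⌋ := Int.measurable_floor.comp (measurable_id.div_const _)
      exact (measurable_from_top (f := fun z : ℤ => (z : ℝ))).comp this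
    · have hx0 : (0:ℝ) ≤ x := (lt_trans zero_lt_one hx).le
      rw [floor_div_eq hx0, abs_of_nonneg (Nat.cast_nonneg _), one_mul]
      refine le_trans ?_ (Nat.floor_le hx0)
      exact_mod_cast Nat.div_le_self _ _
  have i3 : IntegrableOn (fun x : ℝ => ∑ k ∈ Finset.Icc 1 N,
      (b k : ℂ) * (((⌊x / k⌋ : ℝ) : ℂ) * (x : ℂ) ^ (-(s + 1)))) (Ioi 1) :=
    integrable_finsetSum _ fun k _ => (hfl k).const_mul _
  have e1 : ∀ x : ℝ, (gfun N b x : ℂ) * (x : ℂ) ^ (-(s + 1)) =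
      ((1:ℝ) : ℂ) * (x : ℂ) ^ (-(s + 1)) - ((SS N b * x : ℝ) : ℂ) * (x : ℂ) ^ (-(s + 1)) +
      ∑ k ∈ Finset.Icc 1 N, (b k : ℂ) * (((⌊x / k⌋ : ℝ) : ℂ) * (x : ℂ) ^ (-(s + 1))) := by
    intro x
    rw [gfun_eq]
    push_cast
    rw [add_mul, sub_mul, Finset.sum_mul]
    congr 1
    refine Finset.sum_congr rfl fun k _ => by ring
  simp_rw [e1]
  have i12 : IntegrableOn (fun x : ℝ => ((1:ℝ) : ℂ) * (x : ℂ) ^ (-(s + 1)) -
      ((SS N b * x : ℝ) : ℂ) * (x : ℂ) ^ (-(s + 1))) (Ioi 1) := i1.sub i2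
  rw [integral_add i12 i3, integral_sub i1 i2, integral_finsetSum _
    (fun k _ => (hfl k).const_mul _)]
  have v1 : ∫ x in Ioi (1:ℝ), ((1:ℝ) : ℂ) * (x : ℂ) ^ (-(s + 1)) = 1 / s := by
    simp only [ofReal_one, one_mul]
    rw [integral_Ioi_cpow_of_lt (by simp; linarith) zero_lt_one]
    simp
  have v2 : ∫ x in Ioi (1:ℝ), ((SS N b * x : ℝ) : ℂ) * (x : ℂ) ^ (-(s + 1)) = SS N b / (s - 1) := by
    have : ∀ x ∈ Ioi (1:ℝ), ((SS N b * x : ℝ) : ℂ) * (x : ℂ) ^ (-(s + 1)) =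
        (SS N b : ℂ) * (x : ℂ) ^ (-s) := by
      intro x hx
      have hx0 : (x : ℂ) ≠ 0 := by
        have : (0:ℝ) < x := lt_trans zero_lt_one hx
        exact_mod_cast this.ne'
      push_cast
      rw [show -s = -(s + 1) + 1 by ring, Complex.cpow_add _ _ hx0, Complex.cpow_one]
      ring
    rw [setIntegral_congr_fun measurableSet_Ioi this, integral_const_mul,
      integral_Ioi_cpow_of_lt (by simpa using hs) zero_lt_one]
    simp only [ofReal_one, one_cpow]
    have h2 : -s + 1 ≠ 0 := by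
      intro h; apply h1; linear_combination -h
    field_simp
    ring
  rw [v1, v2]
  simp_rw [integral_const_mul]
  have v3 : s * ∑ k ∈ Finset.Icc 1 N, (b k : ℂ) *
      ∫ x in Ioi (1:ℝ), ((⌊x / k⌋ : ℝ) : ℂ) * (x : ℂ) ^ (-(s + 1)) = riemannZeta s * Bs N b s := by
    unfold Bs
    rw [Finset.mul_sum, Finset.mul_sum]
    refine Finset.sum_congr rfl fun k hk => ?_
    have := mellin_floor hs k (Finset.mem_Icc.1 hk).1
    linear_combination (b k : ℂ) * this
  rw [mul_add, v3]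
  field_simp

lemma norm_HH_le_of_one_lt (N : ℕ) (b : ℕ → ℝ) {s : ℂ} (hs : 1 < s.re) :
    ‖HH N b s‖ ≤ ‖s‖ * nrm N b := by
  rw [HH_eq_mellin N b hs, norm_mul]
  refine mul_le_mul_of_nonneg_left ?_ (norm_nonneg _)
  refine norm_integral_le_of_norm_le (integrableOn_nrm N b) ?_
  refine (ae_restrict_iff' measurableSet_Ioi).2 (ae_of_all _ fun x hx => ?_)
  have hx1 : (1:ℝ) < x := hx
  have hx0 : (0:ℝ) < x := lt_trans zero_lt_one hx1
  rw [norm_mul, Complex.norm_cpow_eq_rpow_re_of_pos hx0, Complex.norm_real, Real.norm_eq_abs,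
    div_eq_mul_inv]
  refine mul_le_mul_of_nonneg_left ?_ (abs_nonneg _)
  have e : (x ^ 2)⁻¹ = x ^ (-2:ℝ) := by
    rw [Real.rpow_neg hx0.le]; norm_num
  rw [e]
  refine Real.rpow_le_rpow_of_exponent_le hx1.le ?_
  simp
  linarith

lemma differentiable_HH (N : ℕ) (b : ℕ → ℝ) : Differentiable ℂ (HH N b) := by
  have h1 : Differentiable ℂ (dslope (Bs N b) 1) := by
    rw [← differentiableOn_univ]
    exact (Complex.differentiableOn_dslope univ_mem).2 (differentiable_Bs N b).differentiableOn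
  unfold HH
  exact ((differentiable_const _).add (differentiable_riemannZeta₀.mul (differentiable_Bs N b))).add h1

lemma norm_HH_le (N : ℕ) (b : ℕ → ℝ) {s : ℂ} (hs : 1 ≤ s.re) :
    ‖HH N b s‖ ≤ ‖s‖ * nrm N b := by
  have hc1 : Continuous fun e : ℝ => ‖HH N b (s + e)‖ := by
    exact ((differentiable_HH N b).continuous.comp
      (continuous_const.add Complex.continuous_ofReal)).norm
  have hc2 : Continuous fun e : ℝ => ‖s + e‖ * nrm N b :=
    ((continuous_const.add Complex.continuous_ofReal).norm).mul_const _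
  have h1 : Tendsto (fun e : ℝ => ‖HH N b (s + e)‖) (𝓝[>] 0) (𝓝 ‖HH N b (s + (0:ℝ))‖) :=
    (hc1.tendsto 0).mono_left nhdsWithin_le_nhds
  have h2 : Tendsto (fun e : ℝ => ‖s + e‖ * nrm N b) (𝓝[>] 0) (𝓝 (‖s + (0:ℝ)‖ * nrm N b)) :=
    (hc2.tendsto 0).mono_left nhdsWithin_le_nhds
  have h3 := le_of_tendsto_of_tendsto h1 h2 (by
    filter_upwards [self_mem_nhdsWithin] with e he
    have he0 : (0:ℝ) < e := he
    apply norm_HH_le_of_one_lt
    simp
    linarith)
  simpa using h3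

end Pool.Agent.H24.NB
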