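import Mathlib

/-!
# A crude growth bound for the Riemann zeta function in vertical strips

For every `L` there is `C` with `‖riemannZeta₀ s‖ ≤ C * exp (2 * |Im s|)` for `-L ≤ Re s ≤ 1`,
where `riemannZeta₀ s = ζ s - 1/(s-1)` (completed at `1`).
-/

namespace Pool.Agent.H24.NB

open Complex Set MeasureTheory Filter Topology

/-- The entire part of the completed function of a functional-equation pair is bounded in vertical
strips. -/
lemma Lambda0_bounded {E : Type*} [NormedAddCommGroup E] [NormedSpace ℂ E] [CompleteSpace E]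
    (P : WeakFEPair E) (a b : ℝ) :
    ∃ C : ℝ, 0 ≤ C ∧ ∀ s : ℂ, a ≤ s.re → s.re ≤ b → ‖P.Λ₀ s‖ ≤ C := by
  have hconv : ∀ x : ℝ, IntegrableOn (fun t : ℝ => t ^ (x - 1) * ‖P.f_modif t‖) (Ioi 0) := by
    intro x
    have h1 : MellinConvergent P.f_modif (x : ℂ) :=
      (P.isStrongFEPair_toStrongFEPair.hasMellin (x : ℂ)).1
    have h2 := h1.norm
    refine h2.congr ?_
    refine (ae_restrict_iff' measurableSet_Ioi).2 (ae_of_all _ fun t ht => ?_)
    simp only [norm_smul]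
    rw [Complex.norm_cpow_eq_rpow_re_of_pos ht]
    simp
  refine ⟨(∫ t in Ioi (0:ℝ), t ^ (a - 1) * ‖P.f_modif t‖) +
      ∫ t in Ioi (0:ℝ), t ^ (b - 1) * ‖P.f_modif t‖, ?_, ?_⟩
  · have h : ∀ x : ℝ, 0 ≤ ∫ t in Ioi (0:ℝ), t ^ (x - 1) * ‖P.f_modif t‖ := fun x =>
      setIntegral_nonneg measurableSet_Ioi fun t ht =>
        mul_nonneg (Real.rpow_nonneg (le_of_lt ht) _) (norm_nonneg _)
    exact add_nonneg (h a) (h b)
  · intro s ha hb
    rw [← integral_add (hconv a) (hconv b)]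
    have : P.Λ₀ s = ∫ t in Ioi (0:ℝ), (t:ℂ) ^ (s - 1) • P.f_modif t := rfl
    rw [this]
    refine norm_integral_le_of_norm_le ((hconv a).add (hconv b)) ?_
    refine (ae_restrict_iff' measurableSet_Ioi).2 (ae_of_all _ fun t ht => ?_)
    have ht0 : (0:ℝ) < t := ht
    rw [norm_smul, Complex.norm_cpow_eq_rpow_re_of_pos ht0, ← add_mul]
    refine mul_le_mul_of_nonneg_right ?_ (norm_nonneg _)
    simp only [sub_re, one_re]
    rcases le_total 1 t with h1 | h1
    · have := Real.rpow_le_rpow_of_exponent_le h1 (by linarith : s.re - 1 ≤ b - 1)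
      have h2 := Real.rpow_nonneg ht0.le (a - 1)
      linarith
    · have := Real.rpow_le_rpow_of_exponent_ge ht0 h1 (by linarith : a - 1 ≤ s.re - 1)
      have h2 := Real.rpow_nonneg ht0.le (b - 1)
      linarith

lemma completedZeta0_bounded (a b : ℝ) :
    ∃ C : ℝ, 0 ≤ C ∧ ∀ s : ℂ, a ≤ s.re → s.re ≤ b → ‖completedRiemannZeta₀ s‖ ≤ C := by
  obtain ⟨C, hC0, hC⟩ := Lambda0_bounded (HurwitzZeta.hurwitzEvenFEPair 0) (a / 2) (b / 2)
  refine ⟨C, hC0, fun s ha hb => ?_⟩
  have : completedRiemannZeta₀ s = ((HurwitzZeta.hurwitzEvenFEPair 0).Λ₀ (s / 2)) / 2 := rfl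
  rw [this, norm_div]
  have h1 := hC (s / 2) (by simp; linarith) (by simp; linarith)
  have h2 : ‖(2:ℂ)‖ = 2 := by simp
  rw [h2]
  have := norm_nonneg ((HurwitzZeta.hurwitzEvenFEPair 0).Λ₀ (s / 2))
  linarith

lemma norm_Gamma_le {s : ℂ} (hs : 0 < s.re) : ‖Complex.Gamma s‖ ≤ Real.Gamma s.re := by
  rw [Complex.Gamma_eq_integral hs, Real.Gamma_eq_integral hs, Complex.GammaIntegral]
  refine norm_integral_le_of_norm_le (Real.GammaIntegral_convergent hs) ?_
  refine (ae_restrict_iff' measurableSet_Ioi).2 (ae_of_all _ fun t ht => ?_)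
  have ht0 : (0:ℝ) < t := ht
  rw [norm_mul, Complex.norm_cpow_eq_rpow_re_of_pos ht0, Complex.norm_real, Real.norm_eq_abs,
    abs_of_pos (Real.exp_pos _)]
  simp

lemma norm_sin_le (z : ℂ) : ‖Complex.sin z‖ ≤ Real.exp |z.im| := by
  rw [Complex.sin]
  rw [norm_div, norm_mul]
  have h1 : ‖cexp (-z * I) - cexp (z * I)‖ ≤ 2 * Real.exp |z.im| := by
    refine (norm_sub_le _ _).trans ?_
    rw [Complex.norm_exp, Complex.norm_exp]
    have e1 : (-z * I).re = z.im := by simp
    have e2 : (z * I).re = -z.im := by simp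
    rw [e1, e2]
    have := Real.exp_le_exp.2 (le_abs_self z.im)
    have := Real.exp_le_exp.2 (neg_le_abs z.im)
    linarith
  simp only [Complex.norm_I, mul_one]
  have h2 : ‖(2:ℂ)‖ = 2 := by simp
  rw [h2]
  linarith

/-- `1/Γ(z)` has at most exponential growth in the strip `-A ≤ Re z ≤ 1/2`. -/
lemma inv_Gamma_bound (A : ℝ) : ∃ C : ℝ, 0 ≤ C ∧ ∀ z : ℂ, -A ≤ z.re → z.re ≤ 1/2 →
    ‖(Complex.Gamma z)⁻¹‖ ≤ C * Real.exp (Real.pi * |z.im|) := by
  have hcont : ContinuousOn Real.Gamma (Icc (1/2) (1 + max A 0)) := by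
    intro x hx
    have hx0 : 0 < x := by have := hx.1; linarith
    refine (Real.differentiableAt_Gamma fun m hm => ?_).continuousAt.continuousWithinAt
    have : (0:ℝ) ≤ m := Nat.cast_nonneg m
    linarith
  obtain ⟨C, hC⟩ := isCompact_Icc.exists_bound_of_continuousOn hcont
  have hC0 : 0 ≤ C := (norm_nonneg _).trans (hC (1/2) ⟨le_rfl, by
    have := le_max_right A 0; linarith⟩)
  refine ⟨C / Real.pi, by positivity, fun z hz1 hz2 => ?_⟩
  have hrefl := Complex.Gamma_mul_Gamma_one_sub z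
  have hne : Complex.Gamma (1 - z) ≠ 0 := by
    apply Complex.Gamma_ne_zero_of_re_pos
    simp; linarith
  have hpi : (Real.pi : ℂ) ≠ 0 := by exact_mod_cast Real.pi_ne_zero
  have key : (Complex.Gamma z)⁻¹ = Complex.Gamma (1 - z) * Complex.sin (Real.pi * z) / Real.pi := by
    by_cases hsin : Complex.sin (Real.pi * z) = 0
    · rw [hsin] at hrefl ⊢
      simp only [div_zero, mul_eq_zero, hne, or_false] at hrefl
      simp [hrefl]
    · have hG : Complex.Gamma z ≠ 0 := by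
        intro h
        rw [h, zero_mul] at hrefl
        exact div_ne_zero hpi hsin hrefl.symm
      rw [eq_div_iff hsin] at hrefl
      field_simp
      rw [mul_comm (Real.pi : ℂ) z] at *
      linear_combination (-1 : ℂ) * hrefl
  rw [key, norm_div, norm_mul]
  have h1 : ‖Complex.Gamma (1 - z)‖ ≤ C := by
    refine (norm_Gamma_le (by simp; linarith)).trans ?_
    refine (le_abs_self _).trans (hC _ ?_)
    simp only [sub_re, one_re]
    constructor
    · linarith
    · have := le_max_left A 0; linarith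
  have h2 : ‖Complex.sin (Real.pi * z)‖ ≤ Real.exp (Real.pi * |z.im|) := by
    refine (norm_sin_le _).trans ?_
    simp [abs_mul, abs_of_pos Real.pi_pos]
  have h3 : ‖(Real.pi : ℂ)‖ = Real.pi := by simp [abs_of_pos Real.pi_pos]
  rw [h3]
  have : ‖Complex.Gamma (1 - z)‖ * ‖Complex.sin (Real.pi * z)‖ ≤ C * Real.exp (Real.pi * |z.im|) :=
    mul_le_mul h1 h2 (norm_nonneg _) hC0
  calc _ ≤ C * Real.exp (Real.pi * |z.im|) / Real.pi := by gcongr
    _ = _ := by ring

/-- Crude bound for `ζ` away from the real axis. -/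
lemma zeta_crude_aux (L : ℝ) : ∃ C : ℝ, 0 ≤ C ∧ ∀ s : ℂ, -L ≤ s.re → s.re ≤ 1 →
    1 ≤ |s.im| → ‖riemannZeta s‖ ≤ C * Real.exp (2 * |s.im|) := by
  obtain ⟨C1, hC10, hC1⟩ := completedZeta0_bounded (-L) 1
  obtain ⟨C2, hC20, hC2⟩ := inv_Gamma_bound (L / 2)
  refine ⟨(C1 + 2) * (Real.pi * C2), by positivity, fun s h1 h2 h3 => ?_⟩
  have hs0 : s ≠ 0 := by
    rintro rfl
    simp at h3
    linarith
  have hns : 1 ≤ ‖s‖ := h3.trans (Complex.abs_im_le_norm s)
  have hn1s : 1 ≤ ‖1 - s‖ := by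
    refine h3.trans ?_
    have := Complex.abs_im_le_norm (1 - s)
    simpa using this
  rw [riemannZeta_eq_completedRiemannZeta₀ hs0, div_eq_mul_inv, mul_inv, norm_mul, norm_mul]
  have a1 : ‖completedRiemannZeta₀ s - 1 / s - 1 / (1 - s)‖ ≤ C1 + 2 := by
    refine (norm_sub_le _ _).trans ?_
    have := norm_sub_le (completedRiemannZeta₀ s) (1 / s)
    have b1 := hC1 s h1 h2
    have b2 : ‖1 / s‖ ≤ 1 := by
      rw [norm_div, norm_one]; exact (div_le_one (by linarith)).2 hns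
    have b3 : ‖1 / (1 - s)‖ ≤ 1 := by
      rw [norm_div, norm_one]; exact (div_le_one (by linarith)).2 hn1s
    linarith
  have a2 : ‖((Real.pi : ℂ) ^ (-s / 2))⁻¹‖ ≤ Real.pi := by
    rw [norm_inv, Complex.norm_cpow_eq_rpow_re_of_pos Real.pi_pos, ← Real.rpow_neg Real.pi_pos.le]
    have : -(-s / 2).re ≤ 1 := by simp; linarith
    calc Real.pi ^ (-(-s / 2).re) ≤ Real.pi ^ (1:ℝ) :=
          Real.rpow_le_rpow_of_exponent_le (by linarith [Real.pi_gt_three]) this
      _ = Real.pi := Real.rpow_one _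
  have a3 : ‖(Complex.Gamma (s / 2))⁻¹‖ ≤ C2 * Real.exp (2 * |s.im|) := by
    refine (hC2 (s / 2) (by simp; linarith) (by simp; linarith)).trans ?_
    have : Real.pi * |(s / 2).im| ≤ 2 * |s.im| := by
      have e : (s / 2).im = s.im / 2 := by simp
      rw [e, abs_div, abs_two]
      have := Real.pi_lt_four
      have h0 := abs_nonneg s.im
      nlinarith
    have := Real.exp_le_exp.2 this
    gcongr
  calc _ ≤ (C1 + 2) * (Real.pi * (C2 * Real.exp (2 * |s.im|))) := by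
        gcongr
    _ = _ := by ring

theorem zeta0_crude (L : ℝ) : ∃ C : ℝ, 0 ≤ C ∧ ∀ s : ℂ, -L ≤ s.re → s.re ≤ 1 →
    ‖riemannZeta₀ s‖ ≤ C * Real.exp (2 * |s.im|) := by
  obtain ⟨C1, hC10, hC1⟩ := zeta_crude_aux L
  have hcpt : IsCompact ((Icc (-L) 1) ×ℂ (Icc (-1) 1)) := isCompact_Icc.reProdIm isCompact_Icc
  obtain ⟨C2, hC2⟩ := hcpt.exists_bound_of_continuousOn
    (differentiable_riemannZeta₀.continuous.continuousOn)
  refine ⟨C1 + 1 + |C2|, by positivity, fun s h1 h2 => ?_⟩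
  have hexp : 1 ≤ Real.exp (2 * |s.im|) := Real.one_le_exp (by positivity)
  rcases le_or_gt 1 |s.im| with h | h
  · have hs1 : s ≠ 1 := by
      rintro rfl
      simp at h
      linarith
    have hn1s : 1 ≤ ‖s - 1‖ := by
      refine h.trans ?_
      have := Complex.abs_im_le_norm (s - 1)
      simpa using this
    have e : riemannZeta₀ s = riemannZeta s - (s - 1)⁻¹ := by
      rw [riemannZeta_eq_inv_sub_add hs1]; ring
    rw [e]
    have b1 := norm_sub_le (riemannZeta s) (s - 1)⁻¹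
    have b2 := hC1 s h1 h2 h
    have b3 : ‖(s - 1)⁻¹‖ ≤ 1 := by
      rw [norm_inv]; exact inv_le_one_of_one_le₀ hn1s
    have b4 : 0 ≤ |C2| * Real.exp (2 * |s.im|) := by positivity
    nlinarith
  · have hm : s ∈ (Icc (-L) 1) ×ℂ (Icc (-1) 1) := by
      rw [Complex.mem_reProdIm]
      exact ⟨⟨h1, h2⟩, abs_le.1 h.le⟩
    have b1 := (hC2 s hm).trans (le_abs_self C2)
    have b2 : 0 ≤ (C1 + 1) := by positivity
    have b3 := abs_nonneg C2
    nlinarith

end Pool.Agent.H24.NB
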