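import Pool.Agent.H24.NB.Coeff
import Pool.Agent.H24.NB.Mellin
import Pool.Agent.H24.NB.ZetaCrude

/-!
# The lower bound: every zero of zeta obstructs `L¹` approximation
-/

namespace Pool.Agent.H24.NB

open Complex Set MeasureTheory Filter Topology

lemma norm_Bs_le (N : ℕ) (b : ℕ → ℝ) (hb : nrm N b ≤ 1) {L : ℝ} (hL : 0 ≤ L) {s : ℂ}
    (hs : -L ≤ s.re) : ‖Bs N b s‖ ≤ 53 * (N:ℝ) ^ (L + 4) := by
  rcases Nat.eq_zero_or_pos N with rfl | hN
  · simp [Bs]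
    rw [Real.zero_rpow (by linarith)]
  have hN0 : (0:ℝ) < N := by exact_mod_cast hN
  have h1 : ∀ k ∈ Finset.Icc 1 N, ‖(b k : ℂ) * (k : ℂ) ^ (-s)‖ ≤ 53 * (N:ℝ) ^ (L + 3) := by
    intro k hk
    obtain ⟨hk1, hk2⟩ := Finset.mem_Icc.1 hk
    have hk0 : (0:ℝ) < k := by exact_mod_cast hk1
    have hk1' : (1:ℝ) ≤ k := by exact_mod_cast hk1
    have hkN : (k:ℝ) ≤ N := by exact_mod_cast hk2
    rw [norm_mul, Complex.norm_real, Real.norm_eq_abs, Complex.norm_natCast_cpow_of_pos hk1]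
    have h2 := abs_coeff_le N b hb k hk1 hk2
    have h3 : (k:ℝ) ^ (-s).re ≤ (k:ℝ) ^ L :=
      Real.rpow_le_rpow_of_exponent_le hk1' (by simp; linarith)
    have h4 : (k:ℝ) ^ 3 * (k:ℝ) ^ L = (k:ℝ) ^ (L + 3) := by
      rw [Real.rpow_add hk0, mul_comm]; norm_num
    calc |b k| * (k:ℝ) ^ (-s).re ≤ (53 * (k:ℝ) ^ 3) * (k:ℝ) ^ L := by gcongr
      _ = 53 * (k:ℝ) ^ (L + 3) := by rw [mul_assoc, h4]
      _ ≤ 53 * (N:ℝ) ^ (L + 3) := by
        gcongr
  unfold Bs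
  refine (norm_sum_le_of_le _ h1).trans ?_
  rw [Finset.sum_const, Nat.card_Icc, nsmul_eq_mul]
  have h5 : (N:ℝ) ^ (L + 4) = (N:ℝ) ^ (L + 3) * N := by
    rw [show L + 4 = (L + 3) + 1 by ring, Real.rpow_add hN0, Real.rpow_one]
  rw [h5]
  simp only [Nat.add_sub_cancel]
  apply le_of_eq
  ring

/-- Bound for `HH` on the left line. -/
lemma norm_HH_left (N : ℕ) (hN : 1 ≤ N) (b : ℕ → ℝ) (hb : nrm N b ≤ 1) {L C : ℝ} (hL : 0 ≤ L)
    (hC0 : 0 ≤ C)
    (hC : ∀ s : ℂ, -L ≤ s.re → s.re ≤ 1 → ‖riemannZeta₀ s‖ ≤ C * Real.exp (2 * |s.im|))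
    {s : ℂ} (hs : s.re = -L) :
    ‖HH N b s‖ ≤ (102 + 53 * C) * (N:ℝ) ^ (L + 4) * Real.exp (2 * |s.im|) := by
  have hN1 : (1:ℝ) ≤ N := by exact_mod_cast hN
  have hP : 1 ≤ (N:ℝ) ^ (L + 4) := Real.one_le_rpow hN1 (by linarith)
  have hE : 1 ≤ Real.exp (2 * |s.im|) := Real.one_le_exp (by positivity)
  have hS := abs_SS_le N b
  have hB := norm_Bs_le N b hb hL hs.ge
  have hZ := hC s hs.ge (by linarith)
  have hs1 : s ≠ 1 := by
    rintro rfl
    simp at hs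
    linarith
  have hn1 : 1 ≤ ‖s - 1‖ := by
    have h := Complex.abs_re_le_norm (s - 1)
    have h2 : |(s - 1).re| = L + 1 := by
      rw [sub_re, one_re, hs, abs_of_neg (by linarith)]; ring
    linarith
  have hd : ‖dslope (Bs N b) 1 s‖ ≤ 53 * (N:ℝ) ^ (L + 4) + 24 := by
    rw [dslope_of_ne _ hs1, slope_def_field, Bs_one, norm_div]
    refine (div_le_self (norm_nonneg _) hn1).trans ?_
    refine (norm_sub_le _ _).trans ?_
    rw [Complex.norm_real, Real.norm_eq_abs]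
    linarith
  unfold HH
  have h1 : ‖(1:ℂ) - SS N b‖ ≤ 25 := by
    refine (norm_sub_le _ _).trans ?_
    rw [norm_one, Complex.norm_real, Real.norm_eq_abs]
    linarith
  have h2 : ‖riemannZeta₀ s * Bs N b s‖ ≤ (C * Real.exp (2 * |s.im|)) * (53 * (N:ℝ) ^ (L + 4)) := by
    rw [norm_mul]
    gcongr
  refine (norm_add_le _ _).trans ?_
  have h3 := norm_add_le ((1:ℂ) - SS N b) (riemannZeta₀ s * Bs N b s)
  set P := (N:ℝ) ^ (L + 4)
  set E := Real.exp (2 * |s.im|)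
  have h4 : 1 ≤ P * E := by nlinarith
  have h5 : P ≤ P * E := by nlinarith
  calc _ ≤ 25 + (C * E) * (53 * P) + (53 * P + 24) := by linarith
    _ ≤ 25 * (P * E) + (C * E) * (53 * P) + (53 * (P * E) + 24 * (P * E)) := by nlinarith
    _ = _ := by ring

/-- For each `N`, `b`, `HH` has at most exponential growth in the strip. -/
lemma norm_HH_strip (N : ℕ) (b : ℕ → ℝ) {L C : ℝ} (hL : 0 ≤ L)
    (hC0 : 0 ≤ C)
    (hC : ∀ s : ℂ, -L ≤ s.re → s.re ≤ 1 → ‖riemannZeta₀ s‖ ≤ C * Real.exp (2 * |s.im|)) :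
    ∃ K : ℝ, ∀ s : ℂ, -L ≤ s.re → s.re ≤ 1 → ‖HH N b s‖ ≤ K * Real.exp (2 * |s.im|) := by
  -- bound for Bs
  set B := ∑ k ∈ Finset.Icc 1 N, |b k| * (k:ℝ) ^ L with hBdef
  have hB0 : 0 ≤ B := Finset.sum_nonneg fun k _ => by positivity
  have hB : ∀ s : ℂ, -L ≤ s.re → ‖Bs N b s‖ ≤ B := by
    intro s hs
    unfold Bs
    refine norm_sum_le_of_le _ fun k hk => ?_
    obtain ⟨hk1, hk2⟩ := Finset.mem_Icc.1 hk
    have hk1' : (1:ℝ) ≤ k := by exact_mod_cast hk1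
    rw [norm_mul, Complex.norm_real, Real.norm_eq_abs, Complex.norm_natCast_cpow_of_pos hk1]
    have h3 : (k:ℝ) ^ (-s).re ≤ (k:ℝ) ^ L :=
      Real.rpow_le_rpow_of_exponent_le hk1' (by simp; linarith)
    gcongr
  have hcd : Continuous (dslope (Bs N b) 1) := by
    have h1 : Differentiable ℂ (dslope (Bs N b) 1) := by
      rw [← differentiableOn_univ]
      exact (Complex.differentiableOn_dslope univ_mem).2 (differentiable_Bs N b).differentiableOn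
    exact h1.continuous
  obtain ⟨D, hD⟩ := (isCompact_closedBall (1:ℂ) 1).exists_bound_of_continuousOn hcd.continuousOn
  have hd : ∀ s : ℂ, -L ≤ s.re → ‖dslope (Bs N b) 1 s‖ ≤ |D| + (B + |SS N b|) := by
    intro s hs
    rcases le_or_gt ‖s - 1‖ 1 with h | h
    · have := hD s (by rw [Metric.mem_closedBall, dist_eq_norm]; exact h)
      have h2 := le_abs_self D
      have h3 := abs_nonneg (SS N b)
      linarith
    · have hs1 : s ≠ 1 := by
        rintro rfl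
        simp at h
        linarith
      rw [dslope_of_ne _ hs1, slope_def_field, Bs_one, norm_div]
      refine (div_le_self (norm_nonneg _) h.le).trans ?_
      refine (norm_sub_le _ _).trans ?_
      rw [Complex.norm_real, Real.norm_eq_abs]
      have h1 := hB s hs
      have h2 := abs_nonneg D
      linarith
  refine ⟨1 + |SS N b| + C * B + (|D| + (B + |SS N b|)), fun s h1 h2 => ?_⟩
  have hE : 1 ≤ Real.exp (2 * |s.im|) := Real.one_le_exp (by positivity)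
  unfold HH
  have h3 : ‖(1:ℂ) - SS N b‖ ≤ 1 + |SS N b| := by
    refine (norm_sub_le _ _).trans ?_
    rw [norm_one, Complex.norm_real, Real.norm_eq_abs]
  have h4 : ‖riemannZeta₀ s * Bs N b s‖ ≤ (C * Real.exp (2 * |s.im|)) * B := by
    rw [norm_mul]
    exact mul_le_mul (hC s h1 h2) (hB s h1) (norm_nonneg _) (by positivity)
  have h5 := hd s h1
  refine (norm_add_le _ _).trans ?_
  have h6 := norm_add_le ((1:ℂ) - SS N b) (riemannZeta₀ s * Bs N b s)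
  set E := Real.exp (2 * |s.im|)
  have h7 : 0 ≤ 1 + |SS N b| := by positivity
  have h8 : 0 ≤ |D| + (B + |SS N b|) := by positivity
  nlinarith

lemma norm_exp_sq_le {ρ s : ℂ} {L : ℝ} (hL : 0 ≤ L) (h0 : 0 < ρ.re) (h1 : ρ.re < 1)
    (hs1 : -L ≤ s.re) (hs2 : s.re ≤ 1) :
    Real.exp (2 * |s.im|) * ‖cexp ((s - ρ) ^ 2)‖ ≤ Real.exp ((L + 1) ^ 2 + 2 * |ρ.im| + 1) := by
  rw [Complex.norm_exp, ← Real.exp_add]
  apply Real.exp_le_exp.2
  have e : ((s - ρ) ^ 2).re = (s.re - ρ.re) ^ 2 - (s.im - ρ.im) ^ 2 := by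
    rw [sq, mul_re, sub_re, sub_im]; ring
  rw [e]
  have h2 : (s.re - ρ.re) ^ 2 ≤ (L + 1) ^ 2 := by
    exact sq_le_sq' (by linarith) (by linarith)
  have h3 : |s.im| ≤ |ρ.im| + |s.im - ρ.im| := by
    have := abs_add_le ρ.im (s.im - ρ.im)
    simpa using this
  have h4 : 2 * |s.im - ρ.im| ≤ 1 + (s.im - ρ.im) ^ 2 := by
    have := sq_nonneg (|s.im - ρ.im| - 1)
    have h5 := sq_abs (s.im - ρ.im)
    nlinarith
  linarith

/-- The three-lines estimate. -/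
lemma three_lines (N : ℕ) (hN : 1 ≤ N) (b : ℕ → ℝ) (hb : nrm N b ≤ 1) {L C : ℝ} (hL : 0 ≤ L)
    (hC0 : 0 ≤ C)
    (hC : ∀ s : ℂ, -L ≤ s.re → s.re ≤ 1 → ‖riemannZeta₀ s‖ ≤ C * Real.exp (2 * |s.im|))
    {ρ : ℂ} (h0 : 0 < ρ.re) (h1 : ρ.re < 1) :
    ‖HH N b ρ‖ ≤ ((102 + 53 * C) * (N:ℝ) ^ (L + 4) *
        Real.exp ((L + 1) ^ 2 + 2 * |ρ.im| + 1)) ^ (1 - (ρ.re + L) / (1 + L)) *
      (Real.exp ((L + 1) ^ 2 + 2 * |ρ.im| + 1) * nrm N b) ^ ((ρ.re + L) / (1 + L)) := by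
  set E := Real.exp ((L + 1) ^ 2 + 2 * |ρ.im| + 1) with hE
  have hE0 : 0 < E := Real.exp_pos _
  set F : ℂ → ℂ := fun s => HH N b s * cexp ((s - ρ) ^ 2) with hF
  have hFd : Differentiable ℂ F := by
    refine (differentiable_HH N b).mul ?_
    exact ((differentiable_id.sub_const ρ).pow 2).cexp
  have hnF : ∀ s : ℂ, -L ≤ s.re → s.re ≤ 1 → ∀ K : ℝ, 0 ≤ K →
      ‖HH N b s‖ ≤ K * Real.exp (2 * |s.im|) → ‖F s‖ ≤ K * E := by
    intro s hs1 hs2 K hK h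
    rw [hF]
    simp only [norm_mul]
    have h3 := norm_exp_sq_le hL h0 h1 hs1 hs2
    calc ‖HH N b s‖ * ‖cexp ((s - ρ) ^ 2)‖
        ≤ (K * Real.exp (2 * |s.im|)) * ‖cexp ((s - ρ) ^ 2)‖ := by gcongr
      _ = K * (Real.exp (2 * |s.im|) * ‖cexp ((s - ρ) ^ 2)‖) := by ring
      _ ≤ K * E := by gcongr
  have hmem : ρ ∈ Complex.HadamardThreeLines.verticalClosedStrip (-L) 1 := by
    simp only [Complex.HadamardThreeLines.verticalClosedStrip, mem_preimage, mem_Icc]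
    constructor <;> linarith
  have hbdd : BddAbove ((norm ∘ F) '' Complex.HadamardThreeLines.verticalClosedStrip (-L) 1) := by
    obtain ⟨K, hK⟩ := norm_HH_strip N b hL hC0 hC
    refine ⟨|K| * E, ?_⟩
    rintro _ ⟨s, hs, rfl⟩
    simp only [Complex.HadamardThreeLines.verticalClosedStrip, mem_preimage, mem_Icc] at hs
    refine hnF s hs.1 hs.2 |K| (abs_nonneg K) ?_
    refine (hK s hs.1 hs.2).trans ?_
    gcongr
    exact le_abs_self K
  have hleft : ∀ s ∈ re ⁻¹' {-L}, ‖F s‖ ≤ (102 + 53 * C) * (N:ℝ) ^ (L + 4) * E := by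
    intro s hs
    have hs' : s.re = -L := hs
    exact hnF s hs'.ge (by linarith) _ (by positivity) (norm_HH_left N hN b hb hL hC0 hC hs')
  have hright : ∀ s ∈ re ⁻¹' {(1:ℝ)}, ‖F s‖ ≤ E * nrm N b := by
    intro s hs
    have hs' : s.re = 1 := hs
    rw [mul_comm E]
    refine hnF s (by linarith) hs'.le _ (nrm_nonneg N b) ?_
    have h2 := norm_HH_le N b hs'.ge
    have h3 : ‖s‖ ≤ Real.exp (2 * |s.im|) := by
      have h4 := Complex.norm_le_abs_re_add_abs_im s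
      rw [hs', abs_one] at h4
      have h5 := Real.add_one_le_exp (2 * |s.im|)
      have h6 := abs_nonneg s.im
      linarith
    calc ‖HH N b s‖ ≤ ‖s‖ * nrm N b := h2
      _ ≤ Real.exp (2 * |s.im|) * nrm N b := by
        have := nrm_nonneg N b
        gcongr
      _ = _ := mul_comm _ _
  have hlt : -L < 1 := by linarith
  have key := Complex.HadamardThreeLines.norm_le_interp_of_mem_verticalClosedStrip' hlt hmem
    hFd.diffContOnCl hbdd hleft hright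
  have e1 : F ρ = HH N b ρ := by
    rw [hF]; simp
  rw [e1] at key
  have e2 : (ρ.re - -L) / (1 - -L) = (ρ.re + L) / (1 + L) := by ring_nf
  rw [e2] at key
  exact key

/-- **Lower bound.** Every zero `ρ` of the Riemann zeta function with `0 < Re ρ < 1` forces
`nrm N b ≥ c N^{-(1 - Re ρ)(1 + η)}` for all `N` and all coefficients `b`. -/
theorem lower {ρ : ℂ} (hρ : riemannZeta ρ = 0) (h0 : 0 < ρ.re) (h1 : ρ.re < 1) {η : ℝ}
    (hη : 0 < η) :
    ∃ c : ℝ, 0 < c ∧ ∀ N : ℕ, 1 ≤ N → ∀ b : ℕ → ℝ,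
      c * (N:ℝ) ^ (-((1 - ρ.re) * (1 + η))) ≤ nrm N b := by
  set L : ℝ := 4 / η with hLdef
  have hL : 0 < L := by positivity
  obtain ⟨C, hC0, hC⟩ := zeta0_crude L
  set E := Real.exp ((L + 1) ^ 2 + 2 * |ρ.im| + 1) with hE
  have hE0 : 0 < E := Real.exp_pos _
  set θ : ℝ := (ρ.re + L) / (1 + L) with hθ
  have hθ0 : 0 < θ := by positivity
  have hθ1 : 1 - θ = (1 - ρ.re) / (1 + L) := by
    rw [hθ]; field_simp; ring
  have hρ1 : ρ ≠ 1 := by rintro rfl; simp at h1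
  have hρ0 : ρ ≠ 0 := by rintro rfl; simp at h0
  have hn1 : 0 < ‖ρ - 1‖ := norm_pos_iff.2 (sub_ne_zero.2 hρ1)
  have hn0 : 0 < ‖ρ‖ := norm_pos_iff.2 hρ0
  set A : ℝ := (102 + 53 * C) * E with hA
  have hA0 : 0 < A := by positivity
  set c1 : ℝ := (1 / 2) ^ (1 / θ) / (A ^ ((1 - θ) / θ) * E) with hc1
  have hc10 : 0 < c1 := by positivity
  refine ⟨min 1 (min (‖ρ - 1‖ / (48 * ‖ρ‖)) c1), by positivity, fun N hN b => ?_⟩
  have hN1 : (1:ℝ) ≤ N := by exact_mod_cast hN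
  have hN0 : (0:ℝ) < N := by linarith
  set κ := (1 - ρ.re) * (1 + η) with hκ
  have hκ0 : 0 ≤ κ := by
    have : 0 ≤ 1 - ρ.re := by linarith
    positivity
  have hP1 : (N:ℝ) ^ (-κ) ≤ 1 := Real.rpow_le_one_of_one_le_of_nonpos hN1 (by linarith)
  have hP0 : 0 < (N:ℝ) ^ (-κ) := Real.rpow_pos_of_pos hN0 _
  set c := min 1 (min (‖ρ - 1‖ / (48 * ‖ρ‖)) c1) with hc
  have hc0 : 0 < c := by positivity
  by_contra hcon
  push Not at hcon
  have hε1 : nrm N b ≤ 1 := by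
    have h2 : c ≤ 1 := min_le_left _ _
    nlinarith
  have hε2 : nrm N b ≤ ‖ρ - 1‖ / (48 * ‖ρ‖) := by
    have h2 : c ≤ ‖ρ - 1‖ / (48 * ‖ρ‖) := (min_le_right _ _).trans (min_le_left _ _)
    nlinarith
  have hε3 : nrm N b < c1 * (N:ℝ) ^ (-κ) := by
    have h2 : c ≤ c1 := (min_le_right _ _).trans (min_le_right _ _)
    nlinarith
  -- lower bound for HH at ρ
  have hH : 1 / 2 ≤ ‖HH N b ρ‖ := by
    rw [HH_eq N b hρ1, hρ, zero_mul, add_zero]
    have h3 : ‖(SS N b : ℂ) * (ρ / (ρ - 1))‖ ≤ 1 / 2 := by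
      rw [norm_mul, norm_div, Complex.norm_real, Real.norm_eq_abs]
      have h4 := abs_SS_le N b
      calc |SS N b| * (‖ρ‖ / ‖ρ - 1‖) ≤ (24 * (‖ρ - 1‖ / (48 * ‖ρ‖))) * (‖ρ‖ / ‖ρ - 1‖) := by
            gcongr
            linarith
        _ = 1 / 2 := by field_simp; norm_num
    have h5 := norm_sub_norm_le (1:ℂ) ((SS N b : ℂ) * (ρ / (ρ - 1)))
    rw [norm_one] at h5
    linarith
  have h3 := three_lines N hN b hε1 hL.le hC0 hC h0 h1
  rw [← hE, ← hθ] at h3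
  have h4 : 1 / 2 ≤ (A * (N:ℝ) ^ (L + 4)) ^ (1 - θ) * (E * nrm N b) ^ θ := by
    refine hH.trans (h3.trans (le_of_eq ?_))
    rw [hA]
    congr 2
    ring
  have hε0 := nrm_nonneg N b
  -- raise to the power 1/θ
  have h5 : (1 / 2 : ℝ) ^ (1 / θ) ≤ (A * (N:ℝ) ^ (L + 4)) ^ ((1 - θ) / θ) * (E * nrm N b) := by
    have h6 := Real.rpow_le_rpow (by norm_num) h4 (by positivity : 0 ≤ 1 / θ)
    rw [Real.mul_rpow (by positivity) (by positivity), ← Real.rpow_mul (by positivity),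
      ← Real.rpow_mul (by positivity)] at h6
    have e1 : (1 - θ) * (1 / θ) = (1 - θ) / θ := by ring
    have e2 : θ * (1 / θ) = 1 := by field_simp
    rwa [e1, e2, Real.rpow_one] at h6
  have h7 : (A * (N:ℝ) ^ (L + 4)) ^ ((1 - θ) / θ) ≤ A ^ ((1 - θ) / θ) * (N:ℝ) ^ κ := by
    rw [Real.mul_rpow hA0.le (by positivity), ← Real.rpow_mul hN0.le]
    refine mul_le_mul_of_nonneg_left ?_ (by positivity)
    refine Real.rpow_le_rpow_of_exponent_le hN1 ?_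
    rw [hθ1, hθ, hκ]
    have e3 : (1 - ρ.re) / (1 + L) / ((ρ.re + L) / (1 + L)) = (1 - ρ.re) / (ρ.re + L) := by
      field_simp
    rw [e3]
    have e4 : (L + 4) * ((1 - ρ.re) / (ρ.re + L)) = (1 - ρ.re) * ((L + 4) / (ρ.re + L)) := by ring
    rw [e4]
    refine mul_le_mul_of_nonneg_left ?_ (by linarith)
    rw [div_le_iff₀ (by positivity)]
    have e5 : η * L = 4 := by rw [hLdef]; field_simp
    nlinarith [mul_pos hη h0]
  have h8 : (1 / 2 : ℝ) ^ (1 / θ) ≤ A ^ ((1 - θ) / θ) * (N:ℝ) ^ κ * (E * nrm N b) :=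
    h5.trans (mul_le_mul_of_nonneg_right h7 (by positivity))
  have h9 : nrm N b < (1 / 2) ^ (1 / θ) / (A ^ ((1 - θ) / θ) * E) * (N:ℝ) ^ (-κ) := hε3
  have h10 : A ^ ((1 - θ) / θ) * (N:ℝ) ^ κ * (E * nrm N b) < (1 / 2) ^ (1 / θ) := by
    have hpos : 0 < A ^ ((1 - θ) / θ) * (N:ℝ) ^ κ * E := by positivity
    calc A ^ ((1 - θ) / θ) * (N:ℝ) ^ κ * (E * nrm N b)
        = (A ^ ((1 - θ) / θ) * (N:ℝ) ^ κ * E) * nrm N b := by ring
      _ < (A ^ ((1 - θ) / θ) * (N:ℝ) ^ κ * E) *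
          ((1 / 2) ^ (1 / θ) / (A ^ ((1 - θ) / θ) * E) * (N:ℝ) ^ (-κ)) :=
          mul_lt_mul_of_pos_left h9 hpos
      _ = (1 / 2) ^ (1 / θ) := by
        rw [Real.rpow_neg hN0.le]
        field_simp
  linarith

end Pool.Agent.H24.NB
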