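import Pool.Agent.H24.NB.General

/-!
# The lower bound in `L^p`

The `L^p(0,1)` distance of `1` to a Beurling function `∑ b θ {θ / x}` (`θ ∈ J ⊆ [λ, 1]`) is at
least `c λ^κ` for every `κ > max(0, 1/p - Re ρ)`, `ρ` a nontrivial zero of zeta.
-/

namespace Pool.Agent.H24.NB

open Complex Set MeasureTheory Filter Topology Pool.Agent.H6

/-- The `L^p` norm of `1 - ∑ b θ {θ x}` on `(1, ∞)` with respect to `dx / x²`. -/
noncomputable def nrmP (p : ℝ) (J : Finset ℝ) (b : ℝ → ℝ) : ℝ :=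
  (∫ x in Ioi (1:ℝ), |gG J b x| ^ p / x ^ 2) ^ (1 / p)

lemma nrmP_nonneg (p : ℝ) (J : Finset ℝ) (b : ℝ → ℝ) : 0 ≤ nrmP p J b :=
  Real.rpow_nonneg (setIntegral_nonneg measurableSet_Ioi fun x _ =>
    div_nonneg (Real.rpow_nonneg (abs_nonneg _) _) (by positivity)) _

lemma nrmP_one (J : Finset ℝ) (b : ℝ → ℝ) : nrmP 1 J b = nrmG J b := by
  unfold nrmP nrmG
  simp

/-- Change of variables `x ↦ 1/x`. -/
lemma integral_eq_nrmP (p : ℝ) (J : Finset ℝ) (b : ℝ → ℝ) :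
    (∫ x in (0:ℝ)..1, |1 - ∑ θ ∈ J, b θ * Int.fract (θ / x)| ^ p) ^ (1 / p) = nrmP p J b := by
  unfold nrmP
  congr 1
  rw [intervalIntegral.integral_of_le zero_le_one, integral_Ioc_eq_integral_Ioo]
  have himg : (fun x : ℝ => x⁻¹) '' Ioi 1 = Ioo 0 1 := by
    ext y
    simp only [mem_image, mem_Ioi, mem_Ioo]
    constructor
    · rintro ⟨x, hx, rfl⟩
      exact ⟨by positivity, inv_lt_one_of_one_lt₀ hx⟩
    · rintro ⟨h0, h1⟩
      exact ⟨y⁻¹, (one_lt_inv₀ h0).2 h1, inv_inv y⟩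
  rw [← himg, integral_image_eq_integral_abs_deriv_smul (f' := fun x => -(x ^ 2)⁻¹)
    measurableSet_Ioi]
  · refine setIntegral_congr_fun measurableSet_Ioi fun x hx => ?_
    have hx0 : (0:ℝ) < x := lt_trans zero_lt_one hx
    simp only [smul_eq_mul]
    rw [abs_neg, abs_of_pos (by positivity), div_eq_mul_inv, mul_comm]
    congr 3
    unfold gG
    congr 1
    refine Finset.sum_congr rfl fun θ _ => ?_
    congr 2
    rw [div_eq_mul_inv, inv_inv]
  · intro x hx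
    have hx0 : (0:ℝ) < x := lt_trans zero_lt_one hx
    exact (hasDerivAt_inv hx0.ne').hasDerivWithinAt
  · intro x _ y _ h
    exact inv_injective h

/-- The Mellin representation in the larger half-plane `Re s > 0`. -/
lemma HG_eq_mellin_pos {J : Finset ℝ} (hJ : ∀ θ ∈ J, 0 < θ ∧ θ ≤ 1) (b : ℝ → ℝ) {s : ℂ}
    (hs : 0 < s.re) :
    HG J b s = s * ∫ x in Ioi (1:ℝ), (gG J b x : ℂ) * (x : ℂ) ^ (-(s + 1)) := by
  set f : ℝ → ℂ := (Ioi (1:ℝ)).indicator (fun x => (gG J b x : ℂ)) with hf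
  have hm : ∀ s : ℂ, mellin f (-s) =
      ∫ x in Ioi (1:ℝ), (gG J b x : ℂ) * (x : ℂ) ^ (-(s + 1)) := by
    intro s
    have e1 : ∀ x : ℝ, (x : ℂ) ^ (-s - 1) • f x =
        (Ioi (1:ℝ)).indicator (fun x : ℝ => (gG J b x : ℂ) * (x : ℂ) ^ (-(s + 1))) x := by
      intro x
      rw [hf]
      by_cases hx : x ∈ Ioi (1:ℝ)
      · rw [indicator_of_mem hx, indicator_of_mem hx, smul_eq_mul, mul_comm]
        congr 2
        ring
      · rw [indicator_of_notMem hx, indicator_of_notMem hx, smul_zero]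
    unfold mellin
    simp_rw [e1]
    rw [setIntegral_indicator measurableSet_Ioi]
    congr 2
    rw [Ioi_inter_Ioi]
    norm_num
  have hmeas : Measurable f :=
    (Complex.measurable_ofReal.comp (measurable_gG J b)).indicator measurableSet_Ioi
  set M : ℝ := 1 + ∑ θ ∈ J, |b θ| with hM
  have hbd : ∀ x, ‖f x‖ ≤ M := by
    intro x
    rw [hf]
    by_cases hx : x ∈ Ioi (1:ℝ)
    · rw [indicator_of_mem hx, Complex.norm_real, Real.norm_eq_abs]
      exact abs_gG_le J b x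
    · rw [indicator_of_notMem hx, norm_zero]
      positivity
  have hdiff : ∀ s : ℂ, 0 < s.re → DifferentiableAt ℂ (fun s => mellin f (-s)) s := by
    intro s hs
    have h1 : DifferentiableAt ℂ (mellin f) (-s) := by
      refine mellin_differentiableAt_of_isBigO_rpow (a := 0) (b := (-s).re - 1) ?_ ?_ ?_ ?_ ?_
      · refine LocallyIntegrable.locallyIntegrableOn ?_ _
        intro x
        refine ⟨Metric.ball x 1, Metric.ball_mem_nhds x one_pos, ?_⟩
        refine Measure.integrableOn_of_bounded (M := M) ?_ hmeas.aestronglyMeasurable ?_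
        · exact (measure_ball_lt_top).ne
        · exact ae_of_all _ hbd
      · simp only [neg_zero, Real.rpow_zero]
        exact Asymptotics.IsBigO.of_bound M (Eventually.of_forall fun x => by
          rw [norm_one, mul_one]; exact hbd x)
      · simpa using hs
      · have : f =ᶠ[𝓝[>] 0] 0 := by
          have h2 : Ioo (0:ℝ) 1 ∈ 𝓝[>] (0:ℝ) := Ioo_mem_nhdsGT one_pos
          filter_upwards [h2] with x hx
          rw [hf, indicator_of_notMem]
          · rfl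
          · simp only [mem_Ioi, not_lt]
            exact hx.2.le
        exact this.trans_isBigO (Asymptotics.isBigO_zero _ _)
      · linarith
    exact h1.comp s differentiableAt_id.neg
  have hU : IsOpen {s : ℂ | 0 < s.re} := isOpen_lt continuous_const Complex.continuous_re
  have hconv : IsPreconnected {s : ℂ | 0 < s.re} :=
    (convex_halfSpace_re_gt 0).isPreconnected
  have hA1 : AnalyticOnNhd ℂ (HG J b) {s : ℂ | 0 < s.re} :=
    (differentiable_HG (fun θ hθ => (hJ θ hθ).1) b).differentiableOn.analyticOnNhd hU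
  have hA2 : AnalyticOnNhd ℂ (fun s => s * mellin f (-s)) {s : ℂ | 0 < s.re} := by
    refine DifferentiableOn.analyticOnNhd ?_ hU
    intro s hs
    exact (differentiableAt_id.mul (hdiff s hs)).differentiableWithinAt
  have key := hA1.eqOn_of_preconnected_of_eventuallyEq hA2 hconv
    (z₀ := 2) (by simp) (by
      have h2 : ∀ᶠ z : ℂ in 𝓝 2, 1 < z.re :=
        (isOpen_lt continuous_const Complex.continuous_re).mem_nhds (by simp)
      filter_upwards [h2] with z hz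
      rw [HG_eq_mellin hJ b hz, hm])
  rw [← hm]
  exact key hs


lemma memLp_gG {p : ℝ} (hp : 1 < p) (J : Finset ℝ) (b : ℝ → ℝ) :
    MemLp (fun x : ℝ => |gG J b x| * x ^ (-(2 / p))) (ENNReal.ofReal p)
      (volume.restrict (Ioi 1)) := by
  have hp0 : 0 < p := by linarith
  have hmeas : Measurable (fun x : ℝ => |gG J b x| * x ^ (-(2 / p))) :=
    (measurable_gG J b).abs.mul (measurable_id.pow_const _)
  rw [← integrable_norm_rpow_iff hmeas.aestronglyMeasurable (by simp [hp0]) (by simp),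
    ENNReal.toReal_ofReal hp0.le]
  set M : ℝ := 1 + ∑ θ ∈ J, |b θ| with hM
  have h2 : IntegrableOn (fun x : ℝ => M ^ p * x ^ (-2:ℝ)) (Ioi 1) :=
    (integrableOn_Ioi_rpow_of_lt (by norm_num) zero_lt_one).const_mul _
  refine h2.mono' (hmeas.norm.pow_const p).aestronglyMeasurable ?_
  refine (ae_restrict_iff' measurableSet_Ioi).2 (ae_of_all _ fun x hx => ?_)
  have hx0 : (0:ℝ) < x := lt_trans zero_lt_one hx
  have h3 : 0 ≤ |gG J b x| * x ^ (-(2 / p)) := by positivity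
  rw [Real.norm_of_nonneg h3, Real.norm_of_nonneg (Real.rpow_nonneg h3 _),
    Real.mul_rpow (abs_nonneg _) (by positivity), ← Real.rpow_mul hx0.le]
  rw [show -(2 / p) * p = -2 by field_simp]
  have := abs_gG_le J b x
  gcongr

/-- Hölder's inequality on `(1, ∞)`. -/
lemma holder_gG {p q : ℝ} (hpq : p.HolderConjugate q) (J : Finset ℝ) (b : ℝ → ℝ) {a : ℝ}
    (ha : 1 < a * q) :
    ∫ x in Ioi (1:ℝ), |gG J b x| * x ^ (-(2 / p) - a) ≤
      nrmP p J b * (∫ x in Ioi (1:ℝ), x ^ (-(a * q))) ^ (1 / q) := by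
  have hp1 := hpq.lt
  have hq0 := hpq.symm.pos
  have hmem : MemLp (fun x : ℝ => x ^ (-a)) (ENNReal.ofReal q) (volume.restrict (Ioi 1)) := by
    have hmeas : Measurable (fun x : ℝ => x ^ (-a)) := measurable_id.pow_const _
    rw [← integrable_norm_rpow_iff hmeas.aestronglyMeasurable (by simp [hq0]) (by simp),
      ENNReal.toReal_ofReal hq0.le]
    have h2 : IntegrableOn (fun x : ℝ => x ^ (-(a * q))) (Ioi 1) :=
      integrableOn_Ioi_rpow_of_lt (by linarith) zero_lt_one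
    refine h2.congr_fun (fun x hx => ?_) measurableSet_Ioi
    have hx0 : (0:ℝ) < x := lt_trans zero_lt_one hx
    show x ^ (-(a * q)) = ‖x ^ (-a)‖ ^ q
    rw [Real.norm_of_nonneg (Real.rpow_nonneg hx0.le _), ← Real.rpow_mul hx0.le]
    ring_nf
  have h := integral_mul_le_Lp_mul_Lq_of_nonneg hpq (μ := volume.restrict (Ioi 1))
    (f := fun x : ℝ => |gG J b x| * x ^ (-(2 / p))) (g := fun x : ℝ => x ^ (-a))
    ((ae_restrict_iff' measurableSet_Ioi).2 (ae_of_all _ fun x hx => by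
      have hx0 : (0:ℝ) < x := lt_trans zero_lt_one hx
      show 0 ≤ |gG J b x| * x ^ (-(2 / p))
      positivity))
    ((ae_restrict_iff' measurableSet_Ioi).2 (ae_of_all _ fun x hx => by
      have hx0 : (0:ℝ) < x := lt_trans zero_lt_one hx
      show 0 ≤ x ^ (-a)
      positivity))
    (memLp_gG hp1 J b) hmem
  have e1 : ∫ x in Ioi (1:ℝ), |gG J b x| * x ^ (-(2 / p) - a) =
      ∫ x in Ioi (1:ℝ), |gG J b x| * x ^ (-(2 / p)) * x ^ (-a) := by
    refine setIntegral_congr_fun measurableSet_Ioi fun x hx => ?_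
    have hx0 : (0:ℝ) < x := lt_trans zero_lt_one hx
    show |gG J b x| * x ^ (-(2 / p) - a) = |gG J b x| * x ^ (-(2 / p)) * x ^ (-a)
    rw [mul_assoc, ← Real.rpow_add hx0]
    ring_nf
  have e2 : ∫ x in Ioi (1:ℝ), (|gG J b x| * x ^ (-(2 / p))) ^ p =
      ∫ x in Ioi (1:ℝ), |gG J b x| ^ p / x ^ 2 := by
    refine setIntegral_congr_fun measurableSet_Ioi fun x hx => ?_
    have hx0 : (0:ℝ) < x := lt_trans zero_lt_one hx
    show (|gG J b x| * x ^ (-(2 / p))) ^ p = |gG J b x| ^ p / x ^ 2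
    rw [Real.mul_rpow (abs_nonneg _) (by positivity), ← Real.rpow_mul hx0.le]
    have hp0 : p ≠ 0 := hpq.ne_zero
    rw [show -(2 / p) * p = -2 by field_simp, Real.rpow_neg hx0.le, div_eq_mul_inv]
    norm_num
  have e3 : ∫ x in Ioi (1:ℝ), (x ^ (-a)) ^ q = ∫ x in Ioi (1:ℝ), x ^ (-(a * q)) := by
    refine setIntegral_congr_fun measurableSet_Ioi fun x hx => ?_
    have hx0 : (0:ℝ) < x := lt_trans zero_lt_one hx
    show (x ^ (-a)) ^ q = x ^ (-(a * q))
    rw [← Real.rpow_mul hx0.le]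
    ring_nf
  rw [e1]
  rw [e2, e3] at h
  exact h

/-- The `L¹` norm is at most the `L^p` norm. -/
lemma nrmG_le_nrmP {p : ℝ} (hp : 1 ≤ p) (J : Finset ℝ) (b : ℝ → ℝ) : nrmG J b ≤ nrmP p J b := by
  rcases eq_or_lt_of_le hp with rfl | hp1
  · rw [nrmP_one]
  have hpq := Real.HolderConjugate.conjExponent hp1
  set q := p.conjExponent with hq
  have hq0 : 0 < q := hpq.symm.pos
  have hp0 : 0 < p := by linarith
  have h := holder_gG hpq J b (a := 2 / q) (by field_simp; norm_num)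
  have e1 : -(2 / p) - 2 / q = -2 := by
    have := hpq.inv_add_inv_eq_one
    rw [div_eq_mul_inv, div_eq_mul_inv]
    linear_combination -2 * this
  have e2 : ∫ x in Ioi (1:ℝ), x ^ (-(2 / q * q)) = 1 := by
    rw [show -(2 / q * q) = (-2:ℝ) by field_simp, integral_Ioi_rpow_of_lt (by norm_num) one_pos]
    norm_num
  rw [e1, e2, Real.one_rpow, mul_one] at h
  refine le_trans (le_of_eq ?_) h
  unfold nrmG
  refine setIntegral_congr_fun measurableSet_Ioi fun x hx => ?_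
  have hx0 : (0:ℝ) < x := lt_trans zero_lt_one hx
  show |gG J b x| / x ^ 2 = |gG J b x| * x ^ (-2:ℝ)
  rw [Real.rpow_neg hx0.le, div_eq_mul_inv]
  norm_num

/-- On a vertical line `Re s = σ > 1/p` the entire function `HG` is bounded by the `L^p` norm. -/
lemma norm_HG_le_P {p : ℝ} (hp : 1 < p) {σ : ℝ} (hσ : 1 / p < σ) :
    ∃ K : ℝ, 0 ≤ K ∧ ∀ (J : Finset ℝ) (b : ℝ → ℝ), (∀ θ ∈ J, 0 < θ ∧ θ ≤ 1) →
      ∀ s : ℂ, s.re = σ → ‖HG J b s‖ ≤ ‖s‖ * (K * nrmP p J b) := by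
  have hpq := Real.HolderConjugate.conjExponent hp
  set q := p.conjExponent with hq
  have hq0 : 0 < q := hpq.symm.pos
  have hp0 : 0 < p := by linarith
  have hσ0 : 0 < σ := lt_trans (by positivity) hσ
  set a : ℝ := σ + 1 - 2 / p with ha
  refine ⟨(∫ x in Ioi (1:ℝ), x ^ (-(a * q))) ^ (1 / q), ?_, fun J b hJ s hs => ?_⟩
  · refine Real.rpow_nonneg (setIntegral_nonneg measurableSet_Ioi fun x hx => ?_) _
    exact Real.rpow_nonneg (lt_trans zero_lt_one hx).le _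
  have haq : 1 < a * q := by
    have h1 := hpq.inv_add_inv_eq_one
    have h2 : q⁻¹ < a := by
      rw [ha, div_eq_mul_inv]
      rw [one_div] at hσ
      linarith
    rw [inv_lt_iff_one_lt_mul₀ hq0] at h2
    linarith
  have h := holder_gG hpq J b haq
  rw [HG_eq_mellin_pos hJ b (by rw [hs]; exact hσ0), norm_mul]
  refine mul_le_mul_of_nonneg_left ?_ (norm_nonneg _)
  rw [mul_comm]
  refine le_trans ?_ h
  have hint : IntegrableOn (fun x : ℝ => |gG J b x| * x ^ (-(2 / p) - a)) (Ioi 1) := by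
    set M : ℝ := 1 + ∑ θ ∈ J, |b θ| with hM
    have h2 : IntegrableOn (fun x : ℝ => M * x ^ (-(σ + 1))) (Ioi 1) :=
      (integrableOn_Ioi_rpow_of_lt (by linarith) zero_lt_one).const_mul _
    refine h2.mono' ((measurable_gG J b).abs.mul
      (measurable_id.pow_const _)).aestronglyMeasurable ?_
    refine (ae_restrict_iff' measurableSet_Ioi).2 (ae_of_all _ fun x hx => ?_)
    have hx0 : (0:ℝ) < x := lt_trans zero_lt_one hx
    have e : -(2 / p) - a = -(σ + 1) := by rw [ha]; ring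
    rw [e, Real.norm_of_nonneg (by positivity)]
    have := abs_gG_le J b x
    gcongr
  refine norm_integral_le_of_norm_le hint ?_
  refine (ae_restrict_iff' measurableSet_Ioi).2 (ae_of_all _ fun x hx => ?_)
  have hx0 : (0:ℝ) < x := lt_trans zero_lt_one hx
  rw [norm_mul, Complex.norm_cpow_eq_rpow_re_of_pos hx0, Complex.norm_real, Real.norm_eq_abs]
  have e : -(2 / p) - a = (-(s + 1)).re := by
    rw [ha]; simp [hs]; ring
  rw [e]


/-- The three-lines estimate, with an arbitrary right line `Re s = σ`. -/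
lemma three_linesP {lam : ℝ} (hl0 : 0 < lam) (hl1 : lam ≤ 1) {J : Finset ℝ}
    (hJ : ∀ θ ∈ J, lam ≤ θ ∧ θ ≤ 1) (b : ℝ → ℝ) (hb : nrmG J b ≤ 1) {L C : ℝ} (hL : 0 ≤ L)
    (hC0 : 0 ≤ C)
    (hC : ∀ s : ℂ, -L ≤ s.re → s.re ≤ 1 → ‖riemannZeta₀ s‖ ≤ C * Real.exp (2 * |s.im|))
    {ρ : ℂ} (h0 : 0 < ρ.re) {σ : ℝ} (hσ0 : ρ.re < σ) (hσ1 : σ ≤ 1) {M : ℝ} (hM0 : 0 ≤ M)
    (hM : ∀ s : ℂ, s.re = σ → ‖HG J b s‖ ≤ ‖s‖ * M) :
    ‖HG J b ρ‖ ≤ (((2 + (C + 1) * (3 * Z2 * (L + 3))) * (1 + |SG J b|) * lam ^ (-(L + 2))) *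
        Real.exp ((L + 1) ^ 2 + 3 * |ρ.im| + 3)) ^ (1 - (ρ.re + L) / (σ + L)) *
      (Real.exp ((L + 1) ^ 2 + 3 * |ρ.im| + 3) * M) ^ ((ρ.re + L) / (σ + L)) := by
  have h1 : ρ.re < 1 := by linarith
  have hJ0 : ∀ θ ∈ J, 0 < θ ∧ θ ≤ 1 := fun θ hθ => ⟨hl0.trans_le (hJ θ hθ).1, (hJ θ hθ).2⟩
  set E := Real.exp ((L + 1) ^ 2 + 3 * |ρ.im| + 3) with hE
  have hE0 : 0 < E := Real.exp_pos _
  have hZ2 := Z2_nonneg
  set F : ℂ → ℂ := fun s => HG J b s * cexp ((s - ρ) ^ 2) with hF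
  have hFd : Differentiable ℂ F := by
    refine (differentiable_HG (fun θ hθ => (hJ0 θ hθ).1) b).mul ?_
    exact ((differentiable_id.sub_const ρ).pow 2).cexp
  have hnF : ∀ s : ℂ, -L ≤ s.re → s.re ≤ 1 → ∀ K : ℝ, 0 ≤ K →
      ‖HG J b s‖ ≤ K * Real.exp (3 * |s.im|) → ‖F s‖ ≤ K * E := by
    intro s hs1 hs2 K hK h
    rw [hF]
    simp only [norm_mul]
    have h3 := norm_exp_sq_le3 hL h0 h1 hs1 hs2
    calc ‖HG J b s‖ * ‖cexp ((s - ρ) ^ 2)‖
        ≤ (K * Real.exp (3 * |s.im|)) * ‖cexp ((s - ρ) ^ 2)‖ := by gcongr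
      _ = K * (Real.exp (3 * |s.im|) * ‖cexp ((s - ρ) ^ 2)‖) := by ring
      _ ≤ K * E := by gcongr
  have hmem : ρ ∈ Complex.HadamardThreeLines.verticalClosedStrip (-L) σ := by
    simp only [Complex.HadamardThreeLines.verticalClosedStrip, mem_preimage, mem_Icc]
    constructor <;> linarith
  have hbdd : BddAbove ((norm ∘ F) '' Complex.HadamardThreeLines.verticalClosedStrip (-L) σ) := by
    obtain ⟨K, hK⟩ := norm_HG_strip hJ0 b hL hC0 hC
    refine ⟨|K| * E, ?_⟩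
    rintro _ ⟨s, hs, rfl⟩
    simp only [Complex.HadamardThreeLines.verticalClosedStrip, mem_preimage, mem_Icc] at hs
    refine hnF s hs.1 (hs.2.trans hσ1) |K| (abs_nonneg K) ?_
    refine (hK s hs.1 (hs.2.trans hσ1)).trans ?_
    gcongr
    exact le_abs_self K
  have hleft : ∀ s ∈ re ⁻¹' {-L}, ‖F s‖ ≤
      ((2 + (C + 1) * (3 * Z2 * (L + 3))) * (1 + |SG J b|) * lam ^ (-(L + 2))) * E := by
    intro s hs
    have hs' : s.re = -L := hs
    exact hnF s hs'.ge (by linarith) _ (by positivity)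
      (norm_HG_left hl0 hl1 hJ b hb hL hC0 hC hs')
  have hright : ∀ s ∈ re ⁻¹' {σ}, ‖F s‖ ≤ E * M := by
    intro s hs
    have hs' : s.re = σ := hs
    rw [mul_comm E]
    refine hnF s (by linarith) (by linarith) _ hM0 ?_
    have h2 := hM s hs'
    have h3 : ‖s‖ ≤ Real.exp (3 * |s.im|) := by
      have h4 := Complex.norm_le_abs_re_add_abs_im s
      rw [hs', abs_of_pos (by linarith)] at h4
      have h5 := Real.add_one_le_exp (3 * |s.im|)
      have h6 := abs_nonneg s.im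
      linarith
    calc ‖HG J b s‖ ≤ ‖s‖ * M := h2
      _ ≤ Real.exp (3 * |s.im|) * M := by gcongr
      _ = _ := mul_comm _ _
  have hlt : -L < σ := by linarith
  have key := Complex.HadamardThreeLines.norm_le_interp_of_mem_verticalClosedStrip' hlt hmem
    hFd.diffContOnCl hbdd hleft hright
  have e1 : F ρ = HG J b ρ := by
    rw [hF]; simp
  rw [e1] at key
  have e2 : (ρ.re - -L) / (σ - -L) = (ρ.re + L) / (σ + L) := by ring_nf
  rw [e2] at key
  exact key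

/-- **Lower bound in `L^p`, `p > 1`.** -/
theorem lowerP_aux {p : ℝ} (hp : 1 < p) {ρ : ℂ} (hρ : riemannZeta ρ = 0) (h0 : 0 < ρ.re)
    {σ : ℝ} (hσ : 1 / p < σ) (hσ0 : ρ.re < σ) (hσ1 : σ ≤ 1) {η : ℝ} (hη : 0 < η) :
    ∃ c : ℝ, 0 < c ∧ ∀ lam : ℝ, 0 < lam → lam ≤ 1 → ∀ J : Finset ℝ,
      (∀ θ ∈ J, lam ≤ θ ∧ θ ≤ 1) → ∀ b : ℝ → ℝ,
      c * lam ^ ((σ - ρ.re) * (1 + η)) ≤ nrmP p J b := by
  obtain ⟨K0, hK00, hK0⟩ := norm_HG_le_P hp hσ
  set K : ℝ := K0 + 1 with hKdef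
  have hK : 0 < K := by positivity
  have h1 : ρ.re < 1 := by linarith
  set L : ℝ := 2 / η with hLdef
  have hL : 0 < L := by positivity
  have hσpos : 0 < σ := by linarith
  obtain ⟨C, hC0, hC⟩ := zeta0_crude L
  set E := Real.exp ((L + 1) ^ 2 + 3 * |ρ.im| + 3) with hE
  have hE0 : 0 < E := Real.exp_pos _
  set θ : ℝ := (ρ.re + L) / (σ + L) with hθ
  have hθ0 : 0 < θ := by positivity
  have hθ1 : 1 - θ = (σ - ρ.re) / (σ + L) := by
    rw [hθ]; field_simp; ring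
  have hθ10 : 0 < 1 - θ := by
    rw [hθ1]
    have : 0 < σ - ρ.re := by linarith
    positivity
  have hρ1 : ρ ≠ 1 := by rintro rfl; simp at h1
  have hZ2 := Z2_nonneg
  have hw : (ρ / (ρ - 1)).im ≠ 0 := by
    have hρim := im_ne_zero_of_zero hρ h0 h1
    have hn : ρ - 1 ≠ 0 := sub_ne_zero.2 hρ1
    have e : ρ / (ρ - 1) = 1 + (ρ - 1)⁻¹ := by field_simp; ring
    rw [e, add_im, one_im, zero_add, inv_im, sub_im, one_im, sub_zero]
    exact div_ne_zero (neg_ne_zero.2 hρim) (by simpa using hn)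
  obtain ⟨c0, hc0, hc0'⟩ := one_sub_mul_ge hw
  set A : ℝ := (2 + (C + 1) * (3 * Z2 * (L + 3))) * E with hA
  have hA0 : 0 < A := by positivity
  set c1 : ℝ := c0 ^ (1 / θ) / (A ^ ((1 - θ) / θ) * (E * K)) with hc1
  have hc10 : 0 < c1 := by positivity
  refine ⟨min 1 c1, by positivity, fun lam hl0 hl1 J hJ b => ?_⟩
  have hJ0 : ∀ θ ∈ J, 0 < θ ∧ θ ≤ 1 := fun θ hθ => ⟨hl0.trans_le (hJ θ hθ).1, (hJ θ hθ).2⟩
  set κ := (σ - ρ.re) * (1 + η) with hκ
  have hκ0 : 0 ≤ κ := by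
    have : 0 ≤ σ - ρ.re := by linarith
    positivity
  have hP1 : lam ^ κ ≤ 1 := Real.rpow_le_one hl0.le hl1 hκ0
  have hP0 : 0 < lam ^ κ := Real.rpow_pos_of_pos hl0 _
  have hε0 := nrmP_nonneg p J b
  rcases le_or_gt 1 (nrmP p J b) with hbig | hsmall
  · have : min 1 c1 ≤ 1 := min_le_left _ _
    have h2 : 0 ≤ min 1 c1 := by positivity
    nlinarith
  have hsmallG : nrmG J b ≤ 1 := (nrmG_le_nrmP hp.le J b).trans hsmall.le
  have h2 : min 1 c1 * lam ^ κ ≤ c1 * lam ^ κ := by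
    have : min 1 c1 ≤ c1 := min_le_right _ _
    gcongr
  refine h2.trans ?_
  set S := |SG J b| with hS
  have hS0 : 0 ≤ S := abs_nonneg _
  have hH : c0 * (1 + S) ≤ ‖HG J b ρ‖ := by
    rw [HG_eq J b hρ1, hρ, zero_mul, add_zero]
    exact hc0' (SG J b)
  have h3 := three_linesP hl0 hl1 hJ b hsmallG hL.le hC0 hC h0 hσ0 hσ1
    (M := K * nrmP p J b) (by positivity) (fun s hs => by
      refine (hK0 J b hJ0 s hs).trans ?_
      have : K0 ≤ K := by rw [hKdef]; linarith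
      gcongr)
  rw [← hE, ← hθ, ← hS] at h3
  have h4 : c0 * (1 + S) ≤ (1 + S) ^ (1 - θ) * ((A * lam ^ (-(L + 2))) ^ (1 - θ) *
      (E * (K * nrmP p J b)) ^ θ) := by
    refine hH.trans (h3.trans (le_of_eq ?_))
    rw [hA]
    rw [show (2 + (C + 1) * (3 * Z2 * (L + 3))) * (1 + S) * lam ^ (-(L + 2)) * E =
      (1 + S) * ((2 + (C + 1) * (3 * Z2 * (L + 3))) * E * lam ^ (-(L + 2))) by ring,
      Real.mul_rpow (by positivity) (by positivity)]
    ring
  have h5 : c0 ≤ (A * lam ^ (-(L + 2))) ^ (1 - θ) * (E * (K * nrmP p J b)) ^ θ := by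
    have h6 : (1 + S) ^ (1 - θ) ≤ 1 + S := by
      calc (1 + S) ^ (1 - θ) ≤ (1 + S) ^ (1:ℝ) :=
            Real.rpow_le_rpow_of_exponent_le (by linarith) (by linarith)
        _ = 1 + S := Real.rpow_one _
    have h7 : 0 ≤ (A * lam ^ (-(L + 2))) ^ (1 - θ) * (E * (K * nrmP p J b)) ^ θ := by positivity
    have h8 : c0 * (1 + S) ≤ (1 + S) * ((A * lam ^ (-(L + 2))) ^ (1 - θ) *
      (E * (K * nrmP p J b)) ^ θ) := h4.trans (by gcongr)
    have h9 : 0 < 1 + S := by linarith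
    rw [mul_comm c0] at h8
    exact le_of_mul_le_mul_left h8 h9
  -- raise to the power 1/θ
  have h6 : c0 ^ (1 / θ) ≤ (A * lam ^ (-(L + 2))) ^ ((1 - θ) / θ) * (E * (K * nrmP p J b)) := by
    have h6 := Real.rpow_le_rpow hc0.le h5 (by positivity : 0 ≤ 1 / θ)
    rw [Real.mul_rpow (by positivity) (by positivity), ← Real.rpow_mul (by positivity),
      ← Real.rpow_mul (by positivity)] at h6
    have e1 : (1 - θ) * (1 / θ) = (1 - θ) / θ := by ring
    have e2 : θ * (1 / θ) = 1 := by field_simp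
    rwa [e1, e2, Real.rpow_one] at h6
  have h7 : (A * lam ^ (-(L + 2))) ^ ((1 - θ) / θ) ≤ A ^ ((1 - θ) / θ) * lam ^ (-κ) := by
    rw [Real.mul_rpow hA0.le (by positivity), ← Real.rpow_mul hl0.le]
    refine mul_le_mul_of_nonneg_left ?_ (by positivity)
    refine Real.rpow_le_rpow_of_exponent_ge hl0 hl1 ?_
    rw [hθ1, hθ, hκ]
    have e3 : (σ - ρ.re) / (σ + L) / ((ρ.re + L) / (σ + L)) = (σ - ρ.re) / (ρ.re + L) := by
      field_simp
    rw [e3]
    have e4 : -(L + 2) * ((σ - ρ.re) / (ρ.re + L)) = -((σ - ρ.re) * ((L + 2) / (ρ.re + L))) := by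
      ring
    rw [e4, neg_le_neg_iff]
    refine mul_le_mul_of_nonneg_left ?_ (by linarith)
    rw [div_le_iff₀ (by positivity)]
    have e5 : η * L = 2 := by rw [hLdef]; field_simp
    nlinarith [mul_pos hη h0]
  have h8 : c0 ^ (1 / θ) ≤ A ^ ((1 - θ) / θ) * lam ^ (-κ) * (E * (K * nrmP p J b)) :=
    h6.trans (mul_le_mul_of_nonneg_right h7 (by positivity))
  rw [hc1]
  have hpos : 0 < A ^ ((1 - θ) / θ) * (E * K) := by positivity
  rw [div_mul_eq_mul_div, div_le_iff₀ hpos]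
  calc c0 ^ (1 / θ) * lam ^ κ
      ≤ (A ^ ((1 - θ) / θ) * lam ^ (-κ) * (E * (K * nrmP p J b))) * lam ^ κ := by
        gcongr
    _ = nrmP p J b * (A ^ ((1 - θ) / θ) * (E * K)) * (lam ^ (-κ) * lam ^ κ) := by ring
    _ = nrmP p J b * (A ^ ((1 - θ) / θ) * (E * K)) := by
      rw [← Real.rpow_add hl0, neg_add_cancel, Real.rpow_zero, mul_one]

/-- **Lower bound in `L^p`, `p ≥ 1`.** Every nontrivial zero `ρ` of zeta and every
`κ > max(0, 1/p - Re ρ)` give `nrmP p J b ≥ c λ^κ` for all finite `J ⊆ [λ, 1]` and all real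
coefficients `b`. -/
theorem lowerP {p : ℝ} (hp : 1 ≤ p) {ρ : ℂ} (hρ : riemannZeta ρ = 0) (h0 : 0 < ρ.re)
    (h1 : ρ.re < 1) {κ : ℝ} (hκ : 0 < κ) (hκ' : 1 / p - ρ.re < κ) :
    ∃ c : ℝ, 0 < c ∧ ∀ lam : ℝ, 0 < lam → lam ≤ 1 → ∀ J : Finset ℝ,
      (∀ θ ∈ J, lam ≤ θ ∧ θ ≤ 1) → ∀ b : ℝ → ℝ, c * lam ^ κ ≤ nrmP p J b := by
  rcases eq_or_lt_of_le hp with rfl | hp1
  · -- `p = 1`
    have h2 : 0 < 1 - ρ.re := by linarith
    rw [div_one] at hκ'
    obtain ⟨c, hc, h⟩ := lowerG hρ h0 h1 (η := κ / (1 - ρ.re) - 1) (by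
      rw [sub_pos, one_lt_div h2]; exact hκ')
    refine ⟨c, hc, fun lam hl0 hl1 J hJ b => ?_⟩
    have h3 := h lam hl0 hl1 J hJ b
    rw [nrmP_one]
    rwa [show (1 - ρ.re) * (1 + (κ / (1 - ρ.re) - 1)) = κ by field_simp; ring] at h3
  · have hp0 : 0 < p := by linarith
    have h1p : 1 / p < 1 := by rw [div_lt_one hp0]; exact hp1
    set m := max (1 / p) ρ.re with hm
    have hm1 : m < 1 := max_lt h1p h1
    have hmκ : m < ρ.re + κ := by
      rw [hm, max_lt_iff]; constructor <;> linarith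
    set σ := (m + min 1 (ρ.re + κ)) / 2 with hσ
    have hσm : m < σ := by
      have : m < min 1 (ρ.re + κ) := lt_min hm1 hmκ
      rw [hσ]; linarith
    have hσM : σ < min 1 (ρ.re + κ) := by
      have : m < min 1 (ρ.re + κ) := lt_min hm1 hmκ
      rw [hσ]; linarith
    have h3 : 1 / p < σ := lt_of_le_of_lt (le_max_left _ _) hσm
    have h4 : ρ.re < σ := lt_of_le_of_lt (le_max_right _ _) hσm
    have h5 : σ ≤ 1 := (hσM.trans_le (min_le_left _ _)).le
    have h6 : σ < ρ.re + κ := hσM.trans_le (min_le_right _ _)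
    have h7 : 0 < σ - ρ.re := by linarith
    obtain ⟨c, hc, h⟩ := lowerP_aux hp1 hρ h0 h3 h4 h5 (η := κ / (σ - ρ.re) - 1) (by
      rw [sub_pos, one_lt_div h7]; linarith)
    refine ⟨c, hc, fun lam hl0 hl1 J hJ b => ?_⟩
    have h8 := h lam hl0 hl1 J hJ b
    rwa [show (σ - ρ.re) * (1 + (κ / (σ - ρ.re) - 1)) = κ by field_simp; ring] at h8

end Pool.Agent.H24.NB
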